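import Pool.Agent.Lib.MP_eeed5c_co_M.MA

/-!
# The theorem on all but the largest matchings

PROOF of `main_mid`. `small_or` (in `Fin2.lean`) leaves `1 ≤ k`, `k ≤ q r`, `q r ≤ 6 k`, `2 ≤ r`, `1 ≤ q`.
The left side of `hk` is positive, so `k < q r`. `decomp r q V G`: `q' + t = q`, `G'`,
`Far G' 1`, `CLe (mp G) (mp G' * Lp r ^ t)`.
If `q' = 0`: `V'` is empty, `mp G' = 1` (`mp_natDegree_le`, `mp_coeff`, `card_mats_zero`), so
`(mats G k).card = (mp G).coeff k ≤ T r q k = (mats (KK q r) k).card` (`card_mats_KK`).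
If `q' ≥ 1`: `mp_rp G'` gives `sQ` (card `≤ q' r`), `Lp_rp r` gives `sK`, and
`rp (sQ + t • sK) = mp G' * Lp r ^ t`. `hmean`: `log_deriv_le` (in `GA.lean`) for `G'`
times `y`, with `mean_eq`. `hgap`: `gap_good` (in `Fin1.lean`) for `G'`. `hle`:
`(mp G').eval y ≤ (Lp r).eval y ^ q'` for `y > 0`: the
function `u ↦ log` of the quotient is monotone by `hmean` (`hasDeriv_log`) and tends to `0` as
`u → -∞`; or directly: for `y ≥ y0 > 0` integrate from `y0` and let `y0 → 0`. (Perhaps already in the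
library: see how `gap` in `GA.lean` is proved.)
Then `mid` gives `(rp (sQ + t • sK)).coeff k ≤ T r q k`.
-/

set_option autoImplicit false

namespace Pool.Agent.Lib.MP_eeed5c_coM

open Finset Pool.Agent.Lib.MP_eeed5c_co Pool.Agent.Lib.MP_eeed5c_coT

theorem MB_Lq_pos {q r : ℕ} (hr : 2 ≤ r) : 0 < Lq q r := by
  unfold Lq
  have hr' : (1 : ℝ) ≤ r := by
    have : (2 : ℝ) ≤ r := by exact_mod_cast hr
    linarith
  have h1 : 0 ≤ Real.log r := Real.log_nonneg hr'
  have h2 : 0 ≤ Real.log ((q : ℝ) * r + 1) := Real.log_nonneg (by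
    have : (0 : ℝ) ≤ (q : ℝ) * r := by positivity
    linarith)
  have h3 : 0 ≤ Real.log (7 + 6 * Real.log ((q : ℝ) * r + 1)) := Real.log_nonneg (by linarith)
  linarith

theorem MB_le {q r : ℕ} {V : Type} [Fintype V] {G : SimpleGraph V} (hr : 1 ≤ r)
    (hV : Fintype.card V = 2 * (q * r)) (hreg : Reg G r) (hF : Far G 1) {y : ℝ} (hy : 0 < y) :
    (mp G).eval y ≤ (Lp r).eval y ^ q := by
  have hF0 : Far G 0 := fun v u h => le_trans zero_le_one (hF v u h)
  have h := gap hr hV hreg (le_refl (0 : ℝ)) hF0 (x0 := min y 1) (lt_min hy one_pos) (min_le_right _ _)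
    (min_le_left y 1)
  have e : Real.exp (-(0 * (q : ℝ) * (r : ℝ) ^ 2 * (min y 1) ^ 4 / (8 * (1 + 2 * (min y 1) * r) ^ 8))) = 1 := by
    rw [zero_mul, zero_mul, zero_mul, zero_div, neg_zero, Real.exp_zero]
  rw [e, one_mul] at h
  exact h

theorem MB_mean {q r : ℕ} {V : Type} [Fintype V] {G : SimpleGraph V} {sQ sK : Multiset ℝ} (hr : 1 ≤ r)
    (hV : Fintype.card V = 2 * (q * r)) (hreg : Reg G r) (hK : Nn sK) (hQ : Nn sQ) (hL : Lp r = rp sK)
    (hG : mp G = rp sQ) {y : ℝ} (hy : 0 < y) : mean sQ y ≤ q * mean sK y := by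
  have h := log_deriv_le hr hV hreg hy
  rw [mean_eq hQ hy.le, mean_eq hK hy.le, ← hL, ← hG, mul_div_assoc, mul_div_assoc]
  calc y * ((mp G).derivative.eval y / (mp G).eval y)
      ≤ y * (q * ((Lp r).derivative.eval y / (Lp r).eval y)) := mul_le_mul_of_nonneg_left h hy.le
    _ = q * (y * ((Lp r).derivative.eval y / (Lp r).eval y)) := by ring

theorem MB_empty {V : Type} [Fintype V] {G : SimpleGraph V} (hV : Fintype.card V = 0) : mp G = 1 := by
  ext i
  rw [mp_coeff, Polynomial.coeff_one]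
  split_ifs with h
  · rw [h, card_mats_zero]
    norm_num
  · rw [card_mats_eq_zero (by omega)]
    norm_num

theorem main_mid {q r k : ℕ} {V : Type} [Fintype V] {G : SimpleGraph V}
    (hV : Fintype.card V = 2 * (q * r)) (hreg : Reg G r)
    (hk : 23000000000 * Lq q r ^ 5 ≤ (q : ℝ) * r - k) :
    (mats G k).card ≤ (mats (KK q r) k).card := by
  rcases small_or (k := k) hV hreg with h | ⟨hk1, _, hkq, hr2, _⟩
  · exact h
  have hr1 : 1 ≤ r := by omega
  have hkn : k < q * r := by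
    have h1 : 0 < 23000000000 * Lq q r ^ 5 := mul_pos (by norm_num) (pow_pos (MB_Lq_pos hr2) 5)
    have h2 : (k : ℝ) < (q : ℝ) * r := by linarith
    exact_mod_cast h2
  obtain ⟨q', t, V', _, G', hqt, hV', hreg', hF', hle⟩ := decomp r q V G hV hreg
  have hcard : ((mats G k).card : ℝ) ≤ (mats (KK q r) k).card := by
    rw [card_mats_KK, ← mp_coeff]
    refine (hle k).trans ?_
    rcases Nat.eq_zero_or_pos q' with h0 | hq'
    · rw [MB_empty (by rw [hV', h0, zero_mul, mul_zero]), one_mul]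
      have ht : t = q := by omega
      rw [ht]
      exact le_refl _
    · obtain ⟨sQ, hQ, hQe, hQc⟩ := mp_rp G' hV'
      obtain ⟨sK, hK, hL, hKc⟩ := Lp_rp r
      have e : mp G' * Lp r ^ t = rp (sQ + t • sK) := by rw [rp_add, rp_nsmul, ← hQe, ← hL]
      rw [e]
      refine mid hqt hK hL hKc hQ hQc hr2 hq' hk1 hkq hkn
        (fun y hy => MB_mean hr1 hV' hreg' hK hQ hL hQe hy) (fun y hy => ?_) (fun y hy => ?_) hk
      · rw [← hQe]
        exact MB_le hr1 hV' hreg' hF' hy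
      · rw [← hQe]
        exact gap_good hr1 hV' hreg' hF' y hy
  exact_mod_cast hcard

end Pool.Agent.Lib.MP_eeed5c_coM
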