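import Pool.Agent.Lib.MP_eeed5c_co_M.Defs

/-!
# Polynomials without zeros in the slit plane are products of linear factors

PROOF. Strong induction on the degree. If `p.natDegree = 0` then `p = 1 = rp 0`. Otherwise `p`
(mapped to `ℂ`) has a complex zero `z` (`Complex.exists_root` or `IsAlgClosed.exists_aeval_eq_zero`);
`z ≠ 0` because the constant coefficient is `1`, and `z` is not in the slit plane, so `z` is real
and negative (`Complex.mem_slitPlane_iff`): `z = -1/μ` with `μ > 0`. So the real number `-1/μ` is a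
root of `p` (the embedding `ℝ → ℂ` is injective), and `X - C (-1/μ)` divides `p`, hence
`p = (1 + C μ * X) * p'` (put `p' = C μ⁻¹ * (p / (X - C (-1/μ)))`). Comparing constant coefficients,
`p'.coeff 0 = 1`; a zero of `p'` in the slit plane would be one of `p`; and
`p'.natDegree + 1 = p.natDegree`. By induction `p' = rp s'`; take `s = μ ::ₘ s'`.
-/

set_option autoImplicit false

namespace Pool.Agent.Lib.MP_eeed5c_coM

open Finset Pool.Agent.Lib.MP_eeed5c_co Pool.Agent.Lib.MP_eeed5c_coT

private theorem HLb_aux : ∀ (n : ℕ) (p : Polynomial ℝ), p.natDegree = n → p.coeff 0 = 1 →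
    (∀ z : ℂ, z ∈ Complex.slitPlane → Polynomial.aeval z p ≠ 0) →
    ∃ s : Multiset ℝ, Nn s ∧ p = rp s ∧ Multiset.card s = n := by
  intro n
  induction n with
  | zero =>
    intro p hp h0 _
    refine ⟨0, fun μ hμ => absurd hμ (Multiset.notMem_zero μ), ?_, Multiset.card_zero⟩
    rw [Polynomial.eq_C_of_natDegree_eq_zero hp, h0]
    simp [rp]
  | succ n ih =>
    intro p hp h0 h
    have hdeg : p.degree ≠ 0 := by
      intro hd
      have h1 : p.natDegree = 0 := Polynomial.natDegree_eq_of_degree_eq_some (n := 0) hd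
      rw [hp] at h1
      exact Nat.succ_ne_zero n h1
    obtain ⟨z, hz⟩ := IsAlgClosed.exists_aeval_eq_zero ℂ p hdeg
    have hzs : z ∉ Complex.slitPlane := fun hs => h z hs hz
    rw [Complex.mem_slitPlane_iff, not_or, not_lt, not_not] at hzs
    obtain ⟨hre, him⟩ := hzs
    have hzr : z = ((z.re : ℝ) : ℂ) := Complex.ext rfl (by rw [him, Complex.ofReal_im])
    have hroot : p.eval z.re = 0 := by
      have h1 : Polynomial.aeval ((z.re : ℝ) : ℂ) p = ((p.eval z.re : ℝ) : ℂ) := by
        have h2 := Polynomial.aeval_algebraMap_apply ℂ z.re p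
        rw [Polynomial.aeval_def, Polynomial.aeval_def] at h2
        rw [Polynomial.aeval_def]
        refine h2.trans ?_
        rfl
      rw [hzr] at hz
      rw [h1] at hz
      exact Complex.ofReal_eq_zero.1 hz
    have hne : z.re ≠ 0 := by
      intro h1
      rw [h1] at hroot
      rw [← Polynomial.coeff_zero_eq_eval_zero, h0] at hroot
      exact one_ne_zero hroot
    have hneg : z.re < 0 := lt_of_le_of_ne hre hne
    set a : ℝ := z.re with ha
    obtain ⟨w, hw⟩ := Polynomial.dvd_iff_isRoot.2 (show p.IsRoot a from hroot)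
    set μ : ℝ := -a⁻¹ with hμ
    have hμpos : 0 < μ := by
      rw [hμ, neg_pos]
      exact inv_lt_zero.2 hneg
    have hfac : p = (1 + Polynomial.C μ * Polynomial.X) * (Polynomial.C μ⁻¹ * w) := by
      have h1 : (1 + Polynomial.C μ * Polynomial.X : Polynomial ℝ) =
          Polynomial.C μ * (Polynomial.X - Polynomial.C a) := by
        rw [mul_sub, ← Polynomial.C_mul, hμ, neg_mul, inv_mul_cancel₀ hne, Polynomial.C_neg, Polynomial.C_neg,
          Polynomial.C_1]
        ring
      have h2 : Polynomial.C μ * Polynomial.C μ⁻¹ = (1 : Polynomial ℝ) := by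
        rw [← Polynomial.C_mul, mul_inv_cancel₀ hμpos.ne', Polynomial.C_1]
      rw [h1, hw]
      calc (Polynomial.X - Polynomial.C a) * w = (Polynomial.C μ * Polynomial.C μ⁻¹) *
            ((Polynomial.X - Polynomial.C a) * w) := by rw [h2, one_mul]
        _ = _ := by ring
    set p' : Polynomial ℝ := Polynomial.C μ⁻¹ * w with hp'
    have hc : p'.coeff 0 = 1 := by
      have h1 := congrArg (fun q : Polynomial ℝ => q.coeff 0) hfac
      simp only [Polynomial.mul_coeff_zero, Polynomial.coeff_add, Polynomial.coeff_X_zero, mul_zero,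
        add_zero, Polynomial.coeff_one_zero, one_mul, h0] at h1
      exact h1.symm
    have hp0 : p' ≠ 0 := fun h1 => by
      rw [h1, Polynomial.coeff_zero] at hc
      exact zero_ne_one hc
    have hd1 : (1 + Polynomial.C μ * Polynomial.X : Polynomial ℝ).natDegree = 1 := by
      rw [add_comm, ← Polynomial.C_1]
      exact Polynomial.natDegree_linear hμpos.ne'
    have hne1 : (1 + Polynomial.C μ * Polynomial.X : Polynomial ℝ) ≠ 0 := fun h1 => by
      rw [h1, Polynomial.natDegree_zero] at hd1
      exact zero_ne_one hd1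
    have hdp : p'.natDegree = n := by
      have h1 := congrArg Polynomial.natDegree hfac
      rw [Polynomial.natDegree_mul hne1 hp0, hd1, hp] at h1
      omega
    obtain ⟨s, hs1, hs2, hs3⟩ := ih p' hdp hc (fun y hy h1 => h y hy (by
      rw [hfac, map_mul, h1, mul_zero]))
    refine ⟨μ ::ₘ s, fun ν hν => ?_, ?_, by rw [Multiset.card_cons, hs3]⟩
    · rcases Multiset.mem_cons.1 hν with h1 | h1
      · rw [h1]
        exact hμpos.le
      · exact hs1 ν h1
    · unfold rp at hs2 ⊢
      rw [Multiset.map_cons, Multiset.prod_cons, ← hs2]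
      exact hfac

theorem exists_rp {p : Polynomial ℝ} (h0 : p.coeff 0 = 1)
    (h : ∀ z : ℂ, z ∈ Complex.slitPlane → Polynomial.aeval z p ≠ 0) :
    ∃ s : Multiset ℝ, Nn s ∧ p = rp s ∧ Multiset.card s = p.natDegree :=
  HLb_aux p.natDegree p rfl h0 h

end Pool.Agent.Lib.MP_eeed5c_coM
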