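import Pool.Agent.Lib.MP_eeed5c_co_M.HLa
import Pool.Agent.Lib.MP_eeed5c_co_M.HLb
import Pool.Agent.Lib.MP_eeed5c_co_T.UB

/-!
# Matching polynomials are products of linear factors

PROOF. `mp_ne_zero` and `exists_rp`; the constant coefficient of `mp G` is `1` (`mp_coeff`,
`card_mats_zero`); the degree is at most `n` (`mp_natDegree_le`). For `Lp r` use
`mp_KK_one : mp (KK 1 r) = Lp r` and `Lp_natDegree_le`.
-/

set_option autoImplicit false
set_option linter.unusedSectionVars false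

namespace Pool.Agent.Lib.MP_eeed5c_coM

open Finset Pool.Agent.Lib.MP_eeed5c_co Pool.Agent.Lib.MP_eeed5c_coT

theorem mp_rp {V : Type*} [Fintype V] (G : SimpleGraph V) {n : ℕ}
    (hV : Fintype.card V = 2 * n) :
    ∃ s : Multiset ℝ, Nn s ∧ mp G = rp s ∧ Multiset.card s ≤ n := by
  have h0 : (mp G).coeff 0 = 1 := by
    rw [mp_coeff, card_mats_zero, Nat.cast_one]
  obtain ⟨s, hs, hps, hc⟩ := exists_rp h0 fun z hz => mp_ne_zero hz
  refine ⟨s, hs, hps, ?_⟩
  rw [hc]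
  exact mp_natDegree_le hV

theorem Lp_rp (r : ℕ) : ∃ s : Multiset ℝ, Nn s ∧ Lp r = rp s ∧ Multiset.card s ≤ r := by
  have h0 : (mp (KK 1 r)).coeff 0 = 1 := by
    rw [mp_coeff, card_mats_zero, Nat.cast_one]
  obtain ⟨s, hs, hps, hc⟩ := exists_rp h0 fun z hz => mp_ne_zero hz
  rw [mp_KK_one] at hps hc
  refine ⟨s, hs, hps, ?_⟩
  rw [hc]
  exact Lp_natDegree_le r

end Pool.Agent.Lib.MP_eeed5c_coM
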