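import Pool.Agent.Lib.MP_eeed5c_co_M.PEb

/-!
# A lower bound for the variance of the number of edges of one block

PROOFS. `mb_eq`: definition of `mb` and `mean_eq`.
`vb_eq`: `(Lp r).eval x * vb r x = ∑ (j - mb)^2 ell j x^j`, and with `L(u) = (Lp r)(e^u) =
∑ ell j e^{ju}`, `L' = mb L`, `L'' = ∑ j^2 ell j e^{ju}`, so `vb = L''/L - (L'/L)^2 = (L'/L)'`, which
is `var s (e^u)` by `hasDeriv_mean` (uniqueness of derivatives of `u ↦ mean s (e^u) = L'(u)/L(u)`).
(The library file `WA.lean` has the polynomial operator `WA_D` and the identities `WA_D_L`,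
`WA_DD_L` which say the same.)
`block_id`: `∑ (r - j)^2 ell j x^j = (Lp r)'(x)` by `ell_succ` (`(j+1) ell (j+1) = (r-j)^2 ell j`);
expand the square: left side `= L ((r - m)^2 + v)`, right side `= L m / x`.
`block_var`: write `m, v, h = r - m` as functions of `u`, `x = e^u`. `block_id` says
`m = x (h^2 + v)`. Differentiate with respect to `u` (`hasDeriv_mean`, `hasDeriv_var`,
`h' = -v`): `v = x (h^2 + v) + x (-2 h v + thd) = m - 2 x h v + x thd ≥ m - 2 x h v - x v`
(`thd_ge`). So `v (1 + (2 h + 1) x) ≥ m`.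
`min_le_var`: `m, h ≥ 0`. If `h ≥ 1`: `x h^2 ≤ m`, so `x (2h+1) ≤ 3 x h ≤ 3 m / h`. If `0 < h < 1`:
`h^2 + v = E (r-j)^2 ≥ E (r-j) = h` (because `(r-j)^2 ≥ r-j` for integers), so `x h ≤ m` and
`x (2h+1) ≤ 3 x ≤ 3 m / h`. In both cases `v (1 + 3 m / h) ≥ m`, i.e. `v ≥ m h / (h + 3 m) ≥
min m h / 4`. (`h > 0` because the weight of `j = 0` is positive; if `h = 0` the claim is trivial.)
-/

set_option autoImplicit false

namespace Pool.Agent.Lib.MP_eeed5c_coM

open Finset Pool.Agent.Lib.MP_eeed5c_co Pool.Agent.Lib.MP_eeed5c_coT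

/-- The moments of one block. -/
private noncomputable def VB_F (r k : ℕ) (x : ℝ) : ℝ := ∑ j ∈ range (r + 1), (j : ℝ) ^ k * (ell r j * x ^ j)

private theorem VB_F0 (r : ℕ) (x : ℝ) : VB_F r 0 x = (Lp r).eval x := by
  rw [Lp_eval]
  unfold VB_F
  exact Finset.sum_congr rfl fun j _ => by rw [pow_zero, one_mul]

private theorem VB_F1 (r : ℕ) (x : ℝ) : VB_F r 1 x = x * (Lp r).derivative.eval x := by
  rw [Lp_eval_deriv]
  unfold VB_F
  exact Finset.sum_congr rfl fun j _ => by rw [pow_one]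

private theorem VB_deriv (r k : ℕ) (u : ℝ) :
    HasDerivAt (fun u : ℝ => VB_F r k (Real.exp u)) (VB_F r (k + 1) (Real.exp u)) u := by
  unfold VB_F
  have h1 : ∀ j ∈ range (r + 1), HasDerivAt (fun u : ℝ => (j : ℝ) ^ k * (ell r j * Real.exp u ^ j))
      ((j : ℝ) ^ (k + 1) * (ell r j * Real.exp u ^ j)) u := by
    intro j _
    have h2 : HasDerivAt (fun u : ℝ => Real.exp u ^ j) ((j : ℝ) * Real.exp u ^ (j - 1) * Real.exp u) u :=
      (Real.hasDerivAt_exp u).pow j
    have h3 := (h2.const_mul (ell r j)).const_mul ((j : ℝ) ^ k)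
    have h4 : (j : ℝ) ^ k * (ell r j * ((j : ℝ) * Real.exp u ^ (j - 1) * Real.exp u)) =
        (j : ℝ) ^ (k + 1) * (ell r j * Real.exp u ^ j) := by
      rcases Nat.eq_zero_or_pos j with hj | hj
      · rw [hj]
        simp
      · obtain ⟨i, rfl⟩ : ∃ i, j = i + 1 := ⟨j - 1, by omega⟩
        rw [Nat.add_sub_cancel]
        ring
    rw [← h4]
    exact h3
  have h5 := HasDerivAt.sum h1
  have h6 : (∑ j ∈ range (r + 1), fun u : ℝ => (j : ℝ) ^ k * (ell r j * Real.exp u ^ j)) =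
      fun u : ℝ => ∑ j ∈ range (r + 1), (j : ℝ) ^ k * (ell r j * Real.exp u ^ j) := by
    funext v
    rw [Finset.sum_apply]
  rw [h6] at h5
  exact h5

private theorem VB_sq (r : ℕ) {x : ℝ} (hx : 0 < x) :
    ∑ j ∈ range (r + 1), ((r : ℝ) - j) ^ 2 * (ell r j * x ^ j) = VB_F r 1 x / x := by
  rw [eq_div_iff hx.ne', VB_F1, Lp_eval_deriv, Finset.sum_range_succ' (fun j : ℕ =>
    (j : ℝ) * (ell r j * x ^ j)), Finset.sum_range_succ]
  simp only [Nat.cast_zero, zero_mul, add_zero, sub_self, ne_eq, OfNat.ofNat_ne_zero,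
    not_false_eq_true, zero_pow]
  rw [Finset.sum_mul]
  refine Finset.sum_congr rfl fun j _ => ?_
  have h := ell_succ r j
  push_cast
  calc ((r : ℝ) - j) ^ 2 * (ell r j * x ^ j) * x = (((r : ℝ) - j) ^ 2 * ell r j) * x ^ (j + 1) := by ring
    _ = _ := by
      rw [← h]
      ring

private theorem VB_sq2 (r : ℕ) (x c : ℝ) :
    ∑ j ∈ range (r + 1), ((j : ℝ) - c) ^ 2 * (ell r j * x ^ j) =
      VB_F r 2 x - 2 * c * VB_F r 1 x + c ^ 2 * VB_F r 0 x := by
  unfold VB_F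
  rw [Finset.mul_sum, Finset.mul_sum, ← Finset.sum_sub_distrib, ← Finset.sum_add_distrib]
  exact Finset.sum_congr rfl fun j _ => by ring

theorem mb_eq {r : ℕ} {s : Multiset ℝ} (hs : Nn s) (hL : Lp r = rp s) {x : ℝ} (hx : 0 < x) :
    mb r x = mean s x := by
  rw [mean_eq hs hx.le, ← hL]
  rfl

private theorem VB_mean {r : ℕ} {s : Multiset ℝ} (hs : Nn s) (hL : Lp r = rp s) {x : ℝ} (hx : 0 < x) :
    mean s x = VB_F r 1 x / VB_F r 0 x := by
  rw [mean_eq hs hx.le, ← hL, VB_F0, VB_F1]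

private theorem VB_pos (r : ℕ) {x : ℝ} (hx : 0 < x) : 0 < VB_F r 0 x := by
  rw [VB_F0]
  have := Lp_pos r hx.le
  linarith

private theorem VB_var {r : ℕ} {s : Multiset ℝ} (hs : Nn s) (hL : Lp r = rp s) {x : ℝ} (hx : 0 < x) :
    var s x = VB_F r 2 x / VB_F r 0 x - (VB_F r 1 x / VB_F r 0 x) ^ 2 := by
  obtain ⟨u, hu⟩ : ∃ u, u = Real.log x := ⟨_, rfl⟩
  have hxu : x = Real.exp u := by rw [hu, Real.exp_log hx]
  have h1 := hasDeriv_mean hs u
  have hF0 : VB_F r 0 (Real.exp u) ≠ 0 := (VB_pos r (Real.exp_pos u)).ne'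
  have h2 := (VB_deriv r 1 u).div (VB_deriv r 0 u) hF0
  have h3 : (fun u : ℝ => mean s (Real.exp u)) =
      fun u : ℝ => VB_F r 1 (Real.exp u) / VB_F r 0 (Real.exp u) := by
    funext v
    exact VB_mean hs hL (Real.exp_pos v)
  rw [h3] at h1
  have h4 := h1.unique h2
  rw [hxu, h4]
  field_simp

private theorem VB_vb {r : ℕ} {x : ℝ} (hx : 0 < x) :
    vb r x = VB_F r 2 x / VB_F r 0 x - (VB_F r 1 x / VB_F r 0 x) ^ 2 := by
  have hF0 : VB_F r 0 x ≠ 0 := (VB_pos r hx).ne'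
  have hm : mb r x = VB_F r 1 x / VB_F r 0 x := by rw [VB_F1, VB_F0]; rfl
  unfold vb
  rw [VB_sq2, hm, ← VB_F0]
  field_simp
  ring

theorem vb_eq {r : ℕ} {s : Multiset ℝ} (hs : Nn s) (hL : Lp r = rp s) {x : ℝ} (hx : 0 < x) :
    vb r x = var s x := by
  rw [VB_vb hx, VB_var hs hL hx]

private theorem VB_E {r : ℕ} {s : Multiset ℝ} (hs : Nn s) (hL : Lp r = rp s) {x : ℝ} (hx : 0 < x) :
    ∑ j ∈ range (r + 1), ((r : ℝ) - j) ^ 2 * (ell r j * x ^ j) =
      (((r : ℝ) - mean s x) ^ 2 + var s x) * VB_F r 0 x := by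
  have hF0 : VB_F r 0 x ≠ 0 := (VB_pos r hx).ne'
  have h1 : ∑ j ∈ range (r + 1), ((r : ℝ) - j) ^ 2 * (ell r j * x ^ j) =
      ∑ j ∈ range (r + 1), ((j : ℝ) - r) ^ 2 * (ell r j * x ^ j) :=
    Finset.sum_congr rfl fun j _ => by ring
  rw [h1, VB_sq2, VB_mean hs hL hx, VB_var hs hL hx]
  field_simp
  ring

theorem block_id {r : ℕ} {s : Multiset ℝ} (hs : Nn s) (hL : Lp r = rp s) {x : ℝ} (hx : 0 < x) :
    mean s x = x * (((r : ℝ) - mean s x) ^ 2 + var s x) := by
  have hF0 : VB_F r 0 x ≠ 0 := (VB_pos r hx).ne'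
  have h1 := VB_sq r hx
  rw [VB_E hs hL hx] at h1
  have h2 : (((r : ℝ) - mean s x) ^ 2 + var s x) = VB_F r 1 x / x / VB_F r 0 x := by
    rw [← h1, mul_div_cancel_right₀ _ hF0]
  rw [h2]
  have h3 := VB_mean hs hL hx
  rw [h3]
  field_simp

theorem block_var {r : ℕ} {s : Multiset ℝ} (hs : Nn s) (hL : Lp r = rp s) {x : ℝ} (hx : 0 < x) :
    mean s x ≤ var s x * (1 + (2 * ((r : ℝ) - mean s x) + 1) * x) := by
  obtain ⟨u, hu⟩ : ∃ u, u = Real.log x := ⟨_, rfl⟩
  have hxu : x = Real.exp u := by rw [hu, Real.exp_log hx]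
  have h1 := hasDeriv_mean hs u
  have h2 := hasDeriv_var hs u
  have h3 : HasDerivAt (fun u : ℝ => Real.exp u * (((r : ℝ) - mean s (Real.exp u)) ^ 2 + var s (Real.exp u)))
      (Real.exp u * (((r : ℝ) - mean s (Real.exp u)) ^ 2 + var s (Real.exp u)) + Real.exp u *
        ((2 : ℕ) * ((r : ℝ) - mean s (Real.exp u)) ^ (2 - 1) * (-var s (Real.exp u)) +
          thd s (Real.exp u))) u :=
    (Real.hasDerivAt_exp u).mul (((h1.const_sub (r : ℝ)).pow 2).add h2)
  have h4 : (fun u : ℝ => Real.exp u * (((r : ℝ) - mean s (Real.exp u)) ^ 2 + var s (Real.exp u))) =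
      fun u : ℝ => mean s (Real.exp u) := by
    funext v
    exact (block_id hs hL (Real.exp_pos v)).symm
  rw [h4] at h3
  have h5 := h1.unique h3
  rw [← hxu] at h5
  have h6 := block_id hs hL hx
  rw [← h6] at h5
  have h7 := thd_ge hs hx.le
  push_cast at h5
  simp only [pow_one] at h5
  have h8 : -(x * var s x) ≤ x * thd s x := by
    have := mul_le_mul_of_nonneg_left h7 hx.le
    linarith
  have h9 : mean s x = var s x + x * (2 * ((r : ℝ) - mean s x) * var s x) - x * thd s x := by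
    linear_combination -h5
  have h10 : var s x * (1 + (2 * ((r : ℝ) - mean s x) + 1) * x) =
      var s x + x * (2 * ((r : ℝ) - mean s x) * var s x) + x * var s x := by ring
  rw [h10]
  linarith

theorem min_le_var {r : ℕ} {s : Multiset ℝ} (hs : Nn s) (hL : Lp r = rp s) {x : ℝ} (hx : 0 < x) :
    min (mean s x) ((r : ℝ) - mean s x) ≤ 4 * var s x := by
  have hv := var_nonneg hs hx.le
  have hm := mean_nonneg hs hx.le
  have hid := block_id hs hL hx
  have hbv := block_var hs hL hx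
  have hE := VB_E hs hL hx
  have hF := VB_pos r hx
  obtain ⟨m, hmd⟩ : ∃ m, m = mean s x := ⟨_, rfl⟩
  obtain ⟨v, hvd⟩ : ∃ v, v = var s x := ⟨_, rfl⟩
  obtain ⟨h, hhd⟩ : ∃ h, h = (r : ℝ) - mean s x := ⟨_, rfl⟩
  have hE2 : h ≤ h ^ 2 + v := by
    have h1 : ∑ j ∈ range (r + 1), ((r : ℝ) - j) * (ell r j * x ^ j) ≤
        ∑ j ∈ range (r + 1), ((r : ℝ) - j) ^ 2 * (ell r j * x ^ j) := by
      refine Finset.sum_le_sum fun j hj => ?_
      refine mul_le_mul_of_nonneg_right ?_ (mul_nonneg (ell_nonneg _ _) (pow_nonneg hx.le _))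
      have hj' : j ≤ r := by have := Finset.mem_range.1 hj; omega
      obtain ⟨i, hi⟩ := Nat.exists_eq_add_of_le hj'
      have h2 : (r : ℝ) - j = (i : ℝ) := by
        rw [hi]
        push_cast
        ring
      rw [h2]
      have h3 : i ≤ i ^ 2 := by nlinarith [Nat.zero_le i, Nat.le_self_pow (two_ne_zero) i]
      exact_mod_cast h3
    have h2 : ∑ j ∈ range (r + 1), ((r : ℝ) - j) * (ell r j * x ^ j) = h * VB_F r 0 x := by
      have h3 : ∑ j ∈ range (r + 1), ((r : ℝ) - j) * (ell r j * x ^ j) =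
          r * VB_F r 0 x - VB_F r 1 x := by
        unfold VB_F
        rw [Finset.mul_sum, ← Finset.sum_sub_distrib]
        exact Finset.sum_congr rfl fun j _ => by ring
      rw [h3, hhd, VB_mean hs hL hx, sub_mul, div_mul_cancel₀ _ hF.ne']
    rw [h2, hE, ← hhd, ← hvd] at h1
    exact le_of_mul_le_mul_right h1 hF
  rw [← hhd, ← hmd, ← hvd] at hid hbv
  rw [← hhd, ← hmd, ← hvd]
  rw [← hmd] at hm
  rw [← hvd] at hv
  by_cases hh : h ≤ 0
  · exact le_trans (min_le_right _ _) (by linarith)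
  · push Not at hh
    have hx3 : x * (2 * h + 1) * h ≤ 3 * m := by
      by_cases h1 : 1 ≤ h
      · have h2 : x * h ^ 2 ≤ m := by rw [hid]; nlinarith [mul_nonneg hx.le hv]
        have h3 : x * (2 * h + 1) * h ≤ 3 * (x * h ^ 2) := by
          nlinarith [mul_nonneg (mul_nonneg hx.le hh.le) (sub_nonneg.2 h1)]
        linarith
      · push Not at h1
        have h2 : x * h ≤ m := by rw [hid]; exact mul_le_mul_of_nonneg_left hE2 hx.le
        have h3 : x * (2 * h + 1) * h ≤ 3 * (x * h) := by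
          nlinarith [mul_nonneg (mul_nonneg hx.le hh.le) (sub_nonneg.2 h1.le)]
        linarith
    have hkey : h * m ≤ v * (h + 3 * m) := by
      have h1 : h * m ≤ h * (v * (1 + (2 * h + 1) * x)) := mul_le_mul_of_nonneg_left hbv hh.le
      have h2 : h * (v * (1 + (2 * h + 1) * x)) = v * (h + x * (2 * h + 1) * h) := by ring
      have h3 : v * (h + x * (2 * h + 1) * h) ≤ v * (h + 3 * m) :=
        mul_le_mul_of_nonneg_left (by linarith) hv
      linarith
    rcases le_total m h with h1 | h1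
    · rw [min_eq_left h1]
      have h2 : v * (h + 3 * m) ≤ v * (4 * h) := mul_le_mul_of_nonneg_left (by linarith) hv
      have h3 : h * m ≤ h * (4 * v) := by nlinarith
      exact le_of_mul_le_mul_left h3 hh
    · rw [min_eq_right h1]
      have hm0 : 0 < m := lt_of_lt_of_le hh h1
      have h2 : v * (h + 3 * m) ≤ v * (4 * m) := mul_le_mul_of_nonneg_left (by linarith) hv
      have h3 : m * h ≤ m * (4 * v) := by nlinarith
      exact le_of_mul_le_mul_left h3 hm0

end Pool.Agent.Lib.MP_eeed5c_coM
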