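import Pool.Agent.Lib.MP_eeed5c_co_M.PEa

/-!
# The logarithm on the right half plane

For `0 < z.re` and `μ ≥ 0` the number `1 + μ z` has real part `≥ 1`, so it is in the slit plane and
not zero; `‖1 + μ z‖ ≥ 1` and `‖1 + μ z‖ ≤ 1 + μ ‖z‖`, and `|arg| ≤ π / 2 ≤ 2`.
`exp_lg`: induction, `Complex.exp_add`, `Complex.exp_log`, `rp_aeval`.
`lg_real`: `Complex.ofReal_log`, `Real.log_mul`/`Real.log_multiset_prod` and `rp_eval`.
`norm_lg_le`: `‖log w‖ ≤ |log ‖w‖| + |arg w|` (`Complex.norm_le_abs_re_add_abs_im`,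
`Complex.log_re`, `Complex.log_im`), `0 ≤ log ‖1 + μ z‖ ≤ log (1 + μ ‖z‖)`; the last logarithms sum
to `log ((rp s).eval ‖z‖)`.
-/

set_option autoImplicit false

namespace Pool.Agent.Lib.MP_eeed5c_coM

open Finset Pool.Agent.Lib.MP_eeed5c_co Pool.Agent.Lib.MP_eeed5c_coT

private theorem FL_Nn_cons {μ : ℝ} {s : Multiset ℝ} (hs : Nn (μ ::ₘ s)) : 0 ≤ μ ∧ Nn s :=
  ⟨hs μ (Multiset.mem_cons_self μ s), fun ν hν => hs ν (Multiset.mem_cons_of_mem hν)⟩

private theorem FL_lg_cons (μ : ℝ) (s : Multiset ℝ) (z : ℂ) :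
    lg (μ ::ₘ s) z = Complex.log (1 + μ * z) + lg s z := by
  unfold lg
  rw [Multiset.map_cons, Multiset.sum_cons]

private theorem FL_re {μ : ℝ} (hμ : 0 ≤ μ) {z : ℂ} (hz : 0 < z.re) : 1 ≤ (1 + (μ : ℂ) * z).re := by
  rw [Complex.add_re, Complex.one_re, Complex.re_ofReal_mul]
  have := mul_nonneg hμ hz.le
  linarith

private theorem FL_slit {μ : ℝ} (hμ : 0 ≤ μ) {z : ℂ} (hz : 0 < z.re) :
    1 + (μ : ℂ) * z ∈ Complex.slitPlane :=
  Or.inl (lt_of_lt_of_le one_pos (FL_re hμ hz))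

theorem lg_differentiableAt {s : Multiset ℝ} (hs : Nn s) {z : ℂ} (hz : 0 < z.re) :
    DifferentiableAt ℂ (lg s) z := by
  induction s using Multiset.induction_on with
  | empty =>
    have h : lg 0 = fun _ => 0 := by
      funext z
      unfold lg
      rw [Multiset.map_zero, Multiset.sum_zero]
    rw [h]
    exact differentiableAt_const _
  | cons μ s ih =>
    obtain ⟨hμ, hs'⟩ := FL_Nn_cons hs
    have h : lg (μ ::ₘ s) = fun z => Complex.log (1 + μ * z) + lg s z :=
      funext fun z => FL_lg_cons μ s z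
    rw [h]
    refine DifferentiableAt.add (DifferentiableAt.clog ?_ (FL_slit hμ hz)) (ih hs')
    fun_prop

theorem exp_lg {s : Multiset ℝ} (hs : Nn s) {z : ℂ} (hz : 0 < z.re) :
    Complex.exp (lg s z) = Polynomial.aeval z (rp s) := by
  rw [rp_aeval]
  induction s using Multiset.induction_on with
  | empty =>
    unfold lg
    rw [Multiset.map_zero, Multiset.sum_zero, Complex.exp_zero, Multiset.map_zero, Multiset.prod_zero]
  | cons μ s ih =>
    obtain ⟨hμ, hs'⟩ := FL_Nn_cons hs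
    rw [FL_lg_cons, Complex.exp_add, Complex.exp_log (Complex.slitPlane_ne_zero (FL_slit hμ hz)),
      ih hs', Multiset.map_cons, Multiset.prod_cons]

private theorem FL_rp_cons (μ : ℝ) (s : Multiset ℝ) (x : ℝ) :
    (rp (μ ::ₘ s)).eval x = (1 + μ * x) * (rp s).eval x := by
  rw [rp_eval, rp_eval, Multiset.map_cons, Multiset.prod_cons]

theorem lg_real {s : Multiset ℝ} (hs : Nn s) {x : ℝ} (hx : 0 < x) :
    lg s (x : ℂ) = (Real.log ((rp s).eval x) : ℝ) := by
  induction s using Multiset.induction_on with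
  | empty =>
    unfold lg
    rw [Multiset.map_zero, Multiset.sum_zero, rp_eval, Multiset.map_zero, Multiset.prod_zero,
      Real.log_one, Complex.ofReal_zero]
  | cons μ s ih =>
    obtain ⟨hμ, hs'⟩ := FL_Nn_cons hs
    have h1 : 0 < 1 + μ * x := by
      have := mul_nonneg hμ hx.le
      linarith
    have h2 : 0 < (rp s).eval x := lt_of_lt_of_le one_pos (one_le_rp hs' hx.le)
    rw [FL_lg_cons, ih hs', FL_rp_cons, Real.log_mul h1.ne' h2.ne', Complex.ofReal_add,
      Complex.ofReal_log h1.le, Complex.ofReal_add, Complex.ofReal_one, Complex.ofReal_mul]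

theorem norm_lg_le {s : Multiset ℝ} (hs : Nn s) {z : ℂ} (hz : 0 < z.re) :
    ‖lg s z‖ ≤ Real.log ((rp s).eval ‖z‖) + 2 * Multiset.card s := by
  induction s using Multiset.induction_on with
  | empty =>
    unfold lg
    rw [Multiset.map_zero, Multiset.sum_zero, rp_eval, Multiset.map_zero, Multiset.prod_zero,
      Real.log_one, norm_zero, Multiset.card_zero]
    simp
  | cons μ s ih =>
    obtain ⟨hμ, hs'⟩ := FL_Nn_cons hs
    have h0 := mul_nonneg hμ (norm_nonneg z)
    have h1 : 0 < 1 + μ * ‖z‖ := by linarith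
    have h2 : 0 < (rp s).eval ‖z‖ := lt_of_lt_of_le one_pos (one_le_rp hs' (norm_nonneg z))
    have h3 := FL_re hμ hz
    have h4 : 1 ≤ ‖1 + (μ : ℂ) * z‖ := h3.trans (Complex.re_le_norm _)
    have h5 : ‖1 + (μ : ℂ) * z‖ ≤ 1 + μ * ‖z‖ := by
      refine (norm_add_le _ _).trans ?_
      rw [norm_one, norm_mul, Complex.norm_real, Real.norm_of_nonneg hμ]
    have h6 : ‖Complex.log (1 + (μ : ℂ) * z)‖ ≤ Real.log (1 + μ * ‖z‖) + 2 := by
      refine (Complex.norm_le_abs_re_add_abs_im _).trans ?_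
      rw [Complex.log_re, Complex.log_im, abs_of_nonneg (Real.log_nonneg h4)]
      have h7 : |Complex.arg (1 + (μ : ℂ) * z)| ≤ Real.pi / 2 :=
        Complex.abs_arg_le_pi_div_two_iff.2 (by linarith)
      have h8 := Real.pi_le_four
      have h9 := Real.log_le_log (by linarith) h5
      linarith
    rw [FL_lg_cons, FL_rp_cons, Real.log_mul h1.ne' h2.ne', Multiset.card_cons]
    refine (norm_add_le _ _).trans ?_
    have h10 := ih hs'
    push_cast
    linarith

end Pool.Agent.Lib.MP_eeed5c_coM
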