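import Pool.Agent.Lib.MP_eeed5c_co_M.DL
import Pool.Agent.Lib.MP_eeed5c_co_M.FL

/-!
# The quotient near the point `x` of the circle

PROOF of `circle_close`. Let `H z = lg sP (x (1 - z^2)) - lg sQ (x (1 - z^2)) - δ` on the unit disc. For
`‖z‖ < 1` the number `x (1 - z^2)` has positive real part and absolute value `≤ 2 x`, so `H` is
differentiable (`lg_differentiableAt`) and `‖H z‖ ≤ B` (`norm_lg_le`, `rp_mono`, `Real.log_le_log`,
`one_le_rp`). For real `t`, `|t| < 1`, put `y = x (1 - t^2) ∈ (0, x]`; by `lg_real`,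
`H t = (log P(y) - log Q(y)) - δ` is a real number in `[-δ, 0]`, so `‖H t‖ ≤ δ`. `H 0 = 0` by the
definition of `δ`. Given `θ`, take `z` with `z^2 = 1 - exp (θ I)`
(`IsAlgClosed.exists_pow_nat_eq`); `‖z‖^2 = ‖1 - exp (θ I)‖ ≤ |θ|` (`Complex.norm_exp_I_mul_ofReal_sub_one`
or a similar lemma, `‖exp(iθ) - 1‖ = 2 |sin(θ/2)| ≤ |θ|`), so `‖z‖ ≤ √|θ|` and
`4 L ‖z‖ ≤ 4 L √|θ| ≤ 1` because `(4 L)^2 |θ| ≤ 1`. `disc` gives
`‖H z‖ ≤ 9 L ‖z‖ δ ≤ 9 L √|θ| δ`, and `x (1 - z^2) = x exp (θ I) = pt x θ`.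
-/

set_option autoImplicit false

namespace Pool.Agent.Lib.MP_eeed5c_coM

open Finset Pool.Agent.Lib.MP_eeed5c_co Pool.Agent.Lib.MP_eeed5c_coT

theorem circle_close {sP sQ : Multiset ℝ} (hP : Nn sP) (hQ : Nn sQ) {x δ B L : ℝ} (hx : 0 < x)
    (hδ : δ = Real.log ((rp sP).eval x) - Real.log ((rp sQ).eval x)) (hδ0 : 0 < δ)
    (hmono : ∀ y, 0 < y → y ≤ x →
      0 ≤ Real.log ((rp sP).eval y) - Real.log ((rp sQ).eval y) ∧
      Real.log ((rp sP).eval y) - Real.log ((rp sQ).eval y) ≤ δ)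
    (hB : Real.log ((rp sP).eval (2 * x)) + Real.log ((rp sQ).eval (2 * x)) +
      2 * Multiset.card sP + 2 * Multiset.card sQ + δ ≤ B)
    (hL : L = Real.log (B / δ)) (hL1 : 1 ≤ L) {t : ℝ} (ht : 16 * L ^ 2 * |t| ≤ 1) :
    ‖lg sP (pt x t) - lg sQ (pt x t) - δ‖ ≤ 9 * L * √|t| * δ := by
  let H : ℂ → ℂ := fun z => lg sP ((x : ℂ) * (1 - z ^ 2)) - lg sQ ((x : ℂ) * (1 - z ^ 2)) - δ
  have hre : ∀ z ∈ Metric.ball (0 : ℂ) 1, 0 < ((x : ℂ) * (1 - z ^ 2)).re ∧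
      ‖(x : ℂ) * (1 - z ^ 2)‖ ≤ 2 * x := by
    intro z hz
    rw [Metric.mem_ball, dist_zero_right] at hz
    have h1 : ‖z ^ 2‖ < 1 := by
      rw [norm_pow]
      exact pow_lt_one₀ (norm_nonneg z) hz two_ne_zero
    constructor
    · rw [Complex.re_ofReal_mul, Complex.sub_re, Complex.one_re]
      have h2 := Complex.re_le_norm (z ^ 2)
      exact mul_pos hx (by linarith)
    · rw [norm_mul, Complex.norm_real, Real.norm_of_nonneg hx.le]
      have h3 : ‖1 - z ^ 2‖ ≤ 1 + ‖z ^ 2‖ := (norm_sub_le _ _).trans (by rw [norm_one])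
      nlinarith
  have hdiff : DifferentiableOn ℂ H (Metric.ball 0 1) := by
    intro z hz
    have h1 : DifferentiableAt ℂ (fun z : ℂ => (x : ℂ) * (1 - z ^ 2)) z := by fun_prop
    have h2 : DifferentiableAt ℂ (fun z : ℂ => lg sP ((x : ℂ) * (1 - z ^ 2))) z :=
      DifferentiableAt.comp (g := lg sP) z (lg_differentiableAt hP (hre z hz).1) h1
    have h3 : DifferentiableAt ℂ (fun z : ℂ => lg sQ ((x : ℂ) * (1 - z ^ 2))) z :=
      DifferentiableAt.comp (g := lg sQ) z (lg_differentiableAt hQ (hre z hz).1) h1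
    exact ((h2.sub h3).sub_const _).differentiableWithinAt
  have hbd : ∀ z ∈ Metric.ball (0 : ℂ) 1, ‖H z‖ ≤ B := by
    intro z hz
    obtain ⟨h1, h2⟩ := hre z hz
    have h3 : ∀ {s : Multiset ℝ}, Nn s → ‖lg s ((x : ℂ) * (1 - z ^ 2))‖ ≤
        Real.log ((rp s).eval (2 * x)) + 2 * Multiset.card s := by
      intro s hs
      refine (norm_lg_le hs h1).trans ?_
      have h4 : Real.log ((rp s).eval ‖(x : ℂ) * (1 - z ^ 2)‖) ≤ Real.log ((rp s).eval (2 * x)) :=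
        Real.log_le_log (lt_of_lt_of_le one_pos (one_le_rp hs (norm_nonneg _)))
          (rp_mono hs (norm_nonneg _) h2)
      linarith
    have h5 : ‖(δ : ℂ)‖ = δ := by rw [Complex.norm_real, Real.norm_of_nonneg hδ0.le]
    have h6 : ‖H z‖ ≤ ‖lg sP ((x : ℂ) * (1 - z ^ 2))‖ + ‖lg sQ ((x : ℂ) * (1 - z ^ 2))‖ + ‖(δ : ℂ)‖ :=
      (norm_sub_le _ _).trans (add_le_add (norm_sub_le _ _) le_rfl)
    have h7 := h3 hP
    have h8 := h3 hQ
    linarith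
  have hval : ∀ t : ℝ, |t| < 1 → 0 < x * (1 - t ^ 2) ∧ x * (1 - t ^ 2) ≤ x ∧
      H t = ((Real.log ((rp sP).eval (x * (1 - t ^ 2))) -
        Real.log ((rp sQ).eval (x * (1 - t ^ 2))) - δ : ℝ) : ℂ) := by
    intro t ht
    have h1 : t ^ 2 < 1 := by
      rw [← sq_abs]
      exact pow_lt_one₀ (abs_nonneg t) ht two_ne_zero
    have h2 : 0 < x * (1 - t ^ 2) := mul_pos hx (by linarith)
    refine ⟨h2, by nlinarith [sq_nonneg t], ?_⟩
    have h3 : (x : ℂ) * (1 - (t : ℂ) ^ 2) = ((x * (1 - t ^ 2) : ℝ) : ℂ) := by push_cast; ring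
    change lg sP ((x : ℂ) * (1 - (t : ℂ) ^ 2)) - lg sQ ((x : ℂ) * (1 - (t : ℂ) ^ 2)) - δ = _
    rw [h3, lg_real hP h2, lg_real hQ h2]
    push_cast
    ring
  have hreal : ∀ t : ℝ, |t| < 1 → ‖H (t : ℂ)‖ ≤ δ := by
    intro t ht
    obtain ⟨h1, h2, h3⟩ := hval t ht
    obtain ⟨h4, h5⟩ := hmono _ h1 h2
    rw [h3, Complex.norm_real, Real.norm_eq_abs, abs_le]
    constructor <;> linarith
  have h0 : H 0 = 0 := by
    have h1 := (hval 0 (by rw [abs_zero]; exact one_pos)).2.2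
    rw [Complex.ofReal_zero] at h1
    rw [h1]
    have h2 : x * (1 - (0 : ℝ) ^ 2) = x := by ring
    rw [h2, ← hδ, sub_self, Complex.ofReal_zero]
  obtain ⟨z, hz⟩ := IsAlgClosed.exists_pow_nat_eq (1 - Complex.exp (t * Complex.I)) two_pos
  have hnz : ‖z‖ ^ 2 ≤ |t| := by
    rw [← norm_pow, hz, norm_sub_rev, mul_comm]
    exact Real.norm_exp_I_mul_ofReal_sub_one_le
  have hnz' : ‖z‖ ≤ √|t| := Real.le_sqrt_of_sq_le hnz
  have hL0 : 0 ≤ L := zero_le_one.trans hL1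
  have h4 : 4 * L * ‖z‖ ≤ 1 := by
    have h5 : (4 * L * ‖z‖) ^ 2 ≤ 1 := by
      have h6 : 16 * L ^ 2 * ‖z‖ ^ 2 ≤ 16 * L ^ 2 * |t| :=
        mul_le_mul_of_nonneg_left hnz (by positivity)
      calc (4 * L * ‖z‖) ^ 2 = 16 * L ^ 2 * ‖z‖ ^ 2 := by ring
        _ ≤ 16 * L ^ 2 * |t| := h6
        _ ≤ 1 := ht
    exact (abs_le_one_iff_mul_self_le_one.2 (by rw [← sq]; exact h5) |> le_trans (le_abs_self _))
  have h5 := disc hdiff hδ0 hL hL1 hbd hreal h0 h4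
  have h6 : H z = lg sP (pt x t) - lg sQ (pt x t) - δ := by
    change lg sP ((x : ℂ) * (1 - z ^ 2)) - lg sQ ((x : ℂ) * (1 - z ^ 2)) - δ = _
    have h7 : (x : ℂ) * (1 - z ^ 2) = pt x t := by
      rw [hz, sub_sub_cancel]
      rfl
    rw [h7]
  rw [← h6]
  refine h5.trans ?_
  gcongr

end Pool.Agent.Lib.MP_eeed5c_coM
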