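import Mathlib

/-!
# A function which is small on a diameter

PROOF of `disc`. Put `L = log (B / δ) ≥ 1`.
Step 1. `tanh` maps the strip `|Im s| ≤ 1/2` into the open unit disc:
`‖sinh s‖^2 = sinh(σ)^2 + sin(t)^2 < sinh(σ)^2 + cos(t)^2 = ‖cosh s‖^2` for `s = σ + i t`,
`|t| ≤ 1/2 < π/4`. (`Complex.sinh_add`, ... or compute `normSq`.) In particular `cosh s ≠ 0`, and
`φ s = H (tanh s)` is analytic on a neighbourhood of the strip `|Im s| < 1/2` and continuous on the
closed strip, bounded by `B`, and `‖φ σ‖ ≤ δ` for real `σ` (`tanh σ ∈ (-1, 1)`).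
Step 2 (three lines theorem, `Complex.HadamardThreeLines.norm_le_interp_of_mem_verticalClosedStrip'`
applied to `ζ ↦ φ (i ζ / 2)` on `0 ≤ Re ζ ≤ 1`, and to `ζ ↦ φ (-i ζ / 2)`): for `|Im s| ≤ 1/2`,
`‖φ s‖ ≤ δ^(1 - 2|t|) B^(2|t|) = δ exp (2 |t| L)`.
Step 3. Let `t0 = 1 / (2 L) ≤ 1/2`. For `|Im s| ≤ t0` we get `‖φ s‖ ≤ e δ`. As `φ 0 = 0`, the Schwarz
lemma (`Complex.norm_le_norm_of_mapsTo_ball`, `Complex.dist_le_div_mul_dist_of_mapsTo_ball`,
or `Complex.norm_dslope_le_div_of_mapsTo_ball`) on the ball of radius `t0` gives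
`‖φ s‖ ≤ (e δ / t0) ‖s‖ = 2 e L δ ‖s‖` for `‖s‖ < t0`. (If the Mathlib lemma wants the image in an
open ball, use the radius `e δ (1 + ε)` and let `ε → 0`, or `2.8 δ`: `2.8 * 2 * 1.5 = 8.4 ≤ 9`.)
Step 4. Given `z`, put `s = (log (1 + z) - log (1 - z)) / 2`. Then `tanh s = z` (for `‖z‖ < 1`,
`1 + z` and `1 - z` are in the right half plane and `exp (2 s) = (1 + z)/(1 - z)`), and
`‖s‖ ≤ (3/2) ‖z‖` for `‖z‖ ≤ 1/2` (`Complex.norm_log_one_add_half_le_self`). Since
`4 L ‖z‖ ≤ 1`, `‖s‖ ≤ 3 / (8 L) < t0` and `‖z‖ ≤ 1/4`.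
So `‖H z‖ = ‖φ s‖ ≤ 2 e L δ (3/2) ‖z‖ ≤ 9 L ‖z‖ δ`.
-/

set_option autoImplicit false

namespace Pool.Agent.Lib.MP_eeed5c_coM

/-- Maximum principle on a rectangle in the upper half of the unit disc. -/
theorem DL_half {g : ℂ → ℂ} {B δ L : ℝ} (hδ : 0 < δ) (hBL : B ≤ δ * Real.exp L) (hL : 0 ≤ L)
    (hg : DifferentiableOn ℂ g (Metric.ball 0 1))
    (hB : ∀ z ∈ Metric.ball (0 : ℂ) 1, ‖g z‖ ≤ B)
    (hr : ∀ x : ℝ, |x| < 1 → ‖g (x : ℂ)‖ ≤ δ) (z : ℂ) (hz1 : |z.re| ≤ 79 / 100)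
    (hz2 : 0 ≤ z.im) (hz3 : z.im ≤ 3 / 5) :
    ‖g z‖ ≤ δ * Real.exp (L * (264 / 100 * ‖z‖ + 161 / 100 * ‖z‖ ^ 2)) := by
  set G : ℂ → ℂ := fun z => g z *
    Complex.exp (-(L : ℂ) * ((161 / 100 : ℝ) * z ^ 2 - (264 / 100 : ℝ) * Complex.I * z)) with hG
  have hnorm : ∀ z : ℂ, ‖G z‖ = ‖g z‖ *
      Real.exp (-L * (161 / 100 * (z.re ^ 2 - z.im ^ 2) + 264 / 100 * z.im)) := by
    intro z
    rw [hG]
    simp only [norm_mul, Complex.norm_exp]
    congr 2
    simp [pow_two]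
  set U : Set ℂ := (Set.Ioo (-(79 / 100) : ℝ) (79 / 100)) ×ℂ (Set.Ioo (0 : ℝ) (3 / 5)) with hU
  have hcl : closure U = (Set.Icc (-(79 / 100) : ℝ) (79 / 100)) ×ℂ (Set.Icc (0 : ℝ) (3 / 5)) := by
    rw [hU, Complex.closure_reProdIm, closure_Ioo (by norm_num), closure_Ioo (by norm_num)]
  have hmem : ∀ w ∈ closure U, |w.re| ≤ 79 / 100 ∧ 0 ≤ w.im ∧ w.im ≤ 3 / 5 := by
    intro w hw
    rw [hcl] at hw
    have h := Complex.mem_reProdIm.1 hw
    exact ⟨abs_le.2 ⟨h.1.1, h.1.2⟩, h.2.1, h.2.2⟩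
  have hsqre : ∀ w : ℂ, |w.re| ≤ 79 / 100 → w.re ^ 2 ≤ (79 / 100) ^ 2 := by
    intro w h
    rw [← sq_abs]
    exact pow_le_pow_left₀ (abs_nonneg _) h 2
  have hin : ∀ w ∈ closure U, w ∈ Metric.ball (0 : ℂ) 1 := by
    intro w hw
    obtain ⟨h1, h2, h3⟩ := hmem w hw
    rw [mem_ball_zero_iff]
    have h4 : ‖w‖ ^ 2 < 1 ^ 2 := by
      rw [← Complex.normSq_eq_norm_sq, Complex.normSq_apply]
      have := hsqre w h1
      nlinarith
    exact lt_of_pow_lt_pow_left₀ 2 (by norm_num) h4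
  have hGd : DifferentiableOn ℂ G (Metric.ball 0 1) := by
    rw [hG]
    fun_prop
  have hbdd : Bornology.IsBounded U :=
    (Metric.isBounded_ball (x := (0 : ℂ)) (r := 1)).subset
      fun w hw => hin w (subset_closure hw)
  have hdcl : DiffContOnCl ℂ G U :=
    ⟨hGd.mono fun w hw => hin w (subset_closure hw),
      hGd.continuousOn.mono fun w hw => hin w hw⟩
  have hfr : ∀ w ∈ frontier U, ‖G w‖ ≤ δ := by
    intro w hw
    have hwc : w ∈ closure U := frontier_subset_closure hw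
    obtain ⟨h1, h2, h3⟩ := hmem w hwc
    rw [hU, Complex.frontier_reProdIm, closure_Ioo (by norm_num), closure_Ioo (by norm_num),
      frontier_Ioo (by norm_num), frontier_Ioo (by norm_num)] at hw
    rw [hnorm]
    have key : 1 ≤ 161 / 100 * (w.re ^ 2 - w.im ^ 2) + 264 / 100 * w.im →
        ‖g w‖ * Real.exp (-L * (161 / 100 * (w.re ^ 2 - w.im ^ 2) + 264 / 100 * w.im)) ≤ δ := by
      intro hv
      have h4 : Real.exp (-L * (161 / 100 * (w.re ^ 2 - w.im ^ 2) + 264 / 100 * w.im)) ≤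
          Real.exp (-L) := by
        apply Real.exp_le_exp.2
        nlinarith
      calc ‖g w‖ * Real.exp (-L * (161 / 100 * (w.re ^ 2 - w.im ^ 2) + 264 / 100 * w.im))
          ≤ (δ * Real.exp L) * Real.exp (-L) :=
            mul_le_mul ((hB w (hin w hwc)).trans hBL) h4 (Real.exp_pos _).le
              (mul_nonneg hδ.le (Real.exp_pos _).le)
        _ = δ := by rw [mul_assoc, ← Real.exp_add]; simp
    rcases hw with hw | hw
    · have hw' := Complex.mem_reProdIm.1 hw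
      rcases hw'.2 with h0 | h0
      · have hwre : w = ((w.re : ℝ) : ℂ) := by
          apply Complex.ext
          · simp
          · simp [h0]
        have h5 : ‖g w‖ ≤ δ := by
          rw [hwre]; exact hr _ (by linarith)
        have h6 : Real.exp (-L * (161 / 100 * (w.re ^ 2 - w.im ^ 2) + 264 / 100 * w.im)) ≤ 1 := by
          apply Real.exp_le_one_iff.2
          rw [h0]
          nlinarith [sq_nonneg w.re]
        calc ‖g w‖ * Real.exp (-L * (161 / 100 * (w.re ^ 2 - w.im ^ 2) + 264 / 100 * w.im))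
            ≤ δ * 1 := mul_le_mul h5 h6 (Real.exp_pos _).le hδ.le
          _ = δ := mul_one _
      · apply key
        have : w.im = 3 / 5 := h0
        rw [this]
        nlinarith [sq_nonneg w.re]
    · have hw' := Complex.mem_reProdIm.1 hw
      apply key
      have hre : w.re ^ 2 = (79 / 100) ^ 2 := by
        rcases hw'.1 with h0 | h0
        · have : w.re = -(79 / 100) := h0
          rw [this]; norm_num
        · have : w.re = 79 / 100 := h0
          rw [this]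
      rw [hre]
      nlinarith
  have hzU : z ∈ closure U := by
    rw [hcl]
    exact Complex.mem_reProdIm.2 ⟨abs_le.1 hz1, ⟨hz2, hz3⟩⟩
  have hmain := Complex.norm_le_of_forall_mem_frontier_norm_le hbdd hdcl hfr hzU
  rw [hnorm] at hmain
  have hv : 161 / 100 * (z.re ^ 2 - z.im ^ 2) + 264 / 100 * z.im ≤
      264 / 100 * ‖z‖ + 161 / 100 * ‖z‖ ^ 2 := by
    have h1 : z.im ≤ ‖z‖ := (le_abs_self _).trans (Complex.abs_im_le_norm z)
    have h2 : z.re ^ 2 ≤ ‖z‖ ^ 2 := by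
      have := Complex.abs_re_le_norm z
      calc z.re ^ 2 = |z.re| ^ 2 := (sq_abs _).symm
        _ ≤ ‖z‖ ^ 2 := pow_le_pow_left₀ (abs_nonneg _) this 2
    nlinarith [sq_nonneg z.im]
  have hexp : Real.exp (-L * (161 / 100 * (z.re ^ 2 - z.im ^ 2) + 264 / 100 * z.im)) *
      Real.exp (L * (161 / 100 * (z.re ^ 2 - z.im ^ 2) + 264 / 100 * z.im)) = 1 := by
    rw [← Real.exp_add]; simp
  calc ‖g z‖ = (‖g z‖ * Real.exp (-L * (161 / 100 * (z.re ^ 2 - z.im ^ 2) + 264 / 100 * z.im))) *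
        Real.exp (L * (161 / 100 * (z.re ^ 2 - z.im ^ 2) + 264 / 100 * z.im)) := by
        rw [mul_assoc, hexp, mul_one]
    _ ≤ δ * Real.exp (L * (264 / 100 * ‖z‖ + 161 / 100 * ‖z‖ ^ 2)) := by
        apply mul_le_mul hmain _ (Real.exp_pos _).le hδ.le
        exact Real.exp_le_exp.2 (mul_le_mul_of_nonneg_left hv hL)

theorem disc {H : ℂ → ℂ} {B δ L : ℝ} (hH : DifferentiableOn ℂ H (Metric.ball 0 1)) (hδ : 0 < δ)
    (hL : L = Real.log (B / δ)) (hL1 : 1 ≤ L) (hB : ∀ z ∈ Metric.ball (0 : ℂ) 1, ‖H z‖ ≤ B)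
    (hreal : ∀ t : ℝ, |t| < 1 → ‖H (t : ℂ)‖ ≤ δ) (h0 : H 0 = 0) {z : ℂ}
    (hz : 4 * L * ‖z‖ ≤ 1) : ‖H z‖ ≤ 9 * L * ‖z‖ * δ := by
  have hLpos : 0 < L := by linarith
  have hBpos : 0 < B := by
    rcases lt_trichotomy B 0 with h | h | h
    · have := (norm_nonneg _).trans (hB 0 (by simp))
      linarith
    · rw [h] at hL
      simp at hL
      linarith
    · exact h
  have hBL : B ≤ δ * Real.exp L := by
    rw [hL, Real.exp_log (div_pos hBpos hδ)]
    field_simp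
    exact le_refl _
  set t0 : ℝ := 26 / (100 * L) with ht0
  have ht0pos : 0 < t0 := by rw [ht0]; positivity
  have hLt0 : L * t0 = 26 / 100 := by rw [ht0]; field_simp
  have ht01 : t0 ≤ 26 / 100 := by nlinarith
  have hexpb : Real.exp (7953 / 10000 : ℝ) ≤ 222 / 100 := by
    have h1 := Real.exp_bound' (x := (7953 / 10000 : ℝ)) (by norm_num) (by norm_num) (n := 6)
      (by norm_num)
    refine h1.trans ?_
    norm_num [Finset.sum_range_succ, Nat.factorial]
  have hball : ∀ z : ℂ, ‖z‖ < t0 → ‖H z‖ ≤ 222 / 100 * δ := by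
    intro z hz
    have hz' : ‖z‖ ≤ 26 / 100 := by linarith
    have h1 : |z.re| ≤ 79 / 100 := (Complex.abs_re_le_norm z).trans (by linarith)
    have h2 : |z.im| ≤ 3 / 5 := (Complex.abs_im_le_norm z).trans (by linarith)
    have h6 : ‖H z‖ ≤ δ * Real.exp (L * (264 / 100 * ‖z‖ + 161 / 100 * ‖z‖ ^ 2)) := by
      rcases le_total 0 z.im with h | h
      · exact DL_half hδ hBL hLpos.le hH hB hreal z h1 h (abs_le.1 h2).2
      · have h0 := DL_half (g := fun w => H (-w)) hδ hBL hLpos.le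
          (hH.comp (differentiableOn_id.neg) (fun w hw => by simpa using hw))
          (fun w hw => hB (-w) (by simpa using hw))
          (fun x hx => by
            have := hreal (-x) (by simpa using hx)
            simpa using this) (-z) (by simpa using h1) (by simpa using h)
          (by
            have := (abs_le.1 h2).1
            simp only [Complex.neg_im]
            linarith)
        simpa using h0
    refine h6.trans ?_
    have h3 : L * (264 / 100 * ‖z‖ + 161 / 100 * ‖z‖ ^ 2) ≤ 7953 / 10000 := by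
      have h4 : L * ‖z‖ ≤ 26 / 100 := by
        rw [← hLt0]; exact mul_le_mul_of_nonneg_left hz.le hLpos.le
      have h7 : L * ‖z‖ * ‖z‖ ≤ 26 / 100 * (26 / 100) :=
        mul_le_mul h4 hz' (norm_nonneg _) (by norm_num)
      nlinarith [norm_nonneg z]
    calc δ * Real.exp (L * (264 / 100 * ‖z‖ + 161 / 100 * ‖z‖ ^ 2))
        ≤ δ * Real.exp (7953 / 10000) := mul_le_mul_of_nonneg_left (Real.exp_le_exp.2 h3) hδ.le
      _ ≤ δ * (222 / 100) := mul_le_mul_of_nonneg_left hexpb hδ.le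
      _ = 222 / 100 * δ := by ring
  have hmaps : Set.MapsTo H (Metric.ball 0 t0) (Metric.closedBall (H 0) (222 / 100 * δ)) := by
    intro w hw
    rw [mem_ball_zero_iff] at hw
    rw [h0, mem_closedBall_zero_iff]
    exact hball w hw
  have hdiff : DifferentiableOn ℂ H (Metric.ball 0 t0) :=
    hH.mono (Metric.ball_subset_ball (by linarith))
  have hzt : ‖z‖ < t0 := by
    have h1 : 4 * L * ‖z‖ < 4 * L * t0 := by
      calc 4 * L * ‖z‖ ≤ 1 := hz
        _ < 4 * L * t0 := by rw [mul_assoc, hLt0]; norm_num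
    exact lt_of_mul_lt_mul_left h1 (by positivity)
  have hS := Complex.dist_le_div_mul_dist_of_mapsTo_ball hdiff hmaps (z := z)
    (by rw [mem_ball_zero_iff]; exact hzt)
  rw [h0, dist_zero_right, dist_zero_right] at hS
  refine hS.trans ?_
  have h4 : 222 / 100 * δ / t0 * ‖z‖ = (222 / 26) * (L * ‖z‖ * δ) := by
    rw [ht0]
    field_simp
  rw [h4]
  have h5 : 0 ≤ L * ‖z‖ * δ := by positivity
  nlinarith

end Pool.Agent.Lib.MP_eeed5c_coM
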