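import Pool.Agent.Lib.MP_eeed5c_co_T.Fin3
import Mathlib

/-!
# Definitions

`rp s` is the polynomial `∏ (1 + μ X)` over the elements `μ` of the multiset `s`; `mean` and `var`
are its first two logarithmic derivatives with respect to `log x`; `lg` is a branch of its
logarithm on the right half plane.
-/

set_option autoImplicit false

namespace Pool.Agent.Lib.MP_eeed5c_coM

open Finset Pool.Agent.Lib.MP_eeed5c_co Pool.Agent.Lib.MP_eeed5c_coT

/-- The polynomial `∏ (1 + μ X)`. -/
noncomputable def rp (s : Multiset ℝ) : Polynomial ℝ :=
  (s.map fun μ => 1 + Polynomial.C μ * Polynomial.X).prod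

/-- All elements are nonnegative. -/
def Nn (s : Multiset ℝ) : Prop := ∀ μ ∈ s, 0 ≤ μ

/-- The mean of the number of edges. -/
noncomputable def mean (s : Multiset ℝ) (x : ℝ) : ℝ := (s.map fun μ => μ * x / (1 + μ * x)).sum

/-- The variance of the number of edges. -/
noncomputable def var (s : Multiset ℝ) (x : ℝ) : ℝ :=
  (s.map fun μ => μ * x / (1 + μ * x) ^ 2).sum

/-- The logarithm on the right half plane. -/
noncomputable def lg (s : Multiset ℝ) (z : ℂ) : ℂ := (s.map fun μ : ℝ => Complex.log (1 + μ * z)).sum

/-- The point of the circle of radius `x` with angle `t`. -/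
noncomputable def pt (x t : ℝ) : ℂ := (x : ℂ) * Complex.exp (t * Complex.I)

section

variable {V : Type*} [Fintype V]

open scoped Classical in
/-- The complex weight of the matchings which do not cover the vertices of `S`. -/
noncomputable def ZC (G : SimpleGraph V) (z : ℂ) (S : Finset V) : ℂ :=
  ∑ N ∈ (Mt G).filter (fun N => S ⊆ free N), z ^ N.card

end

end Pool.Agent.Lib.MP_eeed5c_coM
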