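import Pool.Agent.Lib.MP_eeed5c_co_M.Defs

/-!
# Coefficients as integrals

PROOF. `aeval (pt x t) p = ∑ k ∈ range (natDegree p + 1), p.coeff k * (x e^{it})^k`
(`Polynomial.aeval_eq_sum_range`), so the integrand is `∑ p.coeff k * x^k * exp ((k - N) t I)`;
`∫ exp (m t I)` over `(-π, π)` is `0` for a nonzero integer `m` and `2 π` for `m = 0`
(`integral_exp_mul_complex`, or `fourierIntegral`-free direct computation). If
`N > natDegree p` both sides are zero.
-/

set_option autoImplicit false

namespace Pool.Agent.Lib.MP_eeed5c_coM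

open Finset Pool.Agent.Lib.MP_eeed5c_co Pool.Agent.Lib.MP_eeed5c_coT

theorem FI_exp (m : ℤ) : ∫ t in (-Real.pi)..Real.pi, Complex.exp ((m : ℂ) * Complex.I * (t : ℂ)) =
    if m = 0 then ((2 * Real.pi : ℝ) : ℂ) else 0 := by
  split_ifs with h
  · subst h
    simp only [Int.cast_zero, zero_mul, Complex.exp_zero, intervalIntegral.integral_const, Complex.real_smul, mul_one]
    push_cast
    ring
  · have hc : (m : ℂ) * Complex.I ≠ 0 := mul_ne_zero (Int.cast_ne_zero.2 h) Complex.I_ne_zero
    rw [integral_exp_mul_complex hc]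
    have h1 : Complex.exp ((m : ℂ) * Complex.I * ((Real.pi : ℝ) : ℂ)) =
        Complex.exp ((m : ℂ) * Complex.I * ((-Real.pi : ℝ) : ℂ)) := by
      rw [Complex.exp_eq_exp_iff_exists_int]
      refine ⟨m, ?_⟩
      push_cast
      ring
    rw [h1, sub_self, zero_div]

theorem continuous_aeval_pt (p : Polynomial ℝ) (x : ℝ) (N : ℕ) :
    Continuous fun t : ℝ => Polynomial.aeval (pt x t) p * Complex.exp (-(N * t * Complex.I)) := by
  have h1 : Continuous fun t : ℝ => pt x t := by
    unfold pt
    fun_prop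
  refine Continuous.mul ?_ (by fun_prop)
  exact p.continuous_aeval.comp h1

theorem coeff_integral (p : Polynomial ℝ) {x : ℝ} (hx : 0 < x) (N : ℕ) :
    ∫ t in (-Real.pi)..Real.pi, Polynomial.aeval (pt x t) p * Complex.exp (-(N * t * Complex.I)) =
      ((2 * Real.pi * (p.coeff N * x ^ N) : ℝ) : ℂ) := by
  have h1 : ∀ t : ℝ, Polynomial.aeval (pt x t) p * Complex.exp (-(N * t * Complex.I)) =
      ∑ k ∈ range (p.natDegree + 1), ((p.coeff k * x ^ k : ℝ) : ℂ) * Complex.exp ((((k : ℤ) - N : ℤ) : ℂ) * Complex.I * (t : ℂ)) := by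
    intro t
    rw [Polynomial.aeval_eq_sum_range, Finset.sum_mul]
    refine Finset.sum_congr rfl fun k _ => ?_
    rw [pt, mul_pow, ← Complex.exp_nat_mul, Complex.real_smul, mul_assoc, mul_assoc, ← Complex.exp_add]
    push_cast
    rw [mul_assoc]
    have h0 : (k : ℂ) * ((t : ℂ) * Complex.I) + -((N : ℂ) * ((t : ℂ) * Complex.I)) =
        ((k : ℂ) - N) * (Complex.I * (t : ℂ)) := by ring
    have h0' : ((k : ℂ) - N) * Complex.I * (t : ℂ) = ((k : ℂ) - N) * (Complex.I * (t : ℂ)) := by ring
    rw [h0, h0']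
    ring
  simp only [h1]
  rw [intervalIntegral.integral_finsetSum fun k _ => Continuous.intervalIntegrable (by fun_prop) _ _]
  simp only [intervalIntegral.integral_const_mul, FI_exp]
  have h2 : ∀ k ∈ range (p.natDegree + 1), ((p.coeff k * x ^ k : ℝ) : ℂ) *
      (if (k : ℤ) - N = 0 then ((2 * Real.pi : ℝ) : ℂ) else 0) =
      if k = N then ((2 * Real.pi * (p.coeff N * x ^ N) : ℝ) : ℂ) else 0 := by
    intro k _
    by_cases hk : k = N
    · rw [if_pos hk, if_pos (by omega), hk]
      push_cast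
      ring
    · rw [if_neg hk, if_neg (by omega), mul_zero]
  rw [Finset.sum_congr rfl h2, Finset.sum_ite_eq']
  split_ifs with h3
  · rfl
  · rw [Finset.mem_range, not_lt] at h3
    rw [Polynomial.coeff_eq_zero_of_natDegree_lt (by omega)]
    simp

end Pool.Agent.Lib.MP_eeed5c_coM
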