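import Mathlib

/-!
# A Gaussian integral

PROOF. Let `W = S ^ 4 > 0`, `a = W / 5`. For `u ≥ 0`, `√u ≤ (S u + S⁻¹) / 2` (AM-GM). So the integrand is at
most `(S |t| + S⁻¹) / 2 * exp (-(W t^2 / 5))`. `∫_{-π}^{π} |t| e^{-a t^2} dt ≤ 1 / a = 5 / W`
(antiderivative `-e^{-a t^2} / (2 a)` on `[0, π]`, even function), and
`∫_{-π}^{π} e^{-a t^2} dt ≤ ∫_ℝ e^{-a t^2} = √(π / a) = √(5 π / W) ≤ 4 / S^2`
(`integral_gaussian`, `5 π ≤ 16`). Total `≤ (S * 5 / S^4 + S⁻¹ * 4 / S^2) / 2 = 4.5 / S^3`.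
-/

set_option autoImplicit false

namespace Pool.Agent.Lib.MP_eeed5c_coM

open MeasureTheory

private theorem GI_pt {S : ℝ} (hS : 0 < S) (t : ℝ) : √|t| ≤ (S * |t| + S⁻¹) / 2 := by
  have h1 : √|t| ^ 2 = |t| := Real.sq_sqrt (abs_nonneg t)
  have h2 : 0 ≤ (S * √|t| - 1) ^ 2 / S := by positivity
  have h3 : (S * √|t| - 1) ^ 2 / S = S * √|t| ^ 2 - 2 * √|t| + S⁻¹ := by
    field_simp
    ring
  rw [h3, h1] at h2
  linarith

private theorem GI_deriv {a : ℝ} (ha : 0 < a) (t : ℝ) :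
    HasDerivAt (fun t : ℝ => -(Real.exp (-(a * t ^ 2)) / (2 * a))) (t * Real.exp (-(a * t ^ 2))) t := by
  have h1 : HasDerivAt (fun t : ℝ => -(a * t ^ 2)) (-(a * (2 * t))) t := by
    have h : HasDerivAt (fun t : ℝ => -(a * t ^ 2)) (-(a * (((2 : ℕ) : ℝ) * t ^ (2 - 1)))) t :=
      ((hasDerivAt_pow 2 t).const_mul a).neg
    have h0 : ((2 : ℕ) : ℝ) * t ^ (2 - 1) = 2 * t := by norm_num
    rw [h0] at h
    exact h
  have h2 : HasDerivAt (fun t : ℝ => -(Real.exp (-(a * t ^ 2)) / (2 * a)))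
      (-(Real.exp (-(a * t ^ 2)) * -(a * (2 * t)) / (2 * a))) t := ((h1.exp).div_const (2 * a)).neg
  have h3 : -(Real.exp (-(a * t ^ 2)) * -(a * (2 * t)) / (2 * a)) = t * Real.exp (-(a * t ^ 2)) := by
    field_simp
  rw [h3] at h2
  exact h2

private theorem GI_cont (a : ℝ) : Continuous fun t : ℝ => Real.exp (-(a * t ^ 2)) := by
  fun_prop

private theorem GI_abs {a : ℝ} (ha : 0 < a) :
    ∫ t in (-Real.pi)..Real.pi, |t| * Real.exp (-(a * t ^ 2)) ≤ 1 / a := by
  have hc := GI_cont a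
  have hpi := Real.pi_pos
  have hci : Continuous fun t : ℝ => |t| * Real.exp (-(a * t ^ 2)) := continuous_abs.mul hc
  have hcj : Continuous fun t : ℝ => t * Real.exp (-(a * t ^ 2)) := continuous_id.mul hc
  rw [← intervalIntegral.integral_add_adjacent_intervals (hci.intervalIntegrable (-Real.pi) 0)
    (hci.intervalIntegrable 0 Real.pi)]
  have h1 : ∫ t in (-Real.pi)..0, |t| * Real.exp (-(a * t ^ 2)) =
      -∫ t in (-Real.pi)..0, t * Real.exp (-(a * t ^ 2)) := by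
    rw [← intervalIntegral.integral_neg]
    refine intervalIntegral.integral_congr fun t ht => ?_
    rw [Set.uIcc_of_le (by linarith)] at ht
    have h2 : |t| = -t := abs_of_nonpos ht.2
    simp only [h2]
    ring
  have h2 : ∫ t in (0 : ℝ)..Real.pi, |t| * Real.exp (-(a * t ^ 2)) =
      ∫ t in (0 : ℝ)..Real.pi, t * Real.exp (-(a * t ^ 2)) := by
    refine intervalIntegral.integral_congr fun t ht => ?_
    rw [Set.uIcc_of_le hpi.le] at ht
    have h3 : |t| = t := abs_of_nonneg ht.1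
    simp only [h3]
  rw [h1, h2, intervalIntegral.integral_eq_sub_of_hasDerivAt (fun t _ => GI_deriv ha t)
    (hcj.intervalIntegrable _ _), intervalIntegral.integral_eq_sub_of_hasDerivAt
    (fun t _ => GI_deriv ha t) (hcj.intervalIntegrable _ _)]
  have h4 : 0 < Real.exp (-(a * Real.pi ^ 2)) := Real.exp_pos _
  have h5 : (-Real.pi) ^ 2 = Real.pi ^ 2 := by ring
  rw [h5]
  have h6 : Real.exp (-(a * (0 : ℝ) ^ 2)) = 1 := by simp
  rw [h6]
  have h7 : 1 / a = 1 / (2 * a) + 1 / (2 * a) := by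
    field_simp
    norm_num
  rw [h7]
  have h8 : 0 < Real.exp (-(a * Real.pi ^ 2)) / (2 * a) := by positivity
  linarith

private theorem GI_one {a : ℝ} (ha : 0 < a) :
    ∫ t in (-Real.pi)..Real.pi, Real.exp (-(a * t ^ 2)) ≤ √(Real.pi / a) := by
  have h1 := integral_gaussian a
  have h2 : (fun x : ℝ => Real.exp (-a * x ^ 2)) = fun x : ℝ => Real.exp (-(a * x ^ 2)) := by
    funext x
    rw [neg_mul]
  rw [h2] at h1
  rw [← h1, intervalIntegral.integral_of_le (by linarith [Real.pi_pos])]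
  have h3 := integrable_exp_neg_mul_sq ha
  rw [h2] at h3
  exact setIntegral_le_integral h3 (Filter.Eventually.of_forall fun x => (Real.exp_pos _).le)

theorem gauss_sqrt {S : ℝ} (hS : 0 < S) :
    ∫ t in (-Real.pi)..Real.pi, √|t| * Real.exp (-(S ^ 4 * t ^ 2 / 5)) ≤ 9 / 2 / S ^ 3 := by
  have ha : 0 < S ^ 4 / 5 := by positivity
  have hpi := Real.pi_pos
  obtain ⟨a, hae⟩ : ∃ a, a = S ^ 4 / 5 := ⟨_, rfl⟩
  have h0 : ∀ t : ℝ, S ^ 4 * t ^ 2 / 5 = a * t ^ 2 := fun t => by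
    rw [hae]
    ring
  rw [← hae] at ha
  simp only [h0]
  have hc := GI_cont a
  have hca : Continuous fun t : ℝ => |t| * Real.exp (-(a * t ^ 2)) := continuous_abs.mul hc
  have hl : Continuous fun t : ℝ => √|t| * Real.exp (-(a * t ^ 2)) :=
    (Real.continuous_sqrt.comp continuous_abs).mul hc
  have hr : Continuous fun t : ℝ => S / 2 * (|t| * Real.exp (-(a * t ^ 2))) +
      S⁻¹ / 2 * Real.exp (-(a * t ^ 2)) := (continuous_const.mul hca).add (continuous_const.mul hc)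
  have h1 : ∫ t in (-Real.pi)..Real.pi, √|t| * Real.exp (-(a * t ^ 2)) ≤
      ∫ t in (-Real.pi)..Real.pi, (S / 2 * (|t| * Real.exp (-(a * t ^ 2))) +
      S⁻¹ / 2 * Real.exp (-(a * t ^ 2))) := by
    refine intervalIntegral.integral_mono_on (by linarith) (hl.intervalIntegrable _ _)
      (hr.intervalIntegrable _ _) fun t _ => ?_
    have h2 := mul_le_mul_of_nonneg_right (GI_pt hS t) (Real.exp_pos (-(a * t ^ 2))).le
    refine h2.trans (le_of_eq ?_)
    ring
  refine h1.trans ?_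
  have hu : Continuous fun t : ℝ => S / 2 * (|t| * Real.exp (-(a * t ^ 2))) := continuous_const.mul hca
  have hv : Continuous fun t : ℝ => S⁻¹ / 2 * Real.exp (-(a * t ^ 2)) := continuous_const.mul hc
  rw [intervalIntegral.integral_add (hu.intervalIntegrable _ _)
    (hv.intervalIntegrable _ _), intervalIntegral.integral_const_mul,
    intervalIntegral.integral_const_mul]
  have h2 := mul_le_mul_of_nonneg_left (GI_abs ha) (show 0 ≤ S / 2 by positivity)
  have h3 := mul_le_mul_of_nonneg_left (GI_one ha) (show 0 ≤ S⁻¹ / 2 by positivity)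
  have h4 : √(Real.pi / a) ≤ 4 / S ^ 2 := by
    rw [Real.sqrt_le_left (by positivity), hae]
    have h5 : Real.pi ≤ 16 / 5 := by linarith [Real.pi_lt_d2]
    have h6 : (4 / S ^ 2) ^ 2 = 16 / 5 / (S ^ 4 / 5) := by
      field_simp
      norm_num
    rw [h6]
    exact div_le_div_of_nonneg_right h5 (by positivity)
  have h5 := mul_le_mul_of_nonneg_left h4 (show 0 ≤ S⁻¹ / 2 by positivity)
  have h6 : S / 2 * (1 / a) + S⁻¹ / 2 * (4 / S ^ 2) = 9 / 2 / S ^ 3 := by
    rw [hae]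
    field_simp
    norm_num
  rw [← h6]
  exact add_le_add h2 (h3.trans h5)

end Pool.Agent.Lib.MP_eeed5c_coM
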