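import Pool.Agent.Lib.MP_eeed5c_co_M.Defs

/-!
# The theorem of Heilmann and Lieb: no zeros in the slit plane

`mp_ne_zero`: the matching polynomial of a finite graph has no zero `z` in
`Complex.slitPlane` (the complement of the closed negative axis).
-/

set_option autoImplicit false

namespace Pool.Agent.Lib.MP_eeed5c_coM

open Finset Pool.Agent.Lib.MP_eeed5c_co Pool.Agent.Lib.MP_eeed5c_coT

variable {V : Type*} [Fintype V] {G : SimpleGraph V}

open scoped Classical in
theorem HLa_insert_Mt {N : Finset (Sym2 V)} (hN : N ∈ Mt G) {a b : V} (ha : a ∈ free N)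
    (hb : b ∈ free N) (hab : G.Adj a b) : insert s(a, b) N ∈ Mt G :=
  mats_sub_Mt (insert_mem_mats (mem_Mt.1 hN) ha hb hab)

open scoped Classical in
theorem HLa_erase_Mt {N : Finset (Sym2 V)} (hN : N ∈ Mt G) {e : Sym2 V} (he : e ∈ N) :
    N.erase e ∈ Mt G := by
  have hpos : 0 < N.card := Finset.card_pos.2 ⟨e, he⟩
  obtain ⟨k, hk⟩ : ∃ k, N.card = k + 1 := ⟨N.card - 1, by omega⟩
  have h := mem_Mt.1 hN
  rw [hk] at h
  exact mats_sub_Mt (erase_mem_mats h he)

open scoped Classical in
theorem HLa_part (z : ℂ) (S : Finset V) (v : V) (hv : v ∉ S) :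
    ∑ N ∈ (Mt G).filter (fun N => S ⊆ free N ∧ v ∉ free N), z ^ N.card =
      z * ∑ u ∈ univ.filter (fun u => G.Adj v u ∧ u ∉ S), ZC G z (insert u (insert v S)) := by
  unfold ZC
  rw [Finset.mul_sum]
  simp only [Finset.mul_sum]
  rw [Finset.sum_sigma']
  symm
  refine Finset.sum_bij (fun (x : (_ : V) × Finset (Sym2 V)) _ => insert s(v, x.1) x.2) ?_ ?_ ?_ ?_
  · rintro ⟨u, N⟩ h
    simp only [Finset.mem_sigma, Finset.mem_filter, Finset.mem_univ, true_and] at h ⊢
    obtain ⟨⟨hadj, huS⟩, hN, hsub⟩ := h
    have hu : u ∈ free N := hsub (Finset.mem_insert_self _ _)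
    have hv' : v ∈ free N := hsub (Finset.mem_insert_of_mem (Finset.mem_insert_self _ _))
    refine ⟨HLa_insert_Mt hN hv' hu hadj, ?_, ?_⟩
    · intro a ha
      rw [mem_free_insert]
      refine ⟨hsub (Finset.mem_insert_of_mem (Finset.mem_insert_of_mem ha)), ?_, ?_⟩
      · rintro rfl
        exact hv ha
      · rintro rfl
        exact huS ha
    · rw [mem_free_insert]
      rintro ⟨_, h, _⟩
      exact h rfl
  · rintro ⟨u, N⟩ h ⟨u', N'⟩ h' heq
    simp only [Finset.mem_sigma, Finset.mem_filter, Finset.mem_univ, true_and] at h h' heq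
    obtain ⟨⟨hadj, huS⟩, hN, hsub⟩ := h
    obtain ⟨⟨hadj', huS'⟩, hN', hsub'⟩ := h'
    have hvN : v ∈ free N := hsub (Finset.mem_insert_of_mem (Finset.mem_insert_self _ _))
    have hvN' : v ∈ free N' := hsub' (Finset.mem_insert_of_mem (Finset.mem_insert_self _ _))
    have hmem : s(v, u) ∈ insert s(v, u') N' := by
      rw [← heq]
      exact Finset.mem_insert_self _ _
    have hu : u = u' := by
      rw [Finset.mem_insert] at hmem
      rcases hmem with hmem | hmem
      · have h3 : u = u' ∨ v = u' ∧ u = v := by simpa using hmem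
        rcases h3 with h3 | ⟨h3, h4⟩
        · exact h3
        · rw [h4, h3]
      · exact absurd (Sym2.mem_mk_left v u) (mem_free.1 hvN' _ hmem)
    subst hu
    have e1 : s(v, u) ∉ N := fun h0 => mem_free.1 hvN _ h0 (Sym2.mem_mk_left v u)
    have e2 : s(v, u) ∉ N' := fun h0 => mem_free.1 hvN' _ h0 (Sym2.mem_mk_left v u)
    have hNN : N = N' := by
      rw [← Finset.erase_insert e1, heq, Finset.erase_insert e2]
    subst hNN
    rfl
  · intro M hM
    simp only [Finset.mem_filter] at hM
    obtain ⟨hM, hS, hvM⟩ := hM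
    rw [mem_free] at hvM
    simp only [not_forall, not_not] at hvM
    obtain ⟨e, he, hve⟩ := hvM
    have hee : s(v, Sym2.Mem.other hve) = e := Sym2.other_spec hve
    have hmem : s(v, Sym2.Mem.other hve) ∈ M := by rw [hee]; exact he
    have hadj : G.Adj v (Sym2.Mem.other hve) := edge_mem (mem_Mt.1 hM) hmem
    have huS : Sym2.Mem.other hve ∉ S := fun h0 =>
      mem_free.1 (hS h0) _ hmem (Sym2.mem_mk_right v _)
    have hfr := mem_free_erase (mem_Mt.1 hM) hmem
    refine ⟨⟨Sym2.Mem.other hve, M.erase s(v, Sym2.Mem.other hve)⟩, ?_, ?_⟩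
    · simp only [Finset.mem_sigma, Finset.mem_filter, Finset.mem_univ, true_and]
      refine ⟨⟨hadj, huS⟩, HLa_erase_Mt hM hmem, ?_⟩
      intro a ha
      rw [Finset.mem_insert, Finset.mem_insert] at ha
      rcases ha with rfl | rfl | ha
      · exact hfr.2
      · exact hfr.1
      · rw [mem_free]
        intro f hf
        exact mem_free.1 (hS ha) f (Finset.mem_of_mem_erase hf)
    · exact Finset.insert_erase hmem
  · rintro ⟨u, N⟩ h
    simp only [Finset.mem_sigma, Finset.mem_filter, Finset.mem_univ, true_and] at h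
    obtain ⟨⟨hadj, huS⟩, hN, hsub⟩ := h
    have hvN : v ∈ free N := hsub (Finset.mem_insert_of_mem (Finset.mem_insert_self _ _))
    have e1 : s(v, u) ∉ N := fun h0 => mem_free.1 hvN _ h0 (Sym2.mem_mk_left v u)
    rw [Finset.card_insert_of_notMem e1, pow_succ]
    ring

open scoped Classical in
/-- The recursion. -/
theorem HLa_rec (z : ℂ) (S : Finset V) (v : V) (hv : v ∉ S) :
    ZC G z S = ZC G z (insert v S) +
      z * ∑ u ∈ univ.filter (fun u => G.Adj v u ∧ u ∉ S), ZC G z (insert u (insert v S)) := by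
  rw [← HLa_part z S v hv]
  unfold ZC
  rw [← Finset.sum_filter_add_sum_filter_not ((Mt G).filter (fun N => S ⊆ free N))
    (fun N => v ∈ free N)]
  rw [Finset.filter_filter, Finset.filter_filter]
  have h1 : (Mt G).filter (fun N => S ⊆ free N ∧ v ∈ free N) =
      (Mt G).filter (fun N => insert v S ⊆ free N) := by
    refine Finset.filter_congr fun N _ => ?_
    rw [Finset.insert_subset_iff]
    exact and_comm
  rw [h1]

theorem HLa_univ (z : ℂ) : ZC G z univ = 1 := by
  classical
  unfold ZC
  have h1 : (Mt G).filter (fun N => univ ⊆ free N) = {∅} := by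
    ext N
    rw [Finset.mem_filter, Finset.mem_singleton]
    constructor
    · rintro ⟨_, h⟩
      rw [Finset.eq_empty_iff_forall_notMem]
      intro e he
      induction e using Sym2.ind with
      | _ a b => exact mem_free.1 (h (Finset.mem_univ a)) _ he (Sym2.mem_mk_left a b)
    · rintro rfl
      refine ⟨?_, ?_⟩
      · rw [mem_Mt, mem_mats]
        simp
      · intro a _
        rw [mem_free]
        intro e he
        exact absurd he (Finset.notMem_empty e)
  rw [h1, Finset.sum_singleton, Finset.card_empty, pow_zero]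

theorem HLa_root {z : ℂ} (hz : z ∈ Complex.slitPlane) : ∃ w : ℂ, 0 < w.re ∧ w * z = w⁻¹ := by
  refine ⟨Complex.exp (-(1 / 2) * Complex.log z), ?_, ?_⟩
  · rw [Complex.exp_re]
    refine mul_pos (Real.exp_pos _) (Real.cos_pos_of_mem_Ioo ?_)
    have h1 : (-(1 / 2) * Complex.log z).im = -(1 / 2) * z.arg := by
      rw [Complex.mul_im, Complex.log_im]
      simp
    have h2 := Complex.neg_pi_lt_arg z
    have h3 := Complex.arg_le_pi z
    have h4 : z.arg ≠ Real.pi := (Complex.mem_slitPlane_iff_arg.1 hz).1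
    have h5 : z.arg < Real.pi := lt_of_le_of_ne h3 h4
    rw [h1]
    constructor <;> linarith
  · have hz0 : z ≠ 0 := Complex.slitPlane_ne_zero hz
    rw [← Complex.exp_neg]
    nth_rewrite 2 [← Complex.exp_log hz0]
    rw [← Complex.exp_add]
    congr 1
    ring

theorem HLa_inv_re {a : ℂ} (h : 0 < a.re) : 0 < (a⁻¹).re := by
  rw [Complex.inv_re]
  refine div_pos h (Complex.normSq_pos.2 ?_)
  intro h0
  rw [h0] at h
  simp at h

theorem HLa_ind {z w : ℂ} (hw : 0 < w.re) (hwz : w * z = w⁻¹) : ∀ (n : ℕ) (S : Finset V),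
    Fintype.card V ≤ S.card + n → ZC G z S ≠ 0 ∧
      ∀ v, v ∉ S → 0 < (w * ZC G z S / ZC G z (by classical exact insert v S)).re := by
  classical
  intro n
  induction n with
  | zero =>
    intro S hS
    have hSu : S = univ := by
      rw [← Finset.card_eq_iff_eq_univ]
      exact le_antisymm (Finset.card_le_univ S) (by omega)
    subst hSu
    refine ⟨?_, fun v hv => absurd (Finset.mem_univ v) hv⟩
    rw [HLa_univ]
    exact one_ne_zero
  | succ n ih =>
    intro S hS
    have key : ∀ v, v ∉ S → 0 < (w * ZC G z S / ZC G z (insert v S)).re := by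
      intro v hv
      have hS' : Fintype.card V ≤ (insert v S).card + n := by
        rw [Finset.card_insert_of_notMem hv]
        omega
      obtain ⟨h0, h1⟩ := ih (insert v S) hS'
      have h2 : w * ZC G z S / ZC G z (insert v S) = w +
          ∑ u ∈ univ.filter (fun u => G.Adj v u ∧ u ∉ S),
            (w * ZC G z (insert v S) / ZC G z (insert u (insert v S)))⁻¹ := by
        rw [HLa_rec z S v hv, mul_add, add_div, mul_div_assoc, div_self h0, mul_one]
        congr 1
        rw [← mul_assoc, hwz, Finset.mul_sum, Finset.sum_div]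
        refine Finset.sum_congr rfl fun u _ => ?_
        rw [inv_div, div_eq_mul_inv, div_eq_mul_inv, mul_inv]
        ring
      rw [h2, Complex.add_re, Complex.re_sum]
      have h3 : 0 ≤ ∑ u ∈ univ.filter (fun u => G.Adj v u ∧ u ∉ S),
          ((w * ZC G z (insert v S) / ZC G z (insert u (insert v S)))⁻¹).re := by
        refine Finset.sum_nonneg fun u hu => ?_
        rw [Finset.mem_filter] at hu
        refine le_of_lt (HLa_inv_re (h1 u ?_))
        rw [Finset.mem_insert, not_or]
        exact ⟨hu.2.1.ne', hu.2.2⟩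
      linarith
    refine ⟨?_, key⟩
    by_cases hSu : S = univ
    · rw [hSu, HLa_univ]
      exact one_ne_zero
    · obtain ⟨v, hv⟩ : ∃ v, v ∉ S := by
        by_contra h
        push Not at h
        exact hSu (Finset.eq_univ_of_forall h)
      intro h0
      have h1 := key v hv
      rw [h0, mul_zero, zero_div] at h1
      simp at h1

theorem HLa_empty (z : ℂ) : ZC G z ∅ = Polynomial.aeval z (mp G) := by
  classical
  have h1 : Mt G = (range (Fintype.card V + 1)).biUnion fun i => mats G i := by
    ext N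
    rw [Finset.mem_biUnion]
    constructor
    · intro h
      refine ⟨N.card, ?_, mem_Mt.1 h⟩
      have := card_le_of_mem h
      rw [Finset.mem_range]; omega
    · rintro ⟨i, _, h⟩
      exact mats_sub_Mt h
  unfold ZC mp
  have h2 : (Mt G).filter (fun N => (∅ : Finset V) ⊆ free N) = Mt G :=
    Finset.filter_true_of_mem fun N _ => Finset.empty_subset _
  rw [h2, h1, Finset.sum_biUnion, map_sum]
  · refine Finset.sum_congr rfl fun i _ => ?_
    rw [Polynomial.aeval_monomial]
    have h3 : ∀ N ∈ mats G i, z ^ N.card = z ^ i := by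
      intro N hN
      rw [(mem_mats.1 hN).2.1]
    rw [Finset.sum_congr rfl h3, Finset.sum_const, nsmul_eq_mul]
    simp
  · intro i _ j _ hij
    rw [Function.onFun, Finset.disjoint_left]
    intro N h1 h2
    exact hij ((mem_mats.1 h1).2.1.symm.trans (mem_mats.1 h2).2.1)

theorem mp_ne_zero {z : ℂ} (hz : z ∈ Complex.slitPlane) : Polynomial.aeval z (mp G) ≠ 0 := by
  obtain ⟨w, hw, hwz⟩ := HLa_root hz
  rw [← HLa_empty]
  exact (HLa_ind hw hwz (Fintype.card V) ∅ (by omega)).1

end Pool.Agent.Lib.MP_eeed5c_coM
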