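import Pool.Agent.Lib.MP_eeed5c_co_M.PW
import Pool.Agent.Lib.MP_eeed5c_co_M.FI
import Pool.Agent.Lib.MP_eeed5c_co_M.GI

/-!
# The difference of the coefficients

PROOF. Let `f t = aeval (pt x t) (rp (sP + sT))`, `g t` similarly with `sQ`, `e t = exp (-(N t I))`, of
absolute value 1. By `coeff_integral`, `∫ (exp(-δ) f - g) e = 2 π (exp(-δ) P_N - Q_N) x^N`, a real
number; its absolute value is at most
`∫ ‖exp(-δ) f - g‖ ≤ (1 - exp(-δ)) A 9 L ∫ √|t| exp(-(V t^2/5)) + 4 π A ε`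
(`pointwise`, `intervalIntegral.norm_integral_le_of_norm_le` or similar), and
`∫ √|t| exp (-(V t^2/5)) ≤ 4.5 / S^3` (`gauss_sqrt` with `S^4 = V`). So
`2 π (P_N - Q_N) x^N = (1 - exp(-δ)) 2 π P_N x^N + 2 π (exp(-δ) P_N - Q_N) x^N ≥
(1 - exp(-δ)) (2 π P_N x^N - 41 A L / S^3) - 13 A ε`, because `40.5 ≤ 41`, `4 π ≤ 13`.
-/

set_option autoImplicit false

namespace Pool.Agent.Lib.MP_eeed5c_coM

open Finset Pool.Agent.Lib.MP_eeed5c_co Pool.Agent.Lib.MP_eeed5c_coT

theorem coeff_diff {sP sQ sT : Multiset ℝ} (hP : Nn sP) (hQ : Nn sQ) (hT : Nn sT)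
    {x δ B L S : ℝ} (hx : 0 < x)
    (hδ : δ = Real.log ((rp sP).eval x) - Real.log ((rp sQ).eval x)) (hδ0 : 0 < δ)
    (hmono : ∀ y, 0 < y → y ≤ x →
      0 ≤ Real.log ((rp sP).eval y) - Real.log ((rp sQ).eval y) ∧
      Real.log ((rp sP).eval y) - Real.log ((rp sQ).eval y) ≤ δ)
    (hmean : ∀ y, 0 < y → mean sQ y ≤ mean sP y)
    (hle : ∀ y, 0 < y → (rp sQ).eval y ≤ (rp sP).eval y)
    (hB : Real.log ((rp sP).eval (2 * x)) + Real.log ((rp sQ).eval (2 * x)) +
      2 * Multiset.card sP + 2 * Multiset.card sQ + δ ≤ B)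
    (hL : L = Real.log (B / δ)) (hL1 : 1 ≤ L) (hS : 0 < S) (hSV : S ^ 4 = var (sP + sT) x)
    (N : ℕ) :
    (1 - Real.exp (-δ)) * (2 * Real.pi * ((rp (sP + sT)).coeff N * x ^ N) -
        41 * (rp (sP + sT)).eval x * L / S ^ 3) -
      13 * (rp (sP + sT)).eval x *
        Real.exp (-(var (sP + sT) x * (1 / (324 * L ^ 2)) ^ 2 / 120)) ≤
    2 * Real.pi * (((rp (sP + sT)).coeff N - (rp (sQ + sT)).coeff N) * x ^ N) := by
  have hpi : -Real.pi ≤ Real.pi := by linarith [Real.pi_pos]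
  have hPcont := continuous_aeval_pt (rp (sP + sT)) x N
  have hQcont := continuous_aeval_pt (rp (sQ + sT)) x N
  have hPint := coeff_integral (rp (sP + sT)) hx N
  have hQint := coeff_integral (rp (sQ + sT)) hx N
  have hA0 : 0 < (rp (sP + sT)).eval x := lt_of_lt_of_le one_pos (one_le_rp (Nn_add hP hT) hx.le)
  have hδ1 : 0 ≤ 1 - Real.exp (-δ) := by
    have : Real.exp (-δ) ≤ 1 := Real.exp_le_one_iff.mpr (by linarith)
    linarith
  -- the integral of the difference
  have hdiff : ∫ t in (-Real.pi)..Real.pi,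
      ((Real.exp (-δ) : ℂ) * (Polynomial.aeval (pt x t) (rp (sP + sT)) *
          Complex.exp (-(N * t * Complex.I))) -
        Polynomial.aeval (pt x t) (rp (sQ + sT)) * Complex.exp (-(N * t * Complex.I))) =
      ((Real.exp (-δ) * (2 * Real.pi * ((rp (sP + sT)).coeff N * x ^ N)) -
        2 * Real.pi * ((rp (sQ + sT)).coeff N * x ^ N) : ℝ) : ℂ) := by
    rw [intervalIntegral.integral_sub, intervalIntegral.integral_const_mul, hPint, hQint]
    · push_cast
      ring
    · exact (continuous_const.mul hPcont).intervalIntegrable _ _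
    · exact hQcont.intervalIntegrable _ _
  -- the bound for the integrand
  have hexp : ∀ t : ℝ, ‖Complex.exp (-(N * t * Complex.I))‖ = 1 := by
    intro t
    have e1 : (-(N * t * Complex.I) : ℂ) = ((-(N * t) : ℝ) : ℂ) * Complex.I := by
      push_cast
      ring
    rw [e1, Complex.norm_exp_ofReal_mul_I]
  obtain ⟨K1, hK1⟩ : ∃ K1, K1 = (1 - Real.exp (-δ)) * ((rp (sP + sT)).eval x * (9 * L)) := ⟨_, rfl⟩
  obtain ⟨K2, hK2⟩ : ∃ K2, K2 = 2 * (rp (sP + sT)).eval x *
        Real.exp (-(var (sP + sT) x * (1 / (324 * L ^ 2)) ^ 2 / 120)) := ⟨_, rfl⟩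
  have hbd : ∀ t ∈ Set.Ioc (-Real.pi) Real.pi,
      ‖(Real.exp (-δ) : ℂ) * (Polynomial.aeval (pt x t) (rp (sP + sT)) *
          Complex.exp (-(N * t * Complex.I))) -
        Polynomial.aeval (pt x t) (rp (sQ + sT)) * Complex.exp (-(N * t * Complex.I))‖ ≤
      K1 * (√|t| * Real.exp (-(S ^ 4 * t ^ 2 / 5))) + K2 := by
    intro t ht
    have hta : |t| ≤ Real.pi := abs_le.mpr ⟨ht.1.le, ht.2⟩
    have h := pointwise hP hQ hT hx hδ hδ0 hmono hmean hle hB hL hL1 hta
    rw [hK1, hK2, hSV]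
    refine le_trans (le_of_eq ?_) h
    have e2 : (Real.exp (-δ) : ℂ) * (Polynomial.aeval (pt x t) (rp (sP + sT)) *
          Complex.exp (-(N * t * Complex.I))) -
        Polynomial.aeval (pt x t) (rp (sQ + sT)) * Complex.exp (-(N * t * Complex.I)) =
        ((Real.exp (-δ) : ℂ) * Polynomial.aeval (pt x t) (rp (sP + sT)) -
          Polynomial.aeval (pt x t) (rp (sQ + sT))) * Complex.exp (-(N * t * Complex.I)) := by
      ring
    rw [e2, norm_mul, hexp t, mul_one]
  have hGc : Continuous fun t : ℝ => √|t| * Real.exp (-(S ^ 4 * t ^ 2 / 5)) := by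
    fun_prop
  have hnorm := intervalIntegral.norm_integral_le_of_norm_le hpi
    (Filter.Eventually.of_forall hbd : ∀ᵐ t, t ∈ Set.Ioc (-Real.pi) Real.pi → _)
    (((continuous_const.mul hGc).add continuous_const).intervalIntegrable (-Real.pi) Real.pi)
  rw [hdiff, Complex.norm_real] at hnorm
  have hGint : ∫ t in (-Real.pi)..Real.pi, (K1 * (√|t| * Real.exp (-(S ^ 4 * t ^ 2 / 5))) + K2) =
      K1 * (∫ t in (-Real.pi)..Real.pi, √|t| * Real.exp (-(S ^ 4 * t ^ 2 / 5))) +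
        2 * Real.pi * K2 := by
    rw [intervalIntegral.integral_add, intervalIntegral.integral_const_mul,
      intervalIntegral.integral_const]
    · rw [smul_eq_mul]
      ring
    · exact (continuous_const.mul hGc).intervalIntegrable _ _
    · exact continuous_const.intervalIntegrable _ _
  rw [hGint] at hnorm
  have hg := gauss_sqrt hS
  have hK10 : 0 ≤ K1 := by
    rw [hK1]
    exact mul_nonneg hδ1 (by positivity)
  have hK20 : 0 ≤ K2 := by
    rw [hK2]
    positivity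
  have h1 := mul_le_mul_of_nonneg_left hg hK10
  have h2 : K1 * (9 / 2 / S ^ 3) ≤
      (1 - Real.exp (-δ)) * (41 * (rp (sP + sT)).eval x * L / S ^ 3) := by
    have e3 : K1 * (9 / 2 / S ^ 3) =
        (1 - Real.exp (-δ)) * (((81 / 2 : ℝ) * ((rp (sP + sT)).eval x * L)) / S ^ 3) := by
      rw [hK1]
      ring
    have e4 : (81 / 2 : ℝ) * ((rp (sP + sT)).eval x * L) ≤ 41 * (rp (sP + sT)).eval x * L := by
      have : 0 ≤ (rp (sP + sT)).eval x * L := by positivity
      linarith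
    rw [e3]
    apply mul_le_mul_of_nonneg_left _ hδ1
    exact div_le_div_of_nonneg_right e4 (by positivity)
  have h3 : 2 * Real.pi * K2 ≤ 13 * (rp (sP + sT)).eval x *
        Real.exp (-(var (sP + sT) x * (1 / (324 * L ^ 2)) ^ 2 / 120)) := by
    have e5 : 2 * Real.pi * K2 ≤ 13 / 2 * K2 := by
      apply mul_le_mul_of_nonneg_right _ hK20
      linarith [Real.pi_lt_d2]
    refine e5.trans (le_of_eq ?_)
    rw [hK2]
    ring
  have h4 := (abs_le.mp (hnorm : |_| ≤ _)).1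
  have h5 : 2 * Real.pi * (((rp (sP + sT)).coeff N - (rp (sQ + sT)).coeff N) * x ^ N) =
      (1 - Real.exp (-δ)) * (2 * Real.pi * ((rp (sP + sT)).coeff N * x ^ N)) +
      (Real.exp (-δ) * (2 * Real.pi * ((rp (sP + sT)).coeff N * x ^ N)) -
        2 * Real.pi * ((rp (sQ + sT)).coeff N * x ^ N)) := by
    ring
  rw [h5, mul_sub]
  linarith

end Pool.Agent.Lib.MP_eeed5c_coM
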