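import Pool.Agent.Lib.MP_eeed5c_co_M.Defs
import Pool.Agent.Lib.MP_eeed5c_co_T.PA

/-!
# The radius

`T_grow` and `T_bound` are the bounds `T_low` and `T_up` of the library, `R_le` and `R_ge` their consequences.
`Lp_le`: `ell r j = C(r,j)^2 j! ≤ C(r,j) r^j` and the binomial theorem.
-/

set_option autoImplicit false

namespace Pool.Agent.Lib.MP_eeed5c_coM

open Finset Pool.Agent.Lib.MP_eeed5c_co Pool.Agent.Lib.MP_eeed5c_coT

theorem T_grow {r t m : ℕ} (hm : m < t * r) : T r t m ≤ ((m : ℝ) + 1) * T r t (m + 1) := by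
  have h1 := T_low r t m
  have h2 : (1 : ℝ) ≤ (t : ℝ) * r - m := by
    have h3 : ((m + 1 : ℕ) : ℝ) ≤ ((t * r : ℕ) : ℝ) := by exact_mod_cast hm
    push_cast at h3
    linarith
  exact (le_mul_of_one_le_left (T_nonneg _ _ _) h2).trans h1

theorem T_bound (r t m : ℕ) : ((m : ℝ) + 1) * T r t (m + 1) ≤ t * (r : ℝ) ^ 2 * T r t m := T_up r t m

theorem R_le {r q N : ℕ} (hN1 : 1 ≤ N) (hN : N ≤ q * r) :
    T r q (N - 1) / T r q N ≤ (q : ℝ) * r := by
  have h1 := T_grow (r := r) (t := q) (m := N - 1) (by omega)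
  have h2 : ((N - 1 : ℕ) : ℝ) + 1 = N := by
    rw [Nat.cast_sub hN1]
    push_cast
    ring
  rw [Nat.sub_add_cancel hN1, h2] at h1
  have h3 : (N : ℝ) ≤ (q : ℝ) * r := by exact_mod_cast hN
  rw [div_le_iff₀ (T_pos hN)]
  exact h1.trans (mul_le_mul_of_nonneg_right h3 (T_nonneg _ _ _))

theorem R_ge {r q N : ℕ} (hr : 1 ≤ r) (hN1 : 1 ≤ N) (hN : N ≤ q * r) (h6 : q * r ≤ 6 * N) :
    1 / (12 * (r : ℝ)) ≤ T r q (N - 1) / T r q N := by
  have h1 := T_bound r q (N - 1)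
  have h2 : ((N - 1 : ℕ) : ℝ) + 1 = N := by
    rw [Nat.cast_sub hN1]
    push_cast
    ring
  rw [Nat.sub_add_cancel hN1, h2] at h1
  have hr0 : (0 : ℝ) < r := by exact_mod_cast hr
  have h3 : (q : ℝ) * r ≤ 6 * N := by exact_mod_cast h6
  have hN0 : (0 : ℝ) < N := by exact_mod_cast hN1
  have hT0 : 0 ≤ T r q (N - 1) := T_nonneg _ _ _
  have hT : 0 < T r q N := T_pos hN
  rw [div_le_div_iff₀ (by positivity) hT, one_mul]
  have h4 : (q : ℝ) * (r : ℝ) ^ 2 * T r q (N - 1) ≤ 6 * N * (r * T r q (N - 1)) := by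
    have h5 : (q : ℝ) * (r : ℝ) ^ 2 * T r q (N - 1) = ((q : ℝ) * r) * (r * T r q (N - 1)) := by ring
    rw [h5]
    exact mul_le_mul_of_nonneg_right h3 (mul_nonneg hr0.le hT0)
  have h6' : (N : ℝ) * T r q N ≤ N * (6 * (r * T r q (N - 1))) := by linarith
  have h7 := le_of_mul_le_mul_left h6' hN0
  have h8 : 0 ≤ r * T r q (N - 1) := mul_nonneg hr0.le hT0
  linarith

theorem RB_ell (r j : ℕ) : ell r j ≤ (r.choose j : ℝ) * (r : ℝ) ^ j := by
  unfold ell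
  have h1 : (r.choose j : ℝ) * (j.factorial : ℝ) ≤ (r : ℝ) ^ j := by
    have h2 : r.choose j * j.factorial = r.descFactorial j := by
      rw [Nat.descFactorial_eq_factorial_mul_choose, mul_comm]
    have h3 : r.choose j * j.factorial ≤ r ^ j := h2 ▸ Nat.descFactorial_le_pow r j
    exact_mod_cast h3
  have h4 : (r.choose j : ℝ) ^ 2 * (j.factorial : ℝ) =
      (r.choose j : ℝ) * ((r.choose j : ℝ) * (j.factorial : ℝ)) := by ring
  rw [h4]
  exact mul_le_mul_of_nonneg_left h1 (Nat.cast_nonneg _)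

theorem Lp_le (r : ℕ) {x : ℝ} (hx : 0 ≤ x) : (Lp r).eval x ≤ (1 + r * x) ^ r := by
  rw [Lp_eval, add_comm (1 : ℝ), add_pow]
  refine Finset.sum_le_sum fun j _ => ?_
  rw [one_pow, mul_one, mul_pow]
  calc ell r j * x ^ j ≤ ((r.choose j : ℝ) * (r : ℝ) ^ j) * x ^ j :=
        mul_le_mul_of_nonneg_right (RB_ell r j) (pow_nonneg hx _)
    _ = (r : ℝ) ^ j * x ^ j * (r.choose j : ℝ) := by ring

end Pool.Agent.Lib.MP_eeed5c_coM
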