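import Pool.Agent.Lib.MP_eeed5c_co_M.VB
import Pool.Agent.Lib.MP_eeed5c_co_M.RB

/-!
# Lower bounds for the coefficient and for the variance

Notation: `x = T r q (N - 1) / T r q N`, `A = (Lp r).eval x ^ q = ∑ T r q i x^i`, `Vr = q * vb r x`,
`m = q * mb r x`. `max_term` (in `CA.lean` of the old library): `T r q j x^j ≤ T r q N x^N` for all `j`.
`low_T`: PROOF. `sum_sq` (in `WA.lean`) with `y = m` gives `∑ T r q i x^i (i - m)^2 = A Vr`. If
`Vr = 0` then all terms with `i ≠ m` vanish, so `A ≤` one term `≤ T r q N x^N`. If `Vr > 0`: the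
terms with `(i - m)^2 ≥ 4 Vr` have sum at most `A / 4`, so the terms with `|i - m| < 2 √Vr` have sum
at least `3 A / 4`; there are at most `4 √Vr + 1` such integers `i` (they lie in an open interval of
length `4 √Vr`; e.g. `Finset.card` of a set of naturals between `⌈m - 2√Vr⌉₊` and `⌊m + 2√Vr⌋₊`), and each
term is at most `T r q N x^N`.
`V_low`: PROOF. Let `s` be the multiset of `Lp_rp`. `4 Vr ≥ min m (q r - m) =: a` (`min_le_var`,
`mb_eq`, `vb_eq`, multiplied by `q`), and `Vr ≤ a` (`var_le_mean`, `var_le_card`, `card ≤ r`).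
Suppose `a < b / 4`. Then `|N - m| ≥ 3 b / 4` (if `m = a < b/4 ≤ N/4`, then `N - m ≥ 3 b / 4`; if
`q r - m = a < b / 4`, then `m - N = (q r - N) - (q r - m) ≥ b - b/4`). One term of `sum_sq`:
`T r q N x^N (N - m)^2 ≤ A Vr ≤ A a < A b / 4`, and `low_T` with `Vr ≤ a < b/4` gives
`T r q N x^N ≥ (3/4) A / (2 √b + 1)`. So `(9/16) b^2 (3/4) < (b/4) (2 √b + 1)`, i.e.
`(27/16) b < 2 √b + 1`, false for `b ≥ 3` (`√b ≤ (b + 3)/ (2 √3) ` or `nlinarith` with
`Real.sq_sqrt`). So `a ≥ b / 4` and `Vr ≥ a / 4 ≥ b / 16`.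
-/

set_option autoImplicit false

namespace Pool.Agent.Lib.MP_eeed5c_coM

open Finset Pool.Agent.Lib.MP_eeed5c_co Pool.Agent.Lib.MP_eeed5c_coT

theorem LB_x {r q N : ℕ} (hN : N ≤ q * r) {x : ℝ} (hx : x = T r q (N - 1) / T r q N) : 0 < x := by
  rw [hx]
  exact div_pos (T_pos (by omega)) (T_pos hN)

theorem LB_card {F : Finset ℕ} {m c : ℝ} (hc : 0 ≤ c) (hF : ∀ i ∈ F, |(i : ℝ) - m| < c) : (F.card : ℝ) ≤ 2 * c + 1 := by
  rcases F.eq_empty_or_nonempty with h | h
  · rw [h, Finset.card_empty, Nat.cast_zero]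
    linarith
  · have h1 : F ⊆ Finset.Icc (F.min' h) (F.max' h) := fun i hi =>
      Finset.mem_Icc.2 ⟨F.min'_le i hi, F.le_max' i hi⟩
    have h2 := Finset.card_le_card h1
    rw [Nat.card_Icc] at h2
    have h3 := abs_lt.1 (hF _ (F.min'_mem h))
    have h4 := abs_lt.1 (hF _ (F.max'_mem h))
    have h5 : F.min' h ≤ F.max' h := F.min'_le_max' h
    have h6 : (F.card : ℝ) ≤ ((F.max' h + 1 - F.min' h : ℕ) : ℝ) := by exact_mod_cast h2
    rw [Nat.cast_sub (by omega)] at h6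
    push_cast at h6
    linarith [h3.1, h4.2]

theorem low_T {r q N : ℕ} (hr : 1 ≤ r) (hN1 : 1 ≤ N) (hN : N ≤ q * r) {x : ℝ}
    (hx : x = T r q (N - 1) / T r q N) :
    3 / 4 * (Lp r).eval x ^ q ≤ (4 * √(q * vb r x) + 1) * (T r q N * x ^ N) := by
  have hx0 := LB_x hN hx
  set A := (Lp r).eval x ^ q with hA
  set V := (q : ℝ) * vb r x with hV
  have h1 : ∑ i ∈ range (q * r + 1), T r q i * x ^ i = A := (Lp_pow_eval r q x).symm
  have h2 := sum_sq r q hx0 (q * mb r x)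
  rw [sub_self, zero_pow two_ne_zero, add_zero, ← hA, ← hV] at h2
  have hpos : ∀ i ∈ range (q * r + 1), 0 < T r q i * x ^ i := fun i hi =>
    mul_pos (T_pos (by rw [Finset.mem_range] at hi; omega)) (pow_pos hx0 _)
  have hA0 : 0 < A := by
    rw [← h1]
    exact Finset.sum_pos hpos ⟨0, Finset.mem_range.2 (by omega)⟩
  have hVpos : 0 < V := by
    by_contra hcon
    push Not at hcon
    have h3 : ∑ i ∈ range (q * r + 1), T r q i * x ^ i * ((i : ℝ) - q * mb r x) ^ 2 ≤ 0 := by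
      rw [h2]
      exact mul_nonpos_of_nonneg_of_nonpos hA0.le hcon
    have h4 : ∀ i ∈ range (q * r + 1), 0 ≤ T r q i * x ^ i * ((i : ℝ) - q * mb r x) ^ 2 := fun i hi =>
      mul_nonneg (hpos i hi).le (sq_nonneg _)
    have h5 := (Finset.sum_eq_zero_iff_of_nonneg h4).1 (le_antisymm h3 (Finset.sum_nonneg h4))
    have h6 : ∀ i ∈ range (q * r + 1), (i : ℝ) = q * mb r x := by
      intro i hi
      have h7 := (mul_eq_zero.1 (h5 i hi)).resolve_left (hpos i hi).ne'
      exact sub_eq_zero.1 ((pow_eq_zero_iff two_ne_zero).1 h7)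
    have h8 := h6 0 (Finset.mem_range.2 (by omega))
    have h9 := h6 1 (Finset.mem_range.2 (by omega))
    rw [← h9] at h8
    norm_num at h8
  have hs : √V ^ 2 = V := Real.sq_sqrt hVpos.le
  have hs0 : 0 < √V := Real.sqrt_pos.2 hVpos
  set F := (range (q * r + 1)).filter fun i : ℕ => |(i : ℝ) - q * mb r x| < 2 * √V with hF
  have h10 := Finset.sum_filter_add_sum_filter_not (range (q * r + 1))
    (fun i : ℕ => |(i : ℝ) - q * mb r x| < 2 * √V) (fun i => T r q i * x ^ i)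
  rw [← hF, h1] at h10
  have h11 : ∑ i ∈ (range (q * r + 1)).filter (fun i : ℕ => ¬ |(i : ℝ) - q * mb r x| < 2 * √V), T r q i * x ^ i * (4 * V) ≤
      A * V := by
    rw [← h2]
    refine le_trans (Finset.sum_le_sum fun i hi => ?_) (Finset.sum_le_sum_of_subset_of_nonneg (Finset.filter_subset _ _)
      fun i hi _ => mul_nonneg (hpos i hi).le (sq_nonneg _))
    rw [Finset.mem_filter] at hi
    refine mul_le_mul_of_nonneg_left ?_ (hpos i hi.1).le
    have h12 := not_lt.1 hi.2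
    rw [← sq_abs ((i : ℝ) - q * mb r x)]
    nlinarith [hs, hs0, h12]
  rw [← Finset.sum_mul] at h11
  have h13 : ∑ i ∈ (range (q * r + 1)).filter (fun i : ℕ => ¬ |(i : ℝ) - q * mb r x| < 2 * √V), T r q i * x ^ i ≤
      A / 4 := by
    have h14 : (∑ i ∈ (range (q * r + 1)).filter (fun i : ℕ => ¬ |(i : ℝ) - q * mb r x| < 2 * √V), T r q i * x ^ i) *
        V ≤ (A / 4) * V := by linarith
    exact le_of_mul_le_mul_right h14 hVpos
  have h15 : ∑ i ∈ F, T r q i * x ^ i ≤ (F.card : ℝ) * (T r q N * x ^ N) := by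
    rw [← nsmul_eq_mul]
    refine Finset.sum_le_card_nsmul _ _ _ fun i _ => ?_
    rw [hx]
    exact max_term hN1 hN i
  have h16 : (F.card : ℝ) ≤ 2 * (2 * √V) + 1 := LB_card (by positivity) fun i hi => (Finset.mem_filter.1 hi).2
  have h17 : 0 < T r q N * x ^ N := mul_pos (T_pos hN) (pow_pos hx0 _)
  have h18 : (F.card : ℝ) * (T r q N * x ^ N) ≤ (4 * √V + 1) * (T r q N * x ^ N) :=
    mul_le_mul_of_nonneg_right (by linarith) h17.le
  linarith

theorem V_low {r q N : ℕ} {s : Multiset ℝ} (hs : Nn s) (hL : Lp r = rp s)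
    (hc : Multiset.card s ≤ r) (hr : 1 ≤ r) (hN1 : 1 ≤ N) (hN : N ≤ q * r) {x : ℝ}
    (hx : x = T r q (N - 1) / T r q N) {b : ℝ} (hb3 : 3 ≤ b) (hbN : b ≤ N)
    (hbd : b ≤ (q : ℝ) * r - N) : b / 16 ≤ q * vb r x := by
  have hx0 := LB_x hN hx
  have hlow := low_T hr hN1 hN hx
  have hq : (0 : ℝ) ≤ q := Nat.cast_nonneg q
  have e1 := mb_eq hs hL hx0
  have e2 := vb_eq hs hL hx0
  have h1 := min_le_var hs hL hx0
  have h2 := var_le_mean hs hx0.le
  have h3 := var_le_card hs hx0.le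
  have h4 : (Multiset.card s : ℝ) ≤ r := by exact_mod_cast hc
  have hsum := sum_sq r q hx0 (q * mb r x)
  rw [sub_self, zero_pow two_ne_zero, add_zero] at hsum
  rw [e2] at hlow hsum ⊢
  rw [e1] at hsum
  set M := mean s x
  set V := var s x
  set A := (Lp r).eval x ^ q with hA
  have hV0 : 0 ≤ V := var_nonneg hs hx0.le
  have hpos : ∀ i ∈ range (q * r + 1), 0 < T r q i * x ^ i := fun i hi =>
    mul_pos (T_pos (by rw [Finset.mem_range] at hi; omega)) (pow_pos hx0 _)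
  have hA0 : 0 < A := by
    rw [hA, Lp_pow_eval]
    exact Finset.sum_pos hpos ⟨0, Finset.mem_range.2 (by omega)⟩
  have hmemN : N ∈ range (q * r + 1) := Finset.mem_range.2 (by omega)
  have htN := hpos N hmemN
  have hterm : T r q N * x ^ N * ((N : ℝ) - q * M) ^ 2 ≤ A * (q * V) := by
    rw [← hsum]
    exact Finset.single_le_sum (f := fun i => T r q i * x ^ i * ((i : ℝ) - q * M) ^ 2)
      (fun i hi => mul_nonneg (hpos i hi).le (sq_nonneg _)) hmemN
  by_contra hcon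
  push Not at hcon
  have hm : q * min M ((r : ℝ) - M) < b / 4 := by
    have := mul_le_mul_of_nonneg_left h1 hq
    linarith
  have hVa : q * V ≤ q * min M ((r : ℝ) - M) := mul_le_mul_of_nonneg_left (le_min h2 (by linarith)) hq
  have hVb : q * V < b / 4 := lt_of_le_of_lt hVa hm
  have hsq : 9 / 16 * b ^ 2 ≤ ((N : ℝ) - q * M) ^ 2 := by
    rcases min_cases M ((r : ℝ) - M) with ⟨h5, -⟩ | ⟨h5, -⟩
    · rw [h5] at hm
      have h6 : 3 / 4 * b ≤ (N : ℝ) - q * M := by linarith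
      nlinarith
    · rw [h5, mul_sub] at hm
      have h6 : 3 / 4 * b ≤ q * M - N := by linarith
      nlinarith
  have hroot : √(q * V) ≤ √b / 2 := by
    rw [Real.sqrt_le_left (by positivity), div_pow, Real.sq_sqrt (by linarith)]
    linarith
  have hrb : √b ^ 2 = b := Real.sq_sqrt (by linarith)
  have hrb0 : 0 ≤ √b := Real.sqrt_nonneg b
  have h7 : 3 / 4 * A ≤ (2 * √b + 1) * (T r q N * x ^ N) :=
    hlow.trans (mul_le_mul_of_nonneg_right (by linarith) htN.le)
  have h8 : T r q N * x ^ N * (9 / 16 * b ^ 2) ≤ A * (b / 4) :=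
    (mul_le_mul_of_nonneg_left hsq htN.le).trans (hterm.trans (mul_le_mul_of_nonneg_left hVb.le hA0.le))
  have h9 : A * (b / 4) ≤ (2 * √b + 1) * (T r q N * x ^ N) * (b / 3) := by
    have h10 := mul_le_mul_of_nonneg_right h7 (show (0 : ℝ) ≤ b / 3 by linarith)
    linarith
  have h11 : T r q N * x ^ N * (9 / 16 * b ^ 2) ≤ T r q N * x ^ N * ((2 * √b + 1) * (b / 3)) := by
    linarith
  have h12 := le_of_mul_le_mul_left h11 htN
  have h13 : 27 / 16 * b ≤ 2 * √b + 1 := by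
    have hb0 : 0 < b / 3 := by linarith
    refine le_of_mul_le_mul_right ?_ hb0
    linarith
  nlinarith

end Pool.Agent.Lib.MP_eeed5c_coM
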