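import Mathlib

/-!
# The numerical inequalities

`num_log`: `1 + 2 n^2 ≤ 2 (n + 1)^2` and `log 2 ≤ 1`.
`num_B`: `l ≥ 0`; `B = δ exp L` with `δ ≥ q' / (600000 r^2)` and
`exp L = exp 14 * r^3 * (7 + 6 l)`, `exp 14 ≥ 1200000`, so `δ exp L ≥ 2 q' r (7 + 6 l)`, and the left
side is at most `3 q' r (2 l + 1) + 4 q' r = q' r (7 + 6 l)`.
`num_main`: `V ≥ d / 80 ≥ 2.875e8 * L^5 ≥ 1`, `√V = S^2`, so `p ≥ 0.15 A / S^2`; `S ≥ 250 L`; the bracket is
`≥ 0.7 A / S^2`; `y = V / (12597120 L^4) ≥ 22 L`, `S^2 ≤ 3550 y L^2`, and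
`13 * 3550 / 0.7 * y * L^2 * exp L ≤ exp y`.
-/

set_option autoImplicit false

namespace Pool.Agent.Lib.MP_eeed5c_coM

private theorem NU_exp14 : (1200000 : ℝ) ≤ Real.exp 14 := by
  have h1 : Real.exp 14 = Real.exp 1 ^ 14 := by
    rw [← Real.exp_nat_mul]
    norm_num
  have h2 : (2.718 : ℝ) ≤ Real.exp 1 := by
    have := Real.exp_one_gt_d9
    linarith
  rw [h1]
  calc (1200000 : ℝ) ≤ 2.718 ^ 14 := by norm_num
    _ ≤ Real.exp 1 ^ 14 := pow_le_pow_left₀ (by norm_num) h2 14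

theorem num_log {n : ℝ} (hn : 0 ≤ n) : Real.log (1 + 2 * n ^ 2) ≤ 2 * Real.log (n + 1) + 1 := by
  have h1 : Real.log (1 + 2 * n ^ 2) ≤ Real.log (2 * (n + 1) ^ 2) :=
    Real.log_le_log (by positivity) (by nlinarith)
  have h2 : Real.log (2 * (n + 1) ^ 2) = Real.log 2 + 2 * Real.log (n + 1) := by
    rw [Real.log_mul (by norm_num) (by positivity), Real.log_pow]
    norm_num
  have h3 : Real.log 2 ≤ 1 := by
    have := Real.log_two_lt_d9
    linarith
  linarith

theorem num_B {n r q' l L δ : ℝ} (hn : 0 ≤ n) (hr : 1 ≤ r) (hq : 0 ≤ q')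
    (hl : l = Real.log (n + 1)) (hL : L = 14 + 3 * Real.log r + Real.log (7 + 6 * l))
    (hδ : q' / (600000 * r ^ 2) ≤ δ) :
    3 * (q' * r * Real.log (1 + 2 * n ^ 2)) + 4 * (q' * r) ≤ δ * Real.exp L := by
  have hr0 : 0 < r := by linarith
  have hl0 : 0 ≤ l := by
    rw [hl]
    exact Real.log_nonneg (by linarith)
  have h1 : Real.exp L = Real.exp 14 * r ^ 3 * (7 + 6 * l) := by
    rw [hL, Real.exp_add, Real.exp_add, Real.exp_log (by linarith)]
    have h2 : Real.exp (3 * Real.log r) = r ^ 3 := by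
      rw [mul_comm, Real.exp_mul, Real.exp_log hr0]
      norm_num
    rw [h2]
  have h3 := num_log hn
  rw [← hl] at h3
  have h4 : 0 ≤ q' * r := mul_nonneg hq hr0.le
  have h5 : 3 * (q' * r * Real.log (1 + 2 * n ^ 2)) + 4 * (q' * r) ≤ q' * r * (7 + 6 * l) := by
    have := mul_le_mul_of_nonneg_left h3 h4
    nlinarith
  have h6 : 2 * (q' * r * (7 + 6 * l)) ≤ δ * Real.exp L := by
    rw [h1]
    have h7 : 1200000 * r ^ 3 * (7 + 6 * l) ≤ Real.exp 14 * r ^ 3 * (7 + 6 * l) := by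
      have := NU_exp14
      gcongr
    have h8 : 0 ≤ 1200000 * r ^ 3 * (7 + 6 * l) := by positivity
    have h9 : 0 ≤ δ := le_trans (by positivity) hδ
    calc 2 * (q' * r * (7 + 6 * l)) = q' / (600000 * r ^ 2) * (1200000 * r ^ 3 * (7 + 6 * l)) := by
          field_simp
          ring
      _ ≤ δ * (1200000 * r ^ 3 * (7 + 6 * l)) := mul_le_mul_of_nonneg_right hδ h8
      _ ≤ δ * (Real.exp 14 * r ^ 3 * (7 + 6 * l)) := mul_le_mul_of_nonneg_left h7 h9
  have h10 : 0 ≤ q' * r * (7 + 6 * l) := by positivity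
  linarith

/-- the exponential beats the other factors -/
private theorem NU_exp {L y : ℝ} (hL : 14 ≤ L) (hy : 22 * L ≤ y) :
    131900 * (y * Real.exp (2 * L)) ≤ Real.exp y := by
  have h1 : y ≤ Real.exp (y / 4) := by
    have h2 : y / 8 + 1 ≤ Real.exp (y / 8) := Real.add_one_le_exp _
    have h3 : Real.exp (y / 4) = Real.exp (y / 8) * Real.exp (y / 8) := by
      rw [← Real.exp_add]
      congr 1
      ring
    rw [h3]
    have h4 : 0 ≤ y / 8 + 1 := by linarith
    have h5 := mul_le_mul h2 h2 h4 (Real.exp_pos _).le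
    nlinarith
  have h6 : (131900 : ℝ) ≤ Real.exp L := by
    have h7 := NU_exp14
    have h8 : Real.exp 14 ≤ Real.exp L := Real.exp_le_exp.2 hL
    linarith
  have hy0 : 0 ≤ y * Real.exp (2 * L) := mul_nonneg (by linarith) (Real.exp_pos _).le
  calc 131900 * (y * Real.exp (2 * L)) ≤ Real.exp L * (Real.exp (y / 4) * Real.exp (2 * L)) :=
        mul_le_mul h6 (mul_le_mul_of_nonneg_right h1 (Real.exp_pos _).le) hy0 (Real.exp_pos _).le
    _ = Real.exp (y / 4 + 3 * L) := by
        rw [← Real.exp_add, ← Real.exp_add]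
        congr 1
        ring
    _ ≤ Real.exp y := Real.exp_le_exp.2 (by linarith)

theorem num_main {r V d L S A p u : ℝ} (hr : 1 ≤ r) (hL : 14 + 3 * Real.log r ≤ L)
    (hV : d / 80 ≤ V) (hd : 23000000000 * L ^ 5 ≤ d) (hS : 0 < S) (hSV : S ^ 4 = V) (hA : 0 < A)
    (hp : 3 / 4 * A ≤ (4 * √V + 1) * p) (hu : 1 / (1200000 * r ^ 2) ≤ u) :
    0 ≤ u * (2 * Real.pi * p - 41 * A * L / S ^ 3) -
      13 * A * Real.exp (-(V * (1 / (324 * L ^ 2)) ^ 2 / 120)) := by
  have hr0 : 0 < r := by linarith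
  have hlr : 0 ≤ Real.log r := Real.log_nonneg hr
  have hL14 : 14 ≤ L := by linarith
  have hL0 : 0 < L := by linarith
  have hV1 : 287500000 * L ^ 5 ≤ V := by linarith
  have hV2 : 4025000000 * L ^ 4 ≤ V := by
    have h1 : 14 * L ^ 4 ≤ L ^ 5 := by
      have : L ^ 5 = L * L ^ 4 := by ring
      rw [this]
      exact mul_le_mul_of_nonneg_right hL14 (by positivity)
    linarith
  have hsq : √V = S ^ 2 := by
    rw [← hSV, show S ^ 4 = (S ^ 2) ^ 2 by ring]
    exact Real.sqrt_sq (by positivity)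
  have hS250 : 250 * L ≤ S := by
    have h1 : (250 * L) ^ 4 ≤ S ^ 4 := by
      rw [hSV]
      have h2 : 0 ≤ L ^ 4 := by positivity
      nlinarith
    exact le_of_pow_le_pow_left₀ (by norm_num) hS.le h1
  have hS1 : 1 ≤ S ^ 2 := by
    have : 1 ≤ S := by linarith
    nlinarith
  have hS2 : 0 < S ^ 2 := by positivity
  rw [hsq] at hp
  have hp1 : 15 / 100 * A / S ^ 2 ≤ p := by
    have h1 : 0 < 4 * S ^ 2 + 1 := by positivity
    rw [div_le_iff₀ hS2]
    have h2 : 0 < p := by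
      by_contra h
      push Not at h
      have := mul_nonpos_of_nonneg_of_nonpos h1.le h
      nlinarith
    nlinarith
  have hpi : 628 / 100 ≤ 2 * Real.pi := by
    have := Real.pi_gt_d2
    linarith
  have hp2 : 94 / 100 * (A / S ^ 2) ≤ 2 * Real.pi * p := by
    have h1 : 0 ≤ 15 / 100 * A / S ^ 2 := by positivity
    have h2 := mul_le_mul hpi hp1 h1 (by positivity)
    have h3 : (628 / 100) * (15 / 100 * A / S ^ 2) = 942 / 1000 * (A / S ^ 2) := by ring
    have h4 : 0 ≤ A / S ^ 2 := by positivity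
    linarith
  have hb1 : 41 * A * L / S ^ 3 ≤ 164 / 1000 * (A / S ^ 2) := by
    have h1 : 41 * A * L / S ^ 3 = (A / S ^ 2) * (41 * L / S) := by
      field_simp
    rw [h1, mul_comm]
    refine mul_le_mul_of_nonneg_right ?_ (by positivity)
    rw [div_le_iff₀ hS]
    linarith
  have hb : 7 / 10 * (A / S ^ 2) ≤ 2 * Real.pi * p - 41 * A * L / S ^ 3 := by
    have h4 : 0 ≤ A / S ^ 2 := by positivity
    linarith
  set y := V * (1 / (324 * L ^ 2)) ^ 2 / 120 with hy
  have hy1 : V = 12597120 * y * L ^ 4 := by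
    rw [hy]
    field_simp
    ring
  have hy2 : 22 * L ≤ y := by
    have h1 : 287500000 * L * L ^ 4 ≤ 12597120 * y * L ^ 4 := by
      rw [← hy1]
      calc 287500000 * L * L ^ 4 = 287500000 * L ^ 5 := by ring
        _ ≤ V := hV1
    have h2 := le_of_mul_le_mul_right h1 (by positivity)
    linarith
  have hy0 : 0 < y := by linarith
  have hS3 : S ^ 2 ≤ 3550 * y * L ^ 2 := by
    have h1 : (S ^ 2) ^ 2 ≤ (3550 * y * L ^ 2) ^ 2 := by
      have h2 : (S ^ 2) ^ 2 = 12597120 * y * L ^ 4 := by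
        rw [← hy1, ← hSV]
        ring
      rw [h2]
      have h3 : (3550 * y * L ^ 2) ^ 2 = 12602500 * y ^ 2 * L ^ 4 := by ring
      rw [h3]
      refine mul_le_mul_of_nonneg_right ?_ (by positivity)
      nlinarith
    exact le_of_pow_le_pow_left₀ (by norm_num) (by positivity) h1
  have hr2 : 1200000 * r ^ 2 ≤ Real.exp L := by
    have h1 : r ^ 2 = Real.exp (2 * Real.log r) := by
      rw [mul_comm, Real.exp_mul, Real.exp_log hr0]
      norm_num
    have h2 : Real.exp 14 * Real.exp (2 * Real.log r) ≤ Real.exp L := by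
      rw [← Real.exp_add]
      exact Real.exp_le_exp.2 (by linarith)
    have h3 := mul_le_mul_of_nonneg_right NU_exp14 (Real.exp_pos (2 * Real.log r)).le
    rw [h1]
    linarith
  have hL2 : L ^ 2 ≤ 2 * Real.exp L := by
    have := Real.quadratic_le_exp_of_nonneg hL0.le
    linarith
  have hkey : 13 * Real.exp (-y) * S ^ 2 * (1200000 * r ^ 2) ≤ 7 / 10 := by
    have h1 : S ^ 2 * (1200000 * r ^ 2) ≤ (3550 * y * (2 * Real.exp L)) * Real.exp L := by
      refine mul_le_mul ?_ hr2 (by positivity) (by positivity)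
      refine hS3.trans ?_
      exact mul_le_mul_of_nonneg_left hL2 (by positivity)
    have h2 := NU_exp hL14 hy2
    have h3 : Real.exp (2 * L) = Real.exp L * Real.exp L := by
      rw [← Real.exp_add]
      congr 1
      ring
    rw [h3] at h2
    have h4 : Real.exp (-y) * Real.exp y = 1 := by
      rw [← Real.exp_add]
      simp
    calc 13 * Real.exp (-y) * S ^ 2 * (1200000 * r ^ 2)
        = 13 * Real.exp (-y) * (S ^ 2 * (1200000 * r ^ 2)) := by ring
      _ ≤ 13 * Real.exp (-y) * ((3550 * y * (2 * Real.exp L)) * Real.exp L) :=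
          mul_le_mul_of_nonneg_left h1 (by positivity)
      _ = (92300 / 131900) * (Real.exp (-y) * (131900 * (y * (Real.exp L * Real.exp L)))) := by ring
      _ ≤ (92300 / 131900) * (Real.exp (-y) * Real.exp y) := by gcongr
      _ ≤ 7 / 10 := by
          rw [h4]
          norm_num
  have hfin : 13 * A * Real.exp (-y) ≤ u * (7 / 10 * (A / S ^ 2)) := by
    have h1 : 0 ≤ 7 / 10 * (A / S ^ 2) := by positivity
    have h2 := mul_le_mul_of_nonneg_right hu h1
    refine le_trans ?_ h2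
    have h3 : 1 / (1200000 * r ^ 2) * (7 / 10 * (A / S ^ 2)) = 7 / 10 * A / (S ^ 2 * (1200000 * r ^ 2)) := by
      field_simp
    rw [h3, le_div_iff₀ (by positivity)]
    have h4 := mul_le_mul_of_nonneg_left hkey hA.le
    calc 13 * A * Real.exp (-y) * (S ^ 2 * (1200000 * r ^ 2)) =
        A * (13 * Real.exp (-y) * S ^ 2 * (1200000 * r ^ 2)) := by ring
      _ ≤ A * (7 / 10) := h4
      _ = 7 / 10 * A := by ring
  have hu0 : 0 ≤ u := le_trans (by positivity) hu
  have := mul_le_mul_of_nonneg_left hb hu0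
  linarith

end Pool.Agent.Lib.MP_eeed5c_coM
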