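import Pool.Agent.Lib.MP_eeed5c_co_M.IN
import Pool.Agent.Lib.MP_eeed5c_co_M.LB
import Pool.Agent.Lib.MP_eeed5c_co_M.NU
import Pool.Agent.Lib.MP_eeed5c_co_M.HLc

/-!
# The middle range

`mid`: PROOF. Put `q = q' + t`, `n = q r`, `l = log (n + 1)`, `sP = q' • sK`, `sT = t • sK`,
`x = T r q (N-1) / T r q N > 0`; `rp (sP + sT) = (Lp r)^q`, `(rp (sP + sT)).coeff N = T r q N`. `R_ge`:
`x ≥ 1/(12 r)`; `R_le`: `x ≤ n`. Put `δ = log (rp sP)(x) - log (rp sQ)(x) ≥ q'/(600000 r^2)` (`hgap`).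
`hmean` implies that `u ↦ log (rp sP)(e^u) - log (rp sQ)(e^u)` is nondecreasing (`hasDeriv_log`), so for
`0 < y ≤ x` its value is `≤ δ`, and `≥ 0` by `hle`. Take `B = δ exp L` in `coeff_diff`, so
`log (B / δ) = L`, `L ≥ 14` (`log r ≥ 0`, `7 + 6 l ≥ 1`). `hB` of `coeff_diff`: the left side is at most
`3 log P(2x) + 4 q' r` with `P = (Lp r)^{q'}` (`hle`, cards, `δ ≤ log P(x) ≤ log P(2x)`, `rp_mono`), and
`P(2x) ≤ (1 + 2 r x)^{r q'} ≤ (1 + 2 n^2)^{r q'}` (`Lp_le`, `r x ≤ r n ≤ n^2`); then `num_B`.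
`V = var (sP + sT) x = q vb r x` (`var_nsmul`, `vb_eq`); `V_low` with `b = d / 5`, `d = n - N`
(`d ≥ 23000000000 * 14^5 ≥ 15`; `b ≤ N` because `n ≤ 6 N`), so `V ≥ d / 80`. `S = √√V`. `low_T` gives `hp` of
`num_main` with `p = T r q N * x^N`, `A = (Lp r).eval x ^ q`. `u = 1 - e^{-δ} ≥ 1/(1200000 r^2)`: `δ ≥ a :=
1/(600000 r^2)` (`q' ≥ 1`), `1 - e^{-a} ≥ a / 2` for `0 ≤ a ≤ 1`. `num_main` and `coeff_diff` give
`0 ≤ 2 π (P_N - Q_N) x^N`.
-/

set_option autoImplicit false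

namespace Pool.Agent.Lib.MP_eeed5c_coM

open Finset Pool.Agent.Lib.MP_eeed5c_co Pool.Agent.Lib.MP_eeed5c_coT

/-- The logarithmic parameter. -/
noncomputable def Lq (q r : ℕ) : ℝ :=
  14 + 3 * Real.log r + Real.log (7 + 6 * Real.log ((q : ℝ) * r + 1))

private theorem MA_mono {sP sQ : Multiset ℝ} (hP : Nn sP) (hQ : Nn sQ)
    (hmean : ∀ y, 0 < y → mean sQ y ≤ mean sP y) {y x : ℝ} (hy : 0 < y) (hyx : y ≤ x) :
    Real.log ((rp sP).eval y) - Real.log ((rp sQ).eval y) ≤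
      Real.log ((rp sP).eval x) - Real.log ((rp sQ).eval x) := by
  have hx : 0 < x := lt_of_lt_of_le hy hyx
  have hd : ∀ u : ℝ, HasDerivAt (fun u : ℝ => Real.log ((rp sP).eval (Real.exp u)) -
      Real.log ((rp sQ).eval (Real.exp u))) (mean sP (Real.exp u) - mean sQ (Real.exp u)) u :=
    fun u => (hasDeriv_log hP u).sub (hasDeriv_log hQ u)
  have hm : Monotone (fun u : ℝ => Real.log ((rp sP).eval (Real.exp u)) -
      Real.log ((rp sQ).eval (Real.exp u))) := by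
    apply monotone_of_deriv_nonneg (fun u => (hd u).differentiableAt)
    intro u
    rw [(hd u).deriv]
    linarith [hmean (Real.exp u) (Real.exp_pos u)]
  have h := hm (Real.log_le_log hy hyx)
  simp only [Real.exp_log hy, Real.exp_log hx] at h
  exact h

private theorem MA_u {a δ : ℝ} (ha : 0 ≤ a) (ha1 : a ≤ 1) (h : a ≤ δ) : a / 2 ≤ 1 - Real.exp (-δ) := by
  have h1 : Real.exp (-δ) ≤ Real.exp (-a) := Real.exp_le_exp.2 (by linarith)
  have h2 : 1 + a ≤ Real.exp a := by linarith [Real.add_one_le_exp a]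
  have h3 : Real.exp (-a) ≤ 1 / (1 + a) := by
    rw [Real.exp_neg, inv_eq_one_div]
    exact one_div_le_one_div_of_le (by linarith) h2
  have h4 : 1 / (1 + a) ≤ 1 - a / 2 := by
    rw [div_le_iff₀ (by linarith)]
    nlinarith
  linarith

theorem mid {r q' t q N : ℕ} {sK sQ : Multiset ℝ} (hqt : q' + t = q) (hK : Nn sK)
    (hL : Lp r = rp sK) (hKc : Multiset.card sK ≤ r) (hQ : Nn sQ)
    (hQc : Multiset.card sQ ≤ q' * r) (hr : 2 ≤ r) (hq' : 1 ≤ q')
    (hN1 : 1 ≤ N) (h6 : q * r ≤ 6 * N) (hNn : N < q * r)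
    (hmean : ∀ y, 0 < y → mean sQ y ≤ q' * mean sK y)
    (hle : ∀ y, 0 < y → (rp sQ).eval y ≤ (Lp r).eval y ^ q')
    (hgap : ∀ y, 1 / (12 * (r : ℝ)) ≤ y →
      (rp sQ).eval y ≤ Real.exp (-((q' : ℝ) / (600000 * (r : ℝ) ^ 2))) * (Lp r).eval y ^ q')
    (hd : 23000000000 * Lq q r ^ 5 ≤ (q : ℝ) * r - N) :
    (rp (sQ + t • sK)).coeff N ≤ T r q N := by
  have hr1 : 1 ≤ r := by omega
  have hq1 : 1 ≤ q := by omega
  have hN : N ≤ q * r := hNn.le
  have hrR : (1 : ℝ) ≤ r := by exact_mod_cast hr1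
  have hr0 : (0 : ℝ) < r := by linarith
  have hqR : (1 : ℝ) ≤ q := by exact_mod_cast hq1
  have hq'R : (1 : ℝ) ≤ q' := by exact_mod_cast hq'
  have hnR : (r : ℝ) ≤ (q : ℝ) * r := by nlinarith
  have hn0 : (0 : ℝ) ≤ (q : ℝ) * r := by positivity
  have hP : Nn (q' • sK) := Nn_nsmul hK q'
  have hT : Nn (t • sK) := Nn_nsmul hK t
  have eP : rp (q' • sK) = (Lp r) ^ q' := by rw [rp_nsmul, ← hL]
  have eS : rp (q' • sK + t • sK) = (Lp r) ^ q := by
    rw [rp_add, rp_nsmul, rp_nsmul, ← hL, ← pow_add, hqt]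
  have ePe : ∀ y, (rp (q' • sK)).eval y = (Lp r).eval y ^ q' := fun y => by
    rw [eP, Polynomial.eval_pow]
  have eSe : ∀ y, (rp (q' • sK + t • sK)).eval y = (Lp r).eval y ^ q := fun y => by
    rw [eS, Polynomial.eval_pow]
  have eSc : (rp (q' • sK + t • sK)).coeff N = T r q N := by rw [eS]; rfl
  -- the radius
  obtain ⟨x, hx⟩ : ∃ x : ℝ, x = T r q (N - 1) / T r q N := ⟨_, rfl⟩
  have hTN : 0 < T r q N := T_pos hN
  have hTN1 : 0 < T r q (N - 1) := T_pos (by omega)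
  have hx0 : 0 < x := by rw [hx]; positivity
  have hxge : 1 / (12 * (r : ℝ)) ≤ x := by rw [hx]; exact R_ge hr1 hN1 hN h6
  have hxle : x ≤ (q : ℝ) * r := by rw [hx]; exact R_le hN1 hN
  have hQ1 : ∀ y, 0 ≤ y → 1 ≤ (rp sQ).eval y := fun y hy => one_le_rp hQ hy
  have hP1 : ∀ y, 0 ≤ y → 1 ≤ (rp (q' • sK)).eval y := fun y hy => one_le_rp hP hy
  have hle' : ∀ y, 0 < y → (rp sQ).eval y ≤ (rp (q' • sK)).eval y := fun y hy => by
    rw [ePe]; exact hle y hy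
  have hmean' : ∀ y, 0 < y → mean sQ y ≤ mean (q' • sK) y := fun y hy => by
    rw [mean_nsmul]; exact hmean y hy
  -- the gap
  obtain ⟨δ, hδ⟩ : ∃ δ : ℝ, δ = Real.log ((rp (q' • sK)).eval x) - Real.log ((rp sQ).eval x) :=
    ⟨_, rfl⟩
  have hδge : (q' : ℝ) / (600000 * (r : ℝ) ^ 2) ≤ δ := by
    have h1 := hgap x hxge
    rw [← ePe] at h1
    have h2 : Real.log ((rp sQ).eval x) ≤ -((q' : ℝ) / (600000 * (r : ℝ) ^ 2)) +
        Real.log ((rp (q' • sK)).eval x) := by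
      have h3 := Real.log_le_log (by linarith [hQ1 x hx0.le]) h1
      rwa [Real.log_mul (Real.exp_pos _).ne' (by linarith [hP1 x hx0.le]), Real.log_exp] at h3
    rw [hδ]; linarith
  have hδ0 : 0 < δ := lt_of_lt_of_le (by positivity) hδge
  -- the logarithmic parameter
  obtain ⟨l, hl⟩ : ∃ l : ℝ, l = Real.log ((q : ℝ) * r + 1) := ⟨_, rfl⟩
  have hl0 : 0 ≤ l := by rw [hl]; exact Real.log_nonneg (by linarith)
  obtain ⟨L, hLL⟩ : ∃ L : ℝ, L = Lq q r := ⟨_, rfl⟩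
  have hLe : L = 14 + 3 * Real.log r + Real.log (7 + 6 * l) := by rw [hLL, hl]; rfl
  have hlogr : 0 ≤ Real.log r := Real.log_nonneg hrR
  have hlog7 : 0 ≤ Real.log (7 + 6 * l) := Real.log_nonneg (by linarith)
  have hL14 : 14 ≤ L := by rw [hLe]; linarith
  rw [← hLL] at hd
  have hB : Real.log ((rp (q' • sK)).eval (2 * x)) + Real.log ((rp sQ).eval (2 * x)) +
      2 * Multiset.card (q' • sK) + 2 * Multiset.card sQ + δ ≤ δ * Real.exp L := by
    have hx2 : 0 < 2 * x := by linarith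
    have h1 : Real.log ((rp sQ).eval (2 * x)) ≤ Real.log ((rp (q' • sK)).eval (2 * x)) :=
      Real.log_le_log (by linarith [hQ1 _ hx2.le]) (hle' _ hx2)
    have h2 : δ ≤ Real.log ((rp (q' • sK)).eval (2 * x)) := by
      have h3 : 0 ≤ Real.log ((rp sQ).eval x) := Real.log_nonneg (hQ1 x hx0.le)
      have h4 : Real.log ((rp (q' • sK)).eval x) ≤ Real.log ((rp (q' • sK)).eval (2 * x)) :=
        Real.log_le_log (by linarith [hP1 x hx0.le]) (rp_mono hP hx0.le (by linarith))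
      rw [hδ]; linarith
    have h3 : Real.log ((rp (q' • sK)).eval (2 * x)) ≤
        (q' : ℝ) * r * Real.log (1 + 2 * ((q : ℝ) * r) ^ 2) := by
      have a1 : (1 : ℝ) ≤ (Lp r).eval (2 * x) := by
        rw [hL]; exact one_le_rp hK hx2.le
      have a2 : (Lp r).eval (2 * x) ≤ (1 + r * (2 * x)) ^ r := Lp_le r hx2.le
      have a3 : (0 : ℝ) < 1 + r * (2 * x) := by positivity
      have a4 : (1 : ℝ) + r * (2 * x) ≤ 1 + 2 * ((q : ℝ) * r) ^ 2 := by
        have : (r : ℝ) * x ≤ ((q : ℝ) * r) * ((q : ℝ) * r) :=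
          mul_le_mul hnR hxle hx0.le hn0
        nlinarith
      have a5 : Real.log ((Lp r).eval (2 * x)) ≤ r * Real.log (1 + 2 * ((q : ℝ) * r) ^ 2) := by
        have b1 := Real.log_le_log (by linarith) a2
        rw [Real.log_pow] at b1
        exact b1.trans (mul_le_mul_of_nonneg_left (Real.log_le_log a3 a4) hr0.le)
      rw [ePe, Real.log_pow, mul_assoc]
      exact mul_le_mul_of_nonneg_left a5 (by linarith)
    have h4 : ((Multiset.card (q' • sK) : ℕ) : ℝ) ≤ (q' : ℝ) * r := by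
      rw [Multiset.card_nsmul]
      push_cast
      exact mul_le_mul_of_nonneg_left (by exact_mod_cast hKc) (by linarith)
    have h5 : ((Multiset.card sQ : ℕ) : ℝ) ≤ (q' : ℝ) * r := by exact_mod_cast hQc
    have h6 := num_B (n := (q : ℝ) * r) (r := (r : ℝ)) (q' := (q' : ℝ)) (l := l) (L := L) (δ := δ)
      hn0 hrR (by linarith) hl hLe hδge
    linarith
  have hLB : L = Real.log (δ * Real.exp L / δ) := by
    rw [mul_div_cancel_left₀ _ hδ0.ne', Real.log_exp]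
  -- the variance
  have hV : var (q' • sK + t • sK) x = q * vb r x := by
    rw [var_add, var_nsmul, var_nsmul, vb_eq hK hL hx0, ← add_mul, ← Nat.cast_add, hqt]
  obtain ⟨d, hdd⟩ : ∃ d : ℝ, d = (q : ℝ) * r - N := ⟨_, rfl⟩
  have hd' : 23000000000 * L ^ 5 ≤ d := by rw [hdd]; exact hd
  have hL5 : (1 : ℝ) ≤ L ^ 5 := one_le_pow₀ (by linarith)
  have hd15 : 15 ≤ d := by linarith
  have h6R : (q : ℝ) * r ≤ 6 * N := by exact_mod_cast h6
  have hVlow : d / 80 ≤ var (q' • sK + t • sK) x := by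
    have := V_low (b := d / 5) hK hL hKc hr1 hN1 hN hx (by linarith) (by linarith) (by linarith)
    rw [hV]; linarith
  obtain ⟨V, hVV⟩ : ∃ V : ℝ, V = var (q' • sK + t • sK) x := ⟨_, rfl⟩
  rw [← hVV] at hVlow hV
  have hV0 : 0 < V := by linarith
  obtain ⟨S, hS⟩ : ∃ S : ℝ, S = √(√V) := ⟨_, rfl⟩
  have hS0 : 0 < S := by rw [hS]; exact Real.sqrt_pos.2 (Real.sqrt_pos.2 hV0)
  have hS4 : S ^ 4 = V := by
    have h1 : S ^ 2 = √V := by rw [hS]; exact Real.sq_sqrt (Real.sqrt_nonneg _)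
    have h2 : S ^ 4 = (S ^ 2) ^ 2 := by ring
    rw [h2, h1, Real.sq_sqrt hV0.le]
  have key := coeff_diff hP hQ hT hx0 hδ hδ0
    (fun y hy hyx => ⟨sub_nonneg.2 (Real.log_le_log (by linarith [hQ1 y hy.le]) (hle' y hy)), by
      rw [hδ]; exact MA_mono hP hQ hmean' hy hyx⟩) hmean' hle' hB hLB (by linarith) hS0
    (by rw [hS4, hVV]) N
  have hA : 0 < (Lp r).eval x ^ q := by
    have : (1 : ℝ) ≤ (Lp r).eval x := by rw [hL]; exact one_le_rp hK hx0.le
    positivity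
  have hp := low_T (q := q) hr1 hN1 hN hx
  rw [← hV] at hp
  have hu : 1 / (1200000 * (r : ℝ) ^ 2) ≤ 1 - Real.exp (-δ) := by
    have h1 : 1 / (600000 * (r : ℝ) ^ 2) ≤ δ := by
      refine le_trans ?_ hδge
      exact div_le_div_of_nonneg_right hq'R (by positivity)
    have h2 : 1 / (600000 * (r : ℝ) ^ 2) ≤ 1 := by
      rw [div_le_one (by positivity)]
      have : (1 : ℝ) ≤ (r : ℝ) ^ 2 := one_le_pow₀ hrR
      linarith
    have h3 := MA_u (by positivity) h2 h1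
    have h4 : 1 / (600000 * (r : ℝ) ^ 2) / 2 = 1 / (1200000 * (r : ℝ) ^ 2) := by
      field_simp; norm_num
    rwa [h4] at h3
  have main := num_main (r := (r : ℝ)) (V := V) (d := d) (L := L) (S := S)
    (A := (Lp r).eval x ^ q) (p := T r q N * x ^ N) (u := 1 - Real.exp (-δ)) hrR
    (by rw [hLe]; linarith) hVlow hd' hS0 hS4 hA hp hu
  rw [eSc, eSe, ← hVV] at key
  have fin : 0 ≤ 2 * Real.pi * ((T r q N - (rp (sQ + t • sK)).coeff N) * x ^ N) := by
    refine le_trans ?_ key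
    refine main.trans (le_of_eq ?_)
    ring
  have hpi := Real.pi_pos
  have hxN : 0 < x ^ N := pow_pos hx0 N
  by_contra hcon
  push Not at hcon
  have h1 : (T r q N - (rp (sQ + t • sK)).coeff N) * x ^ N < 0 :=
    mul_neg_of_neg_of_pos (by linarith) hxN
  have h2 : 2 * Real.pi * ((T r q N - (rp (sQ + t • sK)).coeff N) * x ^ N) < 0 :=
    mul_neg_of_pos_of_neg (by positivity) h1
  linarith

end Pool.Agent.Lib.MP_eeed5c_coM
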