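import Pool.Agent.Lib.MP_eeed5c_co_M.Defs

/-!
# Basic facts on products of linear factors

All by induction on the multiset (`Multiset.induction_on`) or `simp` with `Multiset.map_add`,
`Multiset.map_cons`, `Multiset.prod_cons`, `Multiset.sum_cons`, `Multiset.map_nsmul`,
`Multiset.sum_nsmul`, `Multiset.prod_nsmul`.
`le_card`: every summand `μ x / (1 + μ x)` of `mean` is at most `1`.
`var_le_mean`, `var_le_card`: with `p = μ x / (1 + μ x)` one has `μ x / (1 + μ x) ^ 2 = p (1 - p)`,
`0 ≤ p ≤ 1`.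
-/

set_option autoImplicit false

namespace Pool.Agent.Lib.MP_eeed5c_coM

open Finset Pool.Agent.Lib.MP_eeed5c_co Pool.Agent.Lib.MP_eeed5c_coT

theorem rp_eval (s : Multiset ℝ) (x : ℝ) : (rp s).eval x = (s.map fun μ => 1 + μ * x).prod := by
  induction s using Multiset.induction_on with
  | empty => simp [rp]
  | cons a s ih =>
    unfold rp at ih ⊢
    rw [Multiset.map_cons, Multiset.prod_cons, Multiset.map_cons, Multiset.prod_cons, Polynomial.eval_mul, ih]
    simp

theorem rp_aeval (s : Multiset ℝ) (z : ℂ) :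
    Polynomial.aeval z (rp s) = (s.map fun μ : ℝ => 1 + (μ : ℂ) * z).prod := by
  induction s using Multiset.induction_on with
  | empty => simp [rp]
  | cons a s ih =>
    unfold rp at ih ⊢
    rw [Multiset.map_cons, Multiset.prod_cons, Multiset.map_cons, Multiset.prod_cons, map_mul, ih]
    simp

theorem rp_add (s t : Multiset ℝ) : rp (s + t) = rp s * rp t := by
  unfold rp
  rw [Multiset.map_add, Multiset.prod_add]

theorem rp_nsmul (k : ℕ) (s : Multiset ℝ) : rp (k • s) = rp s ^ k := by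
  unfold rp
  rw [Multiset.map_nsmul, Multiset.prod_nsmul]

theorem Nn_add {s t : Multiset ℝ} (hs : Nn s) (ht : Nn t) : Nn (s + t) := by
  intro μ hμ
  rcases Multiset.mem_add.1 hμ with h | h
  · exact hs μ h
  · exact ht μ h

theorem Nn_nsmul {s : Multiset ℝ} (hs : Nn s) (k : ℕ) : Nn (k • s) := by
  intro μ hμ
  exact hs μ (Multiset.mem_of_mem_nsmul hμ)

theorem mean_add (s t : Multiset ℝ) (x : ℝ) : mean (s + t) x = mean s x + mean t x := by
  unfold mean
  rw [Multiset.map_add, Multiset.sum_add]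

theorem mean_nsmul (k : ℕ) (s : Multiset ℝ) (x : ℝ) : mean (k • s) x = k * mean s x := by
  unfold mean
  rw [Multiset.map_nsmul, Multiset.sum_nsmul, nsmul_eq_mul]

theorem var_add (s t : Multiset ℝ) (x : ℝ) : var (s + t) x = var s x + var t x := by
  unfold var
  rw [Multiset.map_add, Multiset.sum_add]

theorem var_nsmul (k : ℕ) (s : Multiset ℝ) (x : ℝ) : var (k • s) x = k * var s x := by
  unfold var
  rw [Multiset.map_nsmul, Multiset.sum_nsmul, nsmul_eq_mul]

private theorem PEa_cons {a : ℝ} {s : Multiset ℝ} (hs : Nn (a ::ₘ s)) : 0 ≤ a ∧ Nn s :=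
  ⟨hs a (Multiset.mem_cons_self a s), fun μ hμ => hs μ (Multiset.mem_cons_of_mem hμ)⟩

theorem one_le_rp {s : Multiset ℝ} (hs : Nn s) {x : ℝ} (hx : 0 ≤ x) : 1 ≤ (rp s).eval x := by
  rw [rp_eval]
  induction s using Multiset.induction_on with
  | empty => simp
  | cons a s ih =>
    obtain ⟨ha, hs'⟩ := PEa_cons hs
    rw [Multiset.map_cons, Multiset.prod_cons]
    have h1 := ih hs'
    have h2 : 0 ≤ a * x := mul_nonneg ha hx
    nlinarith

theorem rp_mono {s : Multiset ℝ} (hs : Nn s) {x y : ℝ} (hx : 0 ≤ x) (hxy : x ≤ y) :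
    (rp s).eval x ≤ (rp s).eval y := by
  have h0 : ∀ t : Multiset ℝ, Nn t → 0 ≤ (t.map fun μ => 1 + μ * x).prod := fun t ht => by
    have := one_le_rp ht hx
    rw [rp_eval] at this
    linarith
  rw [rp_eval, rp_eval]
  induction s using Multiset.induction_on with
  | empty => simp
  | cons a s ih =>
    obtain ⟨ha, hs'⟩ := PEa_cons hs
    rw [Multiset.map_cons, Multiset.prod_cons, Multiset.map_cons, Multiset.prod_cons]
    have h2 : a * x ≤ a * y := mul_le_mul_of_nonneg_left hxy ha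
    have h3 : 0 ≤ a * x := mul_nonneg ha hx
    exact mul_le_mul (by linarith) (ih hs') (h0 s hs') (by linarith)

private theorem PEa_pt {a x : ℝ} (ha : 0 ≤ a) (hx : 0 ≤ x) :
    0 ≤ a * x / (1 + a * x) ∧ a * x / (1 + a * x) ≤ 1 ∧ 0 ≤ a * x / (1 + a * x) ^ 2 ∧
      a * x / (1 + a * x) ^ 2 ≤ a * x / (1 + a * x) ∧
      a * x / (1 + a * x) ^ 2 ≤ 1 - a * x / (1 + a * x) := by
  have h1 : 0 ≤ a * x := mul_nonneg ha hx
  have h2 : 0 < 1 + a * x := by linarith
  have h3 : a * x / (1 + a * x) ≤ 1 := by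
    rw [div_le_one h2]
    linarith
  have h4 : 0 ≤ a * x / (1 + a * x) := div_nonneg h1 h2.le
  have h5 : a * x / (1 + a * x) ^ 2 = a * x / (1 + a * x) * (1 - a * x / (1 + a * x)) := by
    field_simp
    ring
  refine ⟨h4, h3, div_nonneg h1 (by positivity), ?_, ?_⟩
  · rw [h5]
    nlinarith
  · rw [h5]
    nlinarith

theorem mean_nonneg {s : Multiset ℝ} (hs : Nn s) {x : ℝ} (hx : 0 ≤ x) : 0 ≤ mean s x := by
  refine Multiset.sum_nonneg fun y hy => ?_
  obtain ⟨μ, hμ, rfl⟩ := Multiset.mem_map.1 hy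
  exact (PEa_pt (hs μ hμ) hx).1

theorem mean_le_card {s : Multiset ℝ} (hs : Nn s) {x : ℝ} (hx : 0 ≤ x) :
    mean s x ≤ Multiset.card s := by
  unfold mean
  induction s using Multiset.induction_on with
  | empty => simp
  | cons a s ih =>
    obtain ⟨ha, hs'⟩ := PEa_cons hs
    rw [Multiset.map_cons, Multiset.sum_cons, Multiset.card_cons, Nat.cast_add, Nat.cast_one]
    have h1 := ih hs'
    have h2 := (PEa_pt ha hx).2.1
    linarith

theorem var_nonneg {s : Multiset ℝ} (hs : Nn s) {x : ℝ} (hx : 0 ≤ x) : 0 ≤ var s x := by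
  refine Multiset.sum_nonneg fun y hy => ?_
  obtain ⟨μ, hμ, rfl⟩ := Multiset.mem_map.1 hy
  exact (PEa_pt (hs μ hμ) hx).2.2.1

theorem var_le_mean {s : Multiset ℝ} (hs : Nn s) {x : ℝ} (hx : 0 ≤ x) : var s x ≤ mean s x := by
  unfold var mean
  exact Multiset.sum_map_le_sum_map _ _ fun μ hμ => (PEa_pt (hs μ hμ) hx).2.2.2.1

theorem var_le_card {s : Multiset ℝ} (hs : Nn s) {x : ℝ} (hx : 0 ≤ x) :
    var s x ≤ Multiset.card s - mean s x := by
  unfold var mean
  induction s using Multiset.induction_on with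
  | empty => simp
  | cons a s ih =>
    obtain ⟨ha, hs'⟩ := PEa_cons hs
    rw [Multiset.map_cons, Multiset.sum_cons, Multiset.card_cons, Nat.cast_add, Nat.cast_one, Multiset.map_cons,
      Multiset.sum_cons]
    have h1 := ih hs'
    have h2 := (PEa_pt ha hx).2.2.2.2
    linarith

end Pool.Agent.Lib.MP_eeed5c_coM
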