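import Pool.Agent.Lib.MP_eeed5c_co_M.PEa

/-!
# Logarithmic derivatives of products of linear factors

PROOFS. `mean_eq`: derivative of a product (induction on the multiset).
`hasDeriv_log`: by induction on the multiset, `log (rp s)(e^u) = ∑ log (1 + μ e^u)`, and the
derivative of `log (1 + μ e^u)` is `μ e^u / (1 + μ e^u)`. `hasDeriv_mean`: the derivative of
`μ e^u / (1 + μ e^u)` is `μ e^u / (1 + μ e^u)^2`. `hasDeriv_var`: the derivative of
`μ e^u / (1 + μ e^u)^2` is `μ e^u (1 - μ e^u) / (1 + μ e^u)^3`.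
`var_scale_le`, `var_scale_ge`: with `y = μ x ≥ 0`, `0 ≤ u`, `e^{-u} ≤ 1`: the quotient of the terms
`(y e^{-u} / (1 + y e^{-u})^2) / (y / (1 + y)^2) = e^{-u} ((1 + y) / (1 + y e^{-u}))^2` lies between
`e^{-u}` and `e^{-u} e^{2u} = e^u`, because `1 + y e^{-u} ≤ 1 + y ≤ e^u (1 + y e^{-u})`.
-/

set_option autoImplicit false

namespace Pool.Agent.Lib.MP_eeed5c_coM

open Finset Pool.Agent.Lib.MP_eeed5c_co Pool.Agent.Lib.MP_eeed5c_coT

/-- The sum `∑ μ x (1 - μ x) / (1 + μ x) ^ 3` (the third logarithmic derivative). -/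
noncomputable def thd (s : Multiset ℝ) (x : ℝ) : ℝ :=
  (s.map fun μ => μ * x * (1 - μ * x) / (1 + μ * x) ^ 3).sum

private theorem PEb_cons {a : ℝ} {s : Multiset ℝ} (hs : Nn (a ::ₘ s)) : 0 ≤ a ∧ Nn s :=
  ⟨hs a (Multiset.mem_cons_self a s), fun μ hμ => hs μ (Multiset.mem_cons_of_mem hμ)⟩

private theorem PEb_rp (a : ℝ) (s : Multiset ℝ) :
    rp (a ::ₘ s) = (1 + Polynomial.C a * Polynomial.X) * rp s := by
  unfold rp
  rw [Multiset.map_cons, Multiset.prod_cons]

private theorem PEb_rp_eval (a : ℝ) (s : Multiset ℝ) (x : ℝ) :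
    (rp (a ::ₘ s)).eval x = (1 + a * x) * (rp s).eval x := by
  rw [PEb_rp, Polynomial.eval_mul, Polynomial.eval_add, Polynomial.eval_one, Polynomial.eval_mul,
    Polynomial.eval_C, Polynomial.eval_X]

private theorem PEb_sum_le {s : Multiset ℝ} (hs : Nn s) {f g : ℝ → ℝ}
    (h : ∀ μ, 0 ≤ μ → f μ ≤ g μ) : (s.map f).sum ≤ (s.map g).sum :=
  Multiset.sum_map_le_sum_map f g fun μ hμ => h μ (hs μ hμ)

private theorem PEb_exp (a u : ℝ) : HasDerivAt (fun u : ℝ => a * Real.exp u) (a * Real.exp u) u :=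
  (Real.hasDerivAt_exp u).const_mul a

private theorem PEb_exp1 (a u : ℝ) : HasDerivAt (fun u : ℝ => 1 + a * Real.exp u) (a * Real.exp u) u :=
  (PEb_exp a u).const_add 1

private theorem PEb_pos {a : ℝ} (ha : 0 ≤ a) (u : ℝ) : 0 < 1 + a * Real.exp u := by
  have h := mul_nonneg ha (Real.exp_pos u).le
  linarith

theorem mean_eq {s : Multiset ℝ} (hs : Nn s) {x : ℝ} (hx : 0 ≤ x) :
    mean s x = x * (rp s).derivative.eval x / (rp s).eval x := by
  induction s using Multiset.induction_on with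
  | empty =>
    unfold mean rp
    rw [Multiset.map_zero, Multiset.sum_zero, Multiset.map_zero, Multiset.prod_zero,
      Polynomial.derivative_one, Polynomial.eval_zero, mul_zero, zero_div]
  | cons a s ih =>
    obtain ⟨ha, hs'⟩ := PEb_cons hs
    have h1 : mean (a ::ₘ s) x = a * x / (1 + a * x) + mean s x := by
      unfold mean
      rw [Multiset.map_cons, Multiset.sum_cons]
    have h2 : 0 < (rp s).eval x := lt_of_lt_of_le one_pos (one_le_rp hs' hx)
    have h3 : 0 < 1 + a * x := by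
      have h := mul_nonneg ha hx
      linarith
    have h4 : (rp (a ::ₘ s)).derivative.eval x =
        a * (rp s).eval x + (1 + a * x) * (rp s).derivative.eval x := by
      rw [PEb_rp, Polynomial.derivative_mul, Polynomial.derivative_add, Polynomial.derivative_one,
        Polynomial.derivative_C_mul, Polynomial.derivative_X, zero_add, mul_one, Polynomial.eval_add,
        Polynomial.eval_mul, Polynomial.eval_C, Polynomial.eval_mul, Polynomial.eval_add,
        Polynomial.eval_one, Polynomial.eval_mul, Polynomial.eval_C, Polynomial.eval_X]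
    rw [h1, ih hs', PEb_rp_eval, h4]
    field_simp

theorem hasDeriv_log {s : Multiset ℝ} (hs : Nn s) (u : ℝ) :
    HasDerivAt (fun u : ℝ => Real.log ((rp s).eval (Real.exp u))) (mean s (Real.exp u)) u := by
  induction s using Multiset.induction_on with
  | empty =>
    have h1 : (fun u : ℝ => Real.log ((rp (0 : Multiset ℝ)).eval (Real.exp u))) = fun _ => 0 := by
      funext u
      unfold rp
      rw [Multiset.map_zero, Multiset.prod_zero, Polynomial.eval_one, Real.log_one]
    have h2 : mean (0 : Multiset ℝ) (Real.exp u) = 0 := by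
      unfold mean
      rw [Multiset.map_zero, Multiset.sum_zero]
    rw [h1, h2]
    exact hasDerivAt_const u 0
  | cons a s ih =>
    obtain ⟨ha, hs'⟩ := PEb_cons hs
    have h1 : (fun u : ℝ => Real.log ((rp (a ::ₘ s)).eval (Real.exp u))) =
        fun u => Real.log (1 + a * Real.exp u) + Real.log ((rp s).eval (Real.exp u)) := by
      funext u
      rw [PEb_rp_eval, Real.log_mul (PEb_pos ha u).ne'
        (lt_of_lt_of_le one_pos (one_le_rp hs' (Real.exp_pos u).le)).ne']
    have h2 : mean (a ::ₘ s) (Real.exp u) =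
        a * Real.exp u / (1 + a * Real.exp u) + mean s (Real.exp u) := by
      unfold mean
      rw [Multiset.map_cons, Multiset.sum_cons]
    rw [h1, h2]
    exact ((PEb_exp1 a u).log (PEb_pos ha u).ne').add (ih hs')

theorem hasDeriv_mean {s : Multiset ℝ} (hs : Nn s) (u : ℝ) :
    HasDerivAt (fun u : ℝ => mean s (Real.exp u)) (var s (Real.exp u)) u := by
  induction s using Multiset.induction_on with
  | empty =>
    have h1 : (fun u : ℝ => mean (0 : Multiset ℝ) (Real.exp u)) = fun _ => 0 := by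
      funext u
      unfold mean
      rw [Multiset.map_zero, Multiset.sum_zero]
    have h2 : var (0 : Multiset ℝ) (Real.exp u) = 0 := by
      unfold var
      rw [Multiset.map_zero, Multiset.sum_zero]
    rw [h1, h2]
    exact hasDerivAt_const u 0
  | cons a s ih =>
    obtain ⟨ha, hs'⟩ := PEb_cons hs
    have h1 : (fun u : ℝ => mean (a ::ₘ s) (Real.exp u)) =
        fun u => a * Real.exp u / (1 + a * Real.exp u) + mean s (Real.exp u) := by
      funext u
      unfold mean
      rw [Multiset.map_cons, Multiset.sum_cons]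
    have h2 : var (a ::ₘ s) (Real.exp u) =
        a * Real.exp u / (1 + a * Real.exp u) ^ 2 + var s (Real.exp u) := by
      unfold var
      rw [Multiset.map_cons, Multiset.sum_cons]
    rw [h1, h2]
    have h3 := (PEb_exp a u).div (PEb_exp1 a u) (PEb_pos ha u).ne'
    have h4 : (a * Real.exp u * (1 + a * Real.exp u) - a * Real.exp u * (a * Real.exp u)) /
        (1 + a * Real.exp u) ^ 2 = a * Real.exp u / (1 + a * Real.exp u) ^ 2 := by
      congr 1
      ring
    rw [h4] at h3
    exact h3.add (ih hs')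

theorem hasDeriv_var {s : Multiset ℝ} (hs : Nn s) (u : ℝ) :
    HasDerivAt (fun u : ℝ => var s (Real.exp u)) (thd s (Real.exp u)) u := by
  induction s using Multiset.induction_on with
  | empty =>
    have h1 : (fun u : ℝ => var (0 : Multiset ℝ) (Real.exp u)) = fun _ => 0 := by
      funext u
      unfold var
      rw [Multiset.map_zero, Multiset.sum_zero]
    have h2 : thd (0 : Multiset ℝ) (Real.exp u) = 0 := by
      unfold thd
      rw [Multiset.map_zero, Multiset.sum_zero]
    rw [h1, h2]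
    exact hasDerivAt_const u 0
  | cons a s ih =>
    obtain ⟨ha, hs'⟩ := PEb_cons hs
    have h1 : (fun u : ℝ => var (a ::ₘ s) (Real.exp u)) =
        fun u => a * Real.exp u / (1 + a * Real.exp u) ^ 2 + var s (Real.exp u) := by
      funext u
      unfold var
      rw [Multiset.map_cons, Multiset.sum_cons]
    have h2 : thd (a ::ₘ s) (Real.exp u) =
        a * Real.exp u * (1 - a * Real.exp u) / (1 + a * Real.exp u) ^ 3 + thd s (Real.exp u) := by
      unfold thd
      rw [Multiset.map_cons, Multiset.sum_cons]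
    rw [h1, h2]
    have hp := PEb_pos ha u
    have h3 := (PEb_exp a u).div ((PEb_exp1 a u).pow 2) (pow_pos hp 2).ne'
    have h4 : (a * Real.exp u * (1 + a * Real.exp u) ^ 2 -
        a * Real.exp u * (((2 : ℕ) : ℝ) * (1 + a * Real.exp u) ^ (2 - 1) * (a * Real.exp u))) /
        ((1 + a * Real.exp u) ^ 2) ^ 2 =
        a * Real.exp u * (1 - a * Real.exp u) / (1 + a * Real.exp u) ^ 3 := by
      have h5 : (1 + a * Real.exp u) ^ (2 - 1) = 1 + a * Real.exp u := pow_one _
      rw [h5]
      field_simp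
      push_cast
      ring
    have h6 : HasDerivAt (fun u : ℝ => a * Real.exp u / (1 + a * Real.exp u) ^ 2)
        (a * Real.exp u * (1 - a * Real.exp u) / (1 + a * Real.exp u) ^ 3) u := by
      rw [← h4]
      exact h3
    exact h6.add (ih hs')

theorem thd_ge {s : Multiset ℝ} (hs : Nn s) {x : ℝ} (hx : 0 ≤ x) : -var s x ≤ thd s x := by
  have h1 : -var s x = (s.map fun μ => (-1) * (μ * x / (1 + μ * x) ^ 2)).sum := by
    unfold var
    rw [Multiset.sum_map_mul_left, neg_one_mul]
  rw [h1]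
  refine PEb_sum_le hs fun μ hμ => ?_
  obtain ⟨y, hy⟩ : ∃ y : ℝ, y = μ * x := ⟨_, rfl⟩
  have hy0 : 0 ≤ y := by
    rw [hy]
    exact mul_nonneg hμ hx
  rw [← hy]
  have hp : 0 < 1 + y := by linarith
  have h2 : y * (1 - y) / (1 + y) ^ 3 - -1 * (y / (1 + y) ^ 2) = 2 * y / (1 + y) ^ 3 := by
    field_simp
    ring
  have h3 : 0 ≤ 2 * y / (1 + y) ^ 3 := by positivity
  linarith

theorem var_scale_le {s : Multiset ℝ} (hs : Nn s) {x u : ℝ} (hx : 0 ≤ x) (hu : 0 ≤ u) :
    var s (x * Real.exp (-u)) ≤ Real.exp u * var s x := by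
  have h1 : Real.exp u * var s x = (s.map fun μ => Real.exp u * (μ * x / (1 + μ * x) ^ 2)).sum := by
    unfold var
    rw [Multiset.sum_map_mul_left]
  rw [h1]
  refine PEb_sum_le hs fun μ hμ => ?_
  obtain ⟨y, hy⟩ : ∃ y : ℝ, y = μ * x := ⟨_, rfl⟩
  have hy0 : 0 ≤ y := by
    rw [hy]
    exact mul_nonneg hμ hx
  obtain ⟨t, ht⟩ : ∃ t : ℝ, t = Real.exp (-u) := ⟨_, rfl⟩
  have ht0 : 0 < t := by
    rw [ht]
    exact Real.exp_pos _
  have ht1 : t ≤ 1 := by
    rw [ht]
    exact Real.exp_le_one_iff.2 (by linarith)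
  have ht2 : Real.exp u = 1 / t := by
    rw [ht, Real.exp_neg, one_div, inv_inv]
  rw [← mul_assoc, ← hy, ← ht, ht2]
  have hp : 0 < 1 + y := by linarith
  have hp2 : 0 < 1 + y * t := by positivity
  have h2 : t * (1 + y) ≤ 1 + y * t := by
    have h3 : t * (1 + y) = t + y * t := by ring
    linarith
  have h4 : (t * (1 + y)) ^ 2 ≤ (1 + y * t) ^ 2 := pow_le_pow_left₀ (by positivity) h2 2
  rw [show 1 / t * (y / (1 + y) ^ 2) = y / (t * (1 + y) ^ 2) by field_simp,
    div_le_div_iff₀ (by positivity) (by positivity)]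
  have h5 : y * t * (t * (1 + y) ^ 2) = y * (t * (1 + y)) ^ 2 := by ring
  rw [h5]
  exact mul_le_mul_of_nonneg_left h4 hy0

theorem var_scale_ge {s : Multiset ℝ} (hs : Nn s) {x u : ℝ} (hx : 0 ≤ x) (hu : 0 ≤ u) :
    Real.exp (-u) * var s x ≤ var s (x * Real.exp (-u)) := by
  have h1 : Real.exp (-u) * var s x =
      (s.map fun μ => Real.exp (-u) * (μ * x / (1 + μ * x) ^ 2)).sum := by
    unfold var
    rw [Multiset.sum_map_mul_left]
  rw [h1]
  refine PEb_sum_le hs fun μ hμ => ?_
  obtain ⟨y, hy⟩ : ∃ y : ℝ, y = μ * x := ⟨_, rfl⟩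
  have hy0 : 0 ≤ y := by
    rw [hy]
    exact mul_nonneg hμ hx
  obtain ⟨t, ht⟩ : ∃ t : ℝ, t = Real.exp (-u) := ⟨_, rfl⟩
  have ht0 : 0 < t := by
    rw [ht]
    exact Real.exp_pos _
  have ht1 : t ≤ 1 := by
    rw [ht]
    exact Real.exp_le_one_iff.2 (by linarith)
  rw [← mul_assoc, ← hy, ← ht]
  have hp : 0 < 1 + y := by linarith
  have hp2 : 0 < 1 + y * t := by positivity
  have h2 : 1 + y * t ≤ 1 + y := by
    have h3 : y * t ≤ y * 1 := mul_le_mul_of_nonneg_left ht1 hy0
    linarith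
  have h4 : (1 + y * t) ^ 2 ≤ (1 + y) ^ 2 := pow_le_pow_left₀ hp2.le h2 2
  rw [← mul_div_assoc, mul_comm t y]
  exact div_le_div_of_nonneg_left (by positivity) (by positivity) h4

end Pool.Agent.Lib.MP_eeed5c_coM
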