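import Pool.Agent.Lib.MP_eeed5c_co_M.PEa

/-!
# The absolute value on a circle

PROOF of `norm_pt_le`. Induction on the multiset (`rp_aeval`, `rp_eval`, `map_cons`). For one factor,
with `y = μ x ≥ 0`: `‖1 + y e^{it}‖^2 = 1 + 2 y cos t + y^2 = (1 + y)^2 - 2 y (1 - cos t)
 = (1 + y)^2 (1 - 2 (y / (1 + y)^2) (1 - cos t)) ≤ (1 + y)^2 exp (-2 (y / (1 + y)^2) (1 - cos t))`
(`Real.add_one_le_exp`), so `‖1 + y e^{it}‖ ≤ (1 + y) exp (-(y / (1 + y)^2) (1 - cos t))`.

`one_sub_cos_ge`: `1 - cos t = 2 sin(t/2)^2` and `|sin(t/2)| ≥ |t| / π` for `|t| ≤ π`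
(`Real.mul_abs_le_abs_sin` or `Real.mul_le_sin`), and `2 / π^2 ≥ 1/5` (`π < 3.15`).
-/

set_option autoImplicit false

namespace Pool.Agent.Lib.MP_eeed5c_coM

open Finset Pool.Agent.Lib.MP_eeed5c_co Pool.Agent.Lib.MP_eeed5c_coT

private theorem PEc_one {y : ℝ} (hy : 0 ≤ y) (t : ℝ) :
    ‖1 + (y : ℂ) * Complex.exp (t * Complex.I)‖ ≤
      (1 + y) * Real.exp (-(y / (1 + y) ^ 2 * (1 - Real.cos t))) := by
  have h1 : (0 : ℝ) < 1 + y := by linarith
  have hre : (1 + (y : ℂ) * Complex.exp (t * Complex.I)).re = 1 + y * Real.cos t := by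
    rw [Complex.add_re, Complex.one_re, Complex.re_ofReal_mul, Complex.exp_ofReal_mul_I_re]
  have him : (1 + (y : ℂ) * Complex.exp (t * Complex.I)).im = y * Real.sin t := by
    rw [Complex.add_im, Complex.one_im, Complex.im_ofReal_mul, Complex.exp_ofReal_mul_I_im, zero_add]
  have hsq : ‖1 + (y : ℂ) * Complex.exp (t * Complex.I)‖ ^ 2 = (1 + y) ^ 2 - 2 * y * (1 - Real.cos t) := by
    rw [Complex.sq_norm, Complex.normSq_apply, hre, him]
    have := Real.sin_sq_add_cos_sq t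
    nlinarith [this]
  have hexp : 1 - 2 * (y / (1 + y) ^ 2 * (1 - Real.cos t)) ≤
      Real.exp (-(2 * (y / (1 + y) ^ 2 * (1 - Real.cos t)))) := by
    have := Real.add_one_le_exp (-(2 * (y / (1 + y) ^ 2 * (1 - Real.cos t))))
    linarith
  have hpos : 0 ≤ (1 + y) * Real.exp (-(y / (1 + y) ^ 2 * (1 - Real.cos t))) :=
    mul_nonneg h1.le (Real.exp_pos _).le
  refine le_of_sq_le_sq ?_ hpos
  rw [hsq, mul_pow, ← Real.exp_nat_mul]
  have e : ((2 : ℕ) : ℝ) * -(y / (1 + y) ^ 2 * (1 - Real.cos t)) =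
      -(2 * (y / (1 + y) ^ 2 * (1 - Real.cos t))) := by push_cast; ring
  rw [e]
  have h2 : (1 + y) ^ 2 - 2 * y * (1 - Real.cos t) =
      (1 + y) ^ 2 * (1 - 2 * (y / (1 + y) ^ 2 * (1 - Real.cos t))) := by
    field_simp
  rw [h2]
  exact mul_le_mul_of_nonneg_left hexp (by positivity)

theorem norm_pt_le {s : Multiset ℝ} (hs : Nn s) {x : ℝ} (hx : 0 ≤ x) (t : ℝ) :
    ‖Polynomial.aeval (pt x t) (rp s)‖ ≤
      (rp s).eval x * Real.exp (-(var s x * (1 - Real.cos t))) := by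
  rw [rp_aeval, rp_eval]
  unfold var
  induction s using Multiset.induction_on with
  | empty => simp
  | cons a s ih =>
    have ha : 0 ≤ a := hs a (Multiset.mem_cons_self a s)
    have hs' : Nn s := fun μ hμ => hs μ (Multiset.mem_cons_of_mem hμ)
    have ih' := ih hs'
    have hay : 0 ≤ a * x := mul_nonneg ha hx
    rw [Multiset.map_cons, Multiset.prod_cons, Multiset.map_cons, Multiset.prod_cons,
      Multiset.map_cons, Multiset.sum_cons, norm_mul]
    have h1 : ‖1 + (a : ℂ) * pt x t‖ ≤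
        (1 + a * x) * Real.exp (-(a * x / (1 + a * x) ^ 2 * (1 - Real.cos t))) := by
      have := PEc_one hay t
      have e : (a : ℂ) * pt x t = ((a * x : ℝ) : ℂ) * Complex.exp (t * Complex.I) := by
        unfold pt
        push_cast
        ring
      rw [e]
      exact this
    have hexp : Real.exp (-((a * x / (1 + a * x) ^ 2 +
        (Multiset.map (fun μ => μ * x / (1 + μ * x) ^ 2) s).sum) * (1 - Real.cos t))) =
        Real.exp (-(a * x / (1 + a * x) ^ 2 * (1 - Real.cos t))) *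
        Real.exp (-((Multiset.map (fun μ => μ * x / (1 + μ * x) ^ 2) s).sum * (1 - Real.cos t))) := by
      rw [← Real.exp_add]
      congr 1
      ring
    rw [hexp]
    calc ‖1 + (a : ℂ) * pt x t‖ * ‖(Multiset.map (fun μ : ℝ => 1 + (μ : ℂ) * pt x t) s).prod‖
        ≤ ((1 + a * x) * Real.exp (-(a * x / (1 + a * x) ^ 2 * (1 - Real.cos t)))) *
          ((Multiset.map (fun μ => 1 + μ * x) s).prod *
            Real.exp (-((Multiset.map (fun μ => μ * x / (1 + μ * x) ^ 2) s).sum *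
              (1 - Real.cos t)))) :=
          mul_le_mul h1 ih' (norm_nonneg _)
            (mul_nonneg (by linarith) (Real.exp_pos _).le)
      _ = _ := by ring

theorem one_sub_cos_ge {t : ℝ} (ht : |t| ≤ Real.pi) : t ^ 2 / 5 ≤ 1 - Real.cos t := by
  have hc : 1 - Real.cos t = 2 * Real.sin (t / 2) ^ 2 := by
    have h1 := Real.cos_two_mul (t / 2)
    have h2 := Real.sin_sq_add_cos_sq (t / 2)
    rw [mul_div_cancel₀ t two_ne_zero] at h1
    linarith
  have h3 : 2 / Real.pi * |t / 2| ≤ |Real.sin (t / 2)| := by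
    apply Real.mul_abs_le_abs_sin
    rw [abs_div, abs_two]
    linarith
  have h4 : (2 / Real.pi * |t / 2|) ^ 2 ≤ Real.sin (t / 2) ^ 2 := by
    rw [← sq_abs (Real.sin (t / 2))]
    exact pow_le_pow_left₀ (mul_nonneg (div_nonneg zero_le_two Real.pi_pos.le) (abs_nonneg _)) h3 2
  have h5 : (2 / Real.pi * |t / 2|) ^ 2 = t ^ 2 / Real.pi ^ 2 := by
    rw [mul_pow, sq_abs]
    field_simp
  rw [hc]
  have hpi : Real.pi ^ 2 ≤ 10 := by
    have h1 := Real.pi_lt_d2
    have h0 := Real.pi_pos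
    nlinarith
  have h6 : t ^ 2 / 10 ≤ t ^ 2 / Real.pi ^ 2 :=
    div_le_div_of_nonneg_left (sq_nonneg t) (by have := Real.pi_pos; positivity) hpi
  rw [h5] at h4
  linarith

theorem norm_pt_le' {s : Multiset ℝ} (hs : Nn s) {x : ℝ} (hx : 0 ≤ x) {t : ℝ}
    (ht : |t| ≤ Real.pi) : ‖Polynomial.aeval (pt x t) (rp s)‖ ≤
      (rp s).eval x * Real.exp (-(var s x * t ^ 2 / 5)) := by
  refine (norm_pt_le hs hx t).trans ?_
  refine mul_le_mul_of_nonneg_left ?_ (zero_le_one.trans (one_le_rp hs hx))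
  apply Real.exp_le_exp.mpr
  have h1 := one_sub_cos_ge ht
  have h2 := mul_le_mul_of_nonneg_left h1 (var_nonneg hs hx)
  have h3 : var s x * (t ^ 2 / 5) = var s x * t ^ 2 / 5 := by ring
  linarith

end Pool.Agent.Lib.MP_eeed5c_coM
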