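import Pool.Agent.Lib.MP_eeed5c_co_M.PEb
import Pool.Agent.Lib.MP_eeed5c_co_M.PEc

/-!
# The second polynomial away from the positive axis

`tail_Q`: PROOF. Let `V = var sP x`, `VQ = var sQ x`.
Case 1, `V / 16 ≤ VQ`. By `norm_pt_le'` the left side is at most
`(rp sQ).eval x * exp (-(V/16) t^2/5) ≤ (rp sP).eval x * exp (-(V t^2 / 120))`.
Case 2, `VQ < V / 16`. Let `x = e^τ` and `F u = log (rp sP)(e^u) - log (rp sQ)(e^u)`,
`F' u = mean sP (e^u) - mean sQ (e^u) ≥ 0`, `F'' u = var sP (e^u) - var sQ (e^u)`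
(`hasDeriv_log`, `hasDeriv_mean`). For `u = τ - v`, `0 ≤ v ≤ 1`, by `var_scale_ge`, `var_scale_le`:
`F'' u ≥ e^{-1} V - e V / 16 ≥ 0.19 V` (`e < 2.7183`, `e^{-1} > 0.3678`). Hence
`F' (τ - 1 + w) ≥ 0.19 V w` for `0 ≤ w ≤ 1` (mean value inequality; `F' (τ - 1) ≥ 0`), and then
`F τ ≥ F (τ - 1) + 0.19 V / 2 ≥ 0.09 V` (apply monotonicity of `w ↦ F (τ - 1 + w) - 0.095 V w^2`).
So `(rp sQ).eval x = (rp sP).eval x * e^{-F τ} ≤ (rp sP).eval x * e^{-0.09 V}`, and
`t^2 / 120 ≤ π^2 / 120 < 0.0823 < 0.09`; the left side is at most `(rp sQ).eval x` by `norm_pt_le`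
(`var_nonneg`, `cos t ≤ 1`).
-/

set_option autoImplicit false

namespace Pool.Agent.Lib.MP_eeed5c_coM

open Finset Pool.Agent.Lib.MP_eeed5c_co Pool.Agent.Lib.MP_eeed5c_coT

/-- A function with nonnegative derivative on a unit interval. -/
private theorem SV_mono {f f' : ℝ → ℝ} (h : ∀ u, HasDerivAt f (f' u) u) {a b : ℝ}
    (h0 : ∀ u, a ≤ u → u ≤ b → 0 ≤ f' u) {u v : ℝ} (hu : a ≤ u) (huv : u ≤ v) (hv : v ≤ b) :
    f u ≤ f v := by
  have hm : MonotoneOn f (Set.Icc a b) := by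
    refine monotoneOn_of_deriv_nonneg (convex_Icc a b) (fun y _ => (h y).continuousAt.continuousWithinAt)
      (fun y _ => (h y).differentiableAt.differentiableWithinAt) ?_
    intro y hy
    rw [interior_Icc] at hy
    rw [(h y).deriv]
    exact h0 y hy.1.le hy.2.le
  exact hm ⟨hu, huv.trans hv⟩ ⟨hu.trans huv, hv⟩ huv

private theorem SV_gap {sP sQ : Multiset ℝ} (hP : Nn sP) (hQ : Nn sQ) {x : ℝ} (hx : 0 < x)
    (hmean : ∀ y, 0 < y → mean sQ y ≤ mean sP y)
    (hle : ∀ y, 0 < y → (rp sQ).eval y ≤ (rp sP).eval y) (hV : var sQ x ≤ var sP x / 16) :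
    (rp sQ).eval x ≤ (rp sP).eval x * Real.exp (-(0.095 * var sP x)) := by
  obtain ⟨V, hVd⟩ : ∃ V, V = var sP x := ⟨_, rfl⟩
  obtain ⟨τ, hτ⟩ : ∃ τ, τ = Real.log x := ⟨_, rfl⟩
  have hxτ : Real.exp τ = x := by rw [hτ]; exact Real.exp_log hx
  have hV0 : 0 ≤ V := by rw [hVd]; exact var_nonneg hP hx.le
  have hpos : ∀ (s : Multiset ℝ), Nn s → ∀ y : ℝ, 0 < y → 0 < (rp s).eval y := fun s hs y hy =>
    lt_of_lt_of_le one_pos (one_le_rp hs hy.le)
  rw [← hVd]
  rw [← hVd] at hV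
  have he1 : Real.exp 1 < 2.7182818286 := Real.exp_one_lt_d9
  have he2 : 0.36787944116 < Real.exp (-1) := Real.exp_neg_one_gt_d9
  -- the second derivative
  have hd2 : ∀ u, τ - 1 ≤ u → u ≤ τ → 0 ≤ var sP (Real.exp u) - var sQ (Real.exp u) - 0.19 * V := by
    intro u hu1 hu2
    have hv : 0 ≤ τ - u := by linarith
    have e : Real.exp u = x * Real.exp (-(τ - u)) := by
      rw [← hxτ, ← Real.exp_add]
      ring_nf
    have h1 := var_scale_ge hP hx.le hv
    have h2 := var_scale_le hQ hx.le hv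
    rw [← e] at h1 h2
    rw [← hVd] at h1
    have h3 : Real.exp (-1) ≤ Real.exp (-(τ - u)) := Real.exp_le_exp.mpr (by linarith)
    have h4 : Real.exp (τ - u) ≤ Real.exp 1 := Real.exp_le_exp.mpr (by linarith)
    have h5 : Real.exp (-1) * V ≤ Real.exp (-(τ - u)) * V := mul_le_mul_of_nonneg_right h3 hV0
    have h6 : Real.exp (τ - u) * var sQ x ≤ Real.exp 1 * (V / 16) :=
      mul_le_mul h4 hV (var_nonneg hQ hx.le) (Real.exp_pos 1).le
    have h7 : 0.36787944116 * V ≤ Real.exp (-1) * V := mul_le_mul_of_nonneg_right he2.le hV0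
    have h8 : Real.exp 1 * (V / 16) ≤ 2.7182818286 * (V / 16) :=
      mul_le_mul_of_nonneg_right he1.le (by positivity)
    linarith
  -- the first derivative
  have hG1 : ∀ u, HasDerivAt (fun u : ℝ => mean sP (Real.exp u) - mean sQ (Real.exp u) -
      0.19 * V * (u - (τ - 1))) (var sP (Real.exp u) - var sQ (Real.exp u) - 0.19 * V) u := by
    intro u
    have h1 := ((hasDeriv_mean hP u).sub (hasDeriv_mean hQ u)).sub
      (((hasDerivAt_id u).sub_const (τ - 1)).const_mul (0.19 * V))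
    rw [mul_one] at h1
    exact h1
  have hd1 : ∀ u, τ - 1 ≤ u → u ≤ τ → 0 ≤ mean sP (Real.exp u) - mean sQ (Real.exp u) -
      0.19 * V * (u - (τ - 1)) := by
    intro u hu1 hu2
    have h := SV_mono hG1 hd2 (le_refl (τ - 1)) hu1 hu2
    have h0 := hmean (Real.exp (τ - 1)) (Real.exp_pos _)
    have h1 : 0.19 * V * ((τ - 1) - (τ - 1)) = 0 := by ring
    rw [h1] at h
    linarith
  have hG2 : ∀ u, HasDerivAt (fun u : ℝ => Real.log ((rp sP).eval (Real.exp u)) -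
      Real.log ((rp sQ).eval (Real.exp u)) - 0.095 * V * (u - (τ - 1)) ^ 2)
      (mean sP (Real.exp u) - mean sQ (Real.exp u) - 0.19 * V * (u - (τ - 1))) u := by
    intro u
    have h1 := ((hasDeriv_log hP u).sub (hasDeriv_log hQ u)).sub
      ((((hasDerivAt_id u).sub_const (τ - 1)).pow 2).const_mul (0.095 * V))
    refine h1.congr_deriv ?_
    simp only [id_eq]
    push_cast
    ring
  have h := SV_mono hG2 hd1 (le_refl (τ - 1)) (by linarith : τ - 1 ≤ τ) le_rfl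
  have h1 : 0.095 * V * ((τ - 1) - (τ - 1)) ^ 2 = 0 := by ring
  have h2 : 0.095 * V * (τ - (τ - 1)) ^ 2 = 0.095 * V := by ring
  rw [h1, h2, hxτ] at h
  have h3 := Real.log_le_log (hpos sQ hQ _ (Real.exp_pos (τ - 1))) (hle _ (Real.exp_pos (τ - 1)))
  have h4 : Real.log ((rp sQ).eval x) ≤ Real.log ((rp sP).eval x) - 0.095 * V := by linarith
  have h5 := Real.exp_le_exp.mpr h4
  rw [Real.exp_log (hpos sQ hQ x hx), sub_eq_add_neg, Real.exp_add, Real.exp_log (hpos sP hP x hx)] at h5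
  exact h5

theorem tail_Q {sP sQ : Multiset ℝ} (hP : Nn sP) (hQ : Nn sQ) {x : ℝ} (hx : 0 < x)
    (hmean : ∀ y, 0 < y → mean sQ y ≤ mean sP y)
    (hle : ∀ y, 0 < y → (rp sQ).eval y ≤ (rp sP).eval y) {t : ℝ} (ht : |t| ≤ Real.pi) :
    ‖Polynomial.aeval (pt x t) (rp sQ)‖ ≤
      (rp sP).eval x * Real.exp (-(var sP x * t ^ 2 / 120)) := by
  have hV0 : 0 ≤ var sP x := var_nonneg hP hx.le
  have hVQ0 : 0 ≤ var sQ x := var_nonneg hQ hx.le
  have hP0 : 0 < (rp sP).eval x := lt_of_lt_of_le one_pos (one_le_rp hP hx.le)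
  have hQ0 : 0 < (rp sQ).eval x := lt_of_lt_of_le one_pos (one_le_rp hQ hx.le)
  rcases le_total (var sP x / 16) (var sQ x) with h | h
  · refine (norm_pt_le' hQ hx.le ht).trans ?_
    refine mul_le_mul (hle x hx) (Real.exp_le_exp.mpr ?_) (Real.exp_pos _).le hP0.le
    have h1 : var sP x / 16 * t ^ 2 ≤ var sQ x * t ^ 2 := mul_le_mul_of_nonneg_right h (sq_nonneg t)
    have h2 : 0 ≤ var sP x * t ^ 2 := mul_nonneg hV0 (sq_nonneg t)
    linarith
  · have h1 := norm_pt_le hQ hx.le t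
    have h2 : Real.exp (-(var sQ x * (1 - Real.cos t))) ≤ 1 := by
      rw [Real.exp_le_one_iff]
      have h3 : 0 ≤ var sQ x * (1 - Real.cos t) := mul_nonneg hVQ0 (by linarith [Real.cos_le_one t])
      linarith
    have h3 : (rp sQ).eval x * Real.exp (-(var sQ x * (1 - Real.cos t))) ≤ (rp sQ).eval x :=
      mul_le_of_le_one_right hQ0.le h2
    refine (h1.trans h3).trans ((SV_gap hP hQ hx hmean hle h).trans ?_)
    refine mul_le_mul_of_nonneg_left (Real.exp_le_exp.mpr ?_) hP0.le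
    have h4 : t ^ 2 ≤ 9.9 := by
      have h5 : |t| ≤ 3.1416 := ht.trans Real.pi_lt_d4.le
      have h6 := pow_le_pow_left₀ (abs_nonneg t) h5 2
      rw [sq_abs] at h6
      refine h6.trans ?_
      norm_num
    have h7 : var sP x * t ^ 2 ≤ var sP x * 9.9 := mul_le_mul_of_nonneg_left h4 hV0
    linarith

end Pool.Agent.Lib.MP_eeed5c_coM
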